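import Pool.Agent.H751.AB.Stm3

/-! AB DESC: descent of powers in cyclotomic extensions. -/

set_option autoImplicit false

namespace Pool.Agent.H376.AB

open Pool.Agent.H751.AB NumberField

theorem desc_aux {K L : Type} [Field K] [Field L] [Algebra K L] [FiniteDimensional K L]
    [IsGalois K L] (hcomm : ∀ (σ τ : L ≃ₐ[K] L) (w : L), σ (τ w) = τ (σ w)) {p c J : ℕ}
    (hp : p.Prime) (hη : ¬ ∃ η : K, IsPrimitiveRoot η (p ^ (c + 1))) (hJ : c + 1 ≤ J) {ζ : L}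
    (hζ : IsPrimitiveRoot ζ (p ^ J)) {x : K} (hx : x ≠ 0) {y : L}
    (hy : y ^ (p ^ J) = algebraMap K L x) :
    ∃ (a : ℕ) (z : K), 0 < a ∧ ¬ p ^ (c + 1) ∣ a ∧ z ^ (p ^ J) = x ^ a := by
  have hn : NeZero (p ^ J) := ⟨pow_ne_zero _ hp.ne_zero⟩
  obtain ⟨q, hq⟩ : ∃ q, q = p ^ (J - (c + 1)) := ⟨_, rfl⟩
  have hη' : IsPrimitiveRoot (ζ ^ q) (p ^ (c + 1)) := by
    refine hζ.pow (pow_pos hp.pos _) ?_
    rw [hq, ← pow_add]
    congr 1
    omega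
  obtain ⟨σ, hσ⟩ : ∃ σ : L ≃ₐ[K] L, σ (ζ ^ q) ≠ ζ ^ q := by
    by_contra hcon
    push Not at hcon
    obtain ⟨η, hη1⟩ := (IsGalois.mem_range_algebraMap_iff_fixed _).2 hcon
    rw [← hη1] at hη'
    exact hη ⟨η, hη'.of_map_of_injective (algebraMap K L).injective⟩
  have hroot : ∀ τ : L ≃ₐ[K] L, ∃ t : ℕ, τ ζ = ζ ^ t := fun τ => by
    obtain ⟨t, -, ht⟩ := hζ.eq_pow_of_pow_eq_one (ξ := τ ζ)
      (by rw [← map_pow, hζ.pow_eq_one, map_one])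
    exact ⟨t, ht.symm⟩
  have hx' : algebraMap K L x ≠ 0 := fun h => hx ((map_eq_zero (algebraMap K L)).1 h)
  have hy0 : y ≠ 0 := by
    rintro rfl
    rw [zero_pow hn.ne] at hy
    exact hx' hy.symm
  have hζ0 : ζ ≠ 0 := hζ.ne_zero hn.ne
  have hyroot : ∀ τ : L ≃ₐ[K] L, ∃ b : ℕ, τ y = ζ ^ b * y := fun τ => by
    obtain ⟨b, -, hb⟩ := hζ.eq_pow_of_pow_eq_one (ξ := τ y / y) (by
      rw [div_pow, ← map_pow, hy, AlgEquiv.commutes]
      exact div_self hx')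
    exact ⟨b, by rw [hb, div_mul_cancel₀ _ hy0]⟩
  obtain ⟨a0, ha0⟩ := hroot σ
  have ha0' : a0 ≠ 0 := by
    rintro rfl
    rw [pow_zero] at ha0
    have h1 : ζ = 1 := σ.injective (by rw [ha0, map_one])
    apply hσ
    rw [h1, one_pow, map_one]
  obtain ⟨a, rfl⟩ := Nat.exists_eq_succ_of_ne_zero ha0'
  have hdvd : ¬ p ^ (c + 1) ∣ a := by
    intro h1
    apply hσ
    have h2 : (ζ ^ q) ^ a = 1 := (hη'.pow_eq_one_iff_dvd a).2 h1
    rw [map_pow, ha0, ← pow_mul, mul_comm, pow_mul, Nat.succ_eq_add_one, pow_succ, h2, one_mul]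
  have ha : 0 < a := by
    rcases Nat.eq_zero_or_pos a with h | h
    · exact absurd (h ▸ dvd_zero _) hdvd
    · exact h
  obtain ⟨b0, hb0⟩ := hyroot σ
  have hfix : ∀ τ : L ≃ₐ[K] L, τ (y ^ a * (ζ ^ b0)⁻¹) = y ^ a * (ζ ^ b0)⁻¹ := by
    intro τ
    obtain ⟨t, ht⟩ := hroot τ
    obtain ⟨b, hb⟩ := hyroot τ
    have h1 := hcomm τ σ y
    rw [hb0, hb, map_mul, map_mul, map_pow, map_pow, ht, ha0, hb, hb0] at h1
    have h2 : (ζ ^ t) ^ b0 = (ζ ^ b) ^ a * ζ ^ b0 := by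
      have h3 : (ζ ^ b * y) ≠ 0 := mul_ne_zero (pow_ne_zero _ hζ0) hy0
      apply mul_right_cancel₀ h3
      rw [h1, Nat.succ_eq_add_one]
      ring
    rw [map_mul, map_inv₀, map_pow, map_pow, ht, hb, h2, mul_pow]
    have h4 : ζ ^ b0 ≠ 0 := pow_ne_zero _ hζ0
    have h5 : (ζ ^ b) ^ a ≠ 0 := pow_ne_zero _ (pow_ne_zero _ hζ0)
    field_simp
  obtain ⟨z, hz⟩ := (IsGalois.mem_range_algebraMap_iff_fixed _).2 hfix
  refine ⟨a, z, ha, hdvd, (algebraMap K L).injective ?_⟩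
  rw [map_pow, map_pow, hz, mul_pow, inv_pow, ← pow_mul ζ, mul_comm b0, pow_mul, hζ.pow_eq_one,
    one_pow, inv_one, mul_one, ← pow_mul, mul_comm, pow_mul, hy]

theorem T_DESC : S_DESC := by
  intro K _ _ p c J hp hη hJ x hx ⟨y, hy⟩
  have hn : NeZero (p ^ J) := ⟨pow_ne_zero _ hp.ne_zero⟩
  have hn' : NeZero ((p ^ J : ℕ) : K) := ⟨by exact_mod_cast hn.ne⟩
  have hcyc : IsCyclotomicExtension {p ^ J} K (CyclotomicField (p ^ J) K) := inferInstance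
  have hgal : IsGalois K (CyclotomicField (p ^ J) K) := IsCyclotomicExtension.isGalois {p ^ J} K _
  have hfd : FiniteDimensional K (CyclotomicField (p ^ J) K) :=
    IsCyclotomicExtension.finiteDimensional {p ^ J} K _
  have hc : IsMulCommutative
      (CyclotomicField (p ^ J) K ≃ₐ[K] CyclotomicField (p ^ J) K) :=
    IsCyclotomicExtension.isMulCommutative {p ^ J} K _
  refine desc_aux (fun σ τ w => ?_) hp hη hJ
    (IsCyclotomicExtension.zeta_spec (p ^ J) K (CyclotomicField (p ^ J) K)) hx hy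
  have h1 : σ * τ = τ * σ := mul_comm' σ τ
  exact congrArg (fun f : CyclotomicField (p ^ J) K ≃ₐ[K] CyclotomicField (p ^ J) K => f w) h1

end Pool.Agent.H376.AB
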