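import Pool.Agent.H751.AB.Stm4

/-!
FGI: subgroups of an extension of a finitely generated group by a finitely generated abelian group
are finitely generated if they contain the kernel.
-/

set_option autoImplicit false

namespace Pool.Agent.H603.AB

open Pool.Agent.H751.AB

/-- subgroups of finitely generated commutative groups are finitely generated -/
theorem comm_fg {Q : Type} [CommGroup Q] [Group.FG Q] (K : Subgroup Q) : K.FG := by
  rw [Subgroup.fg_iff_add_fg]
  have : Module.Finite ℤ (Additive Q) := Module.Finite.iff_addGroup_fg.2 inferInstance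
  have h1 : (AddSubgroup.toIntSubmodule K.toAddSubgroup).FG := IsNoetherian.noetherian _
  exact (Submodule.fg_iff_addSubgroup_fg _).1 h1

/-- subgroups of finitely generated subgroups with commuting elements are finitely generated -/
theorem comm_fg' {Q : Type} [Group Q] {A B : Subgroup Q} (hA : A.FG)
    (hc : ∀ a ∈ A, ∀ b ∈ A, a * b = b * a) (hBA : B ≤ A) : B.FG := by
  let _ : CommGroup A :=
    { (inferInstance : Group A) with
      mul_comm := fun a b => Subtype.ext (hc a a.2 b b.2) }
  have h0 : Group.FG A := (Group.fg_iff_subgroup_fg A).2 hA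
  obtain ⟨S, hS⟩ : (B.subgroupOf A).FG := comm_fg (B.subgroupOf A)
  classical
  refine ⟨S.image A.subtype, ?_⟩
  rw [Finset.coe_image, ← MonoidHom.map_closure, hS, Subgroup.subgroupOf_map_subtype]
  exact inf_eq_left.2 hBA

/-- the extension argument -/
theorem ext_fg {G : Type} [Group G] {N A B : Subgroup G} [N.Normal] (hN : N.FG) (hA : A.FG)
    (hNB : N ≤ B) (hBA : B ≤ A) (hc : ∀ a ∈ A, ∀ b ∈ A, a * b * a⁻¹ * b⁻¹ ∈ N) : B.FG := by
  classical
  have hA' : (A.map (QuotientGroup.mk' N)).FG := by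
    obtain ⟨S, rfl⟩ := hA
    refine ⟨S.image (QuotientGroup.mk' N), ?_⟩
    rw [Finset.coe_image, ← MonoidHom.map_closure]
  have hc' : ∀ a ∈ A.map (QuotientGroup.mk' N), ∀ b ∈ A.map (QuotientGroup.mk' N),
      a * b = b * a := by
    rintro _ ⟨a, ha, rfl⟩ _ ⟨b, hb, rfl⟩
    have h1 := (QuotientGroup.eq_one_iff (N := N) (a * b * a⁻¹ * b⁻¹)).2 (hc a ha b hb)
    have h2 : (QuotientGroup.mk' N) a * (QuotientGroup.mk' N) b * ((QuotientGroup.mk' N) a)⁻¹ *
        ((QuotientGroup.mk' N) b)⁻¹ = 1 := h1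
    rw [mul_inv_eq_one, mul_inv_eq_iff_eq_mul] at h2
    exact h2
  obtain ⟨S', hS'⟩ := comm_fg' hA' hc' (Subgroup.map_mono hBA)
  have hsub : (S' : Set (G ⧸ N)) ⊆ (QuotientGroup.mk' N) '' (B : Set G) := by
    rw [← Subgroup.coe_map, ← hS']
    exact Subgroup.subset_closure
  obtain ⟨S, hSB, hSS⟩ := Finset.subset_set_image_iff.1 hsub
  obtain ⟨T, hT⟩ := hN
  refine ⟨S ∪ T, le_antisymm ?_ ?_⟩
  · rw [Subgroup.closure_le, Finset.coe_union, Set.union_subset_iff]
    refine ⟨hSB, ?_⟩
    have : (T : Set G) ⊆ N := by rw [← hT]; exact Subgroup.subset_closure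
    exact this.trans hNB
  · intro b hb
    have h1 : (QuotientGroup.mk' N) b ∈ (Subgroup.closure (S : Set G)).map (QuotientGroup.mk' N) := by
      rw [MonoidHom.map_closure, ← Finset.coe_image, hSS, hS']
      exact ⟨b, hb, rfl⟩
    obtain ⟨c, hc1, hc2⟩ := h1
    have h2 : c⁻¹ * b ∈ N := QuotientGroup.eq.1 hc2
    have h3 : b = c * (c⁻¹ * b) := by group
    rw [h3]
    refine mul_mem (Subgroup.closure_mono ?_ hc1) ?_
    · rw [Finset.coe_union]; exact Set.subset_union_left
    · rw [← hT] at h2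
      refine Subgroup.closure_mono ?_ h2
      rw [Finset.coe_union]; exact Set.subset_union_right

instance inn_normal (ι : Type) : (Inn ι).Normal := by
  refine ⟨?_⟩
  rintro _ ⟨x, rfl⟩ g
  refine ⟨g x, ?_⟩
  apply MulEquiv.ext
  intro y
  simp only [MulAut.conj_apply, MulAut.mul_apply, map_mul, map_inv, MulAut.apply_inv_self]

theorem inn_fg (n : ℕ) : (Inn (Fin n)).FG := by
  rw [← Group.fg_iff_subgroup_fg]
  exact Group.fg_range _

/-- subgroups of `A` containing the inner automorphisms are finitely generated -/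
theorem T_FGI : S_FGI := by
  intro n A B hA hB hBA
  obtain ⟨_, h2, h3⟩ := hA
  exact ⟨hB, ext_fg (inn_fg n) h2 hB hBA h3, fun a ha b hb => h3 a (hBA ha) b (hBA hb)⟩

end Pool.Agent.H603.AB
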