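import Pool.Agent.H751.AB.Stm3

/-!
# AB IRR: commutative groups acting on a rationally irreducible lattice (helper895 for helper751)
-/

set_option autoImplicit false

namespace Pool.Agent.H895.AB

open Pool.Agent.H751.AB NumberField
open scoped nonZeroDivisors

section

variable {G M : Type} [CommGroup G] [AddCommGroup M]

/-- the commutant of the action -/
abbrev Zc (ρ : G →* AddMonoid.End M) : Subring (AddMonoid.End M) :=
  Subring.centralizer (Set.range ρ)

/-- the bicommutant of the action, a commutative ring -/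
abbrev Cc (ρ : G →* AddMonoid.End M) : Subring (Zc ρ) := Subring.center (Zc ρ)

variable {ρ : G →* AddMonoid.End M}

/-- the action of the bicommutant -/
def toE (ρ : G →* AddMonoid.End M) : Cc ρ →+* AddMonoid.End M := (Zc ρ).subtype.comp (Cc ρ).subtype

theorem toE_injective : Function.Injective (toE ρ) :=
  (Subtype.val_injective).comp Subtype.val_injective

theorem mem_Zc {c : AddMonoid.End M} : c ∈ Zc ρ ↔ ∀ g x, ρ g (c x) = c (ρ g x) := by
  rw [Subring.mem_centralizer_iff]
  constructor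
  · intro h g x
    exact DFunLike.congr_fun (h (ρ g) ⟨g, rfl⟩) x
  · rintro h _ ⟨g, rfl⟩
    exact AddMonoidHom.ext (h g)

theorem toE_comm (c : Cc ρ) (g : G) (x : M) : ρ g (toE ρ c x) = toE ρ c (ρ g x) :=
  mem_Zc.1 (c : Zc ρ).2 g x

theorem rho_comm (g h : G) (x : M) : ρ g (ρ h x) = ρ h (ρ g x) := by
  have h1 : ρ g * ρ h = ρ h * ρ g := by rw [← map_mul, ← map_mul, mul_comm]
  exact DFunLike.congr_fun h1 x

/-- an endomorphism that commutes with everything that commutes with `G` -/
def mkC (c : AddMonoid.End M) (h1 : ∀ g x, ρ g (c x) = c (ρ g x))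
    (h2 : ∀ z : Zc ρ, ∀ x, (z : AddMonoid.End M) (c x) = c ((z : AddMonoid.End M) x)) : Cc ρ :=
  ⟨⟨c, mem_Zc.2 h1⟩, Subring.mem_center_iff.2 fun z => Subtype.ext (AddMonoidHom.ext (h2 z))⟩

/-- the action of `G`, in the bicommutant -/
def rC (ρ : G →* AddMonoid.End M) : G →* Cc ρ where
  toFun g := mkC (ρ g) (fun h x => rho_comm h g x) fun z x => (mem_Zc.1 z.2 g x).symm
  map_one' := toE_injective (map_one ρ)
  map_mul' g h := toE_injective (map_mul ρ g h)

theorem toE_rC (g : G) : toE ρ (rC ρ g) = ρ g := rfl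

variable [Module.Free ℤ M] [Module.Finite ℤ M]

omit [Module.Finite ℤ M] in
theorem tf {N : ℕ} (hN : 0 < N) {u : M} (h : N • u = 0) : u = 0 := by
  rw [← Nat.cast_smul_eq_nsmul ℤ] at h
  rcases smul_eq_zero.1 h with h1 | h1
  · exact absurd (Nat.cast_eq_zero.1 h1) hN.ne'
  · exact h1

omit [Module.Finite ℤ M] in
theorem tf_inj {N : ℕ} (hN : 0 < N) {u v : M} (h : N • u = N • v) : u = v := by
  have h1 : N • (u - v) = 0 := by rw [smul_sub, h, sub_self]
  exact sub_eq_zero.1 (tf hN h1)

omit [Module.Finite ℤ M] in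
theorem inj_of_comm
    (hirr : ∀ S : AddSubgroup M, (∀ g : G, ∀ x ∈ S, ρ g x ∈ S) →
      (∀ (k : ℤ) (x : M), k ≠ 0 → k • x ∈ S → x ∈ S) → S = ⊥ ∨ S = ⊤)
    {c : Cc ρ} (hc : c ≠ 0) {x : M} (hx : toE ρ c x = 0) : x = 0 := by
  have hst : ∀ g : G, ∀ y ∈ (toE ρ c : M →+ M).ker, ρ g y ∈ (toE ρ c : M →+ M).ker := by
    intro g y hy
    have h1 : toE ρ c y = 0 := hy
    show toE ρ c (ρ g y) = 0
    rw [← toE_comm, h1, map_zero]
  have hpu : ∀ (k : ℤ) (y : M), k ≠ 0 → k • y ∈ (toE ρ c : M →+ M).ker →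
      y ∈ (toE ρ c : M →+ M).ker := by
    intro k y hk hy
    have h1 : toE ρ c (k • y) = 0 := hy
    rw [map_zsmul] at h1
    rcases smul_eq_zero.1 h1 with h2 | h2
    · exact absurd h2 hk
    · exact h2
  rcases hirr _ hst hpu with h | h
  · have h1 : x ∈ (toE ρ c : M →+ M).ker := hx
    rw [h] at h1
    exact h1
  · exfalso
    apply hc
    apply toE_injective
    rw [map_zero]
    refine AddMonoidHom.ext fun y => ?_
    have h1 : y ∈ (toE ρ c : M →+ M).ker := by
      rw [h]
      trivial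
    exact h1

set_option linter.unusedSectionVars false in
theorem finite_C : Module.Finite ℤ (Cc ρ) := by
  let f : Cc ρ →ₗ[ℤ] (M →ₗ[ℤ] M) := AddMonoidHom.toIntLinearMap
    { toFun := fun c => (toE ρ c : M →+ M).toIntLinearMap
      map_zero' := by
        ext x
        rfl
      map_add' := fun c c' => by
        ext x
        rfl }
  refine Module.Finite.of_injective f fun c c' h => toE_injective (AddMonoidHom.ext fun x => ?_)
  exact LinearMap.congr_fun h x

end

theorem T_IRR (h1 : S_UNIT) : S_IRR := by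
  intro G M _ _ _ _ ρ hirr D hD hker
  rcases subsingleton_or_nontrivial M with hM | hM
  · refine ⟨1, one_pos, fun g _ => hker ?_⟩
    rw [MonoidHom.mem_ker]
    exact AddMonoidHom.ext fun x => Subsingleton.elim _ _
  obtain ⟨x₀, hx₀⟩ := exists_ne (0 : M)
  have hnt : Nontrivial (Cc ρ) := ⟨⟨1, 0, fun h => hx₀ (by
    have h2 : toE ρ 1 x₀ = toE ρ 0 x₀ := by rw [h]
    rw [map_one, map_zero] at h2
    exact h2)⟩⟩
  have hzd : NoZeroDivisors (Cc ρ) := ⟨fun {a b} hab => by
    by_cases ha : a = 0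
    · exact Or.inl ha
    · right
      apply toE_injective
      rw [map_zero]
      refine AddMonoidHom.ext fun x => ?_
      apply inj_of_comm hirr ha
      have h2 : toE ρ (a * b) x = 0 := by
        rw [hab, map_zero]
        rfl
      rw [map_mul] at h2
      exact h2⟩
  have hdom : IsDomain (Cc ρ) := NoZeroDivisors.to_isDomain _
  have hfin : Module.Finite ℤ (Cc ρ) := finite_C
  have hchar : CharZero (Cc ρ) := charZero_of_inj_zero fun k hk => by
    by_contra hk0
    have h2 : toE ρ (k : Cc ρ) x₀ = 0 := by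
      rw [hk, map_zero]
      rfl
    rw [map_natCast, AddMonoid.End.natCast_apply] at h2
    exact hx₀ (tf (Nat.pos_of_ne_zero hk0) h2)
  let K := FractionRing (Cc ρ)
  let _ : Algebra ℤ K := Ring.toIntAlgebra K
  have : NumberField K := { to_finiteDimensional := Module.Finite.of_isLocalization ℤ (Cc ρ) ℤ⁰ }
  have hint : Algebra.IsIntegral ℤ (Cc ρ) := Algebra.IsIntegral.of_finite ℤ _
  let j : Cc ρ →ₐ[ℤ] 𝓞 K := IsIntegralClosure.lift ℤ (𝓞 K) K
  have hj : Function.Injective j := by
    intro a b hab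
    have h2 : algebraMap (𝓞 K) K (j a) = algebraMap (𝓞 K) K (j b) := by rw [hab]
    rw [IsIntegralClosure.algebraMap_lift, IsIntegralClosure.algebraMap_lift] at h2
    exact IsFractionRing.injective (Cc ρ) K h2
  let f : G →* (𝓞 K)ˣ := MonoidHom.toHomUnits (((j : Cc ρ →+* 𝓞 K) : Cc ρ →* 𝓞 K).comp (rC ρ))
  have hf : ∀ g, ((f g : (𝓞 K)ˣ) : 𝓞 K) = j (rC ρ g) := fun g => rfl
  have hfker : ∀ g, f g = 1 → g ∈ ρ.ker := by
    intro g hg
    have h2 : j (rC ρ g) = j 1 := by rw [← hf, hg, Units.val_one, map_one]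
    have h3 := hj h2
    rw [MonoidHom.mem_ker, ← toE_rC, h3, map_one]
  have hkerD : f.ker ≤ D := fun g hg => hker (hfker g hg)
  have hrel : (D.map f).relIndex f.range ≠ 0 := by
    rw [MonoidHom.range_eq_map, ← Subgroup.relIndex_comap, Subgroup.comap_map_eq_self hkerD,
      Subgroup.relIndex_top_right]
    exact hD
  obtain ⟨N, hN, h2⟩ := h1 K f.range (D.map f) hrel
  refine ⟨N, hN, fun g hg => ?_⟩
  choose y hy using hg
  let b : AddMonoid.End M :=
    { toFun := y
      map_zero' := by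
        apply tf hN
        have h3 := hy 0
        rw [map_zero, zero_add] at h3
        exact h3.symm
      map_add' := fun u v => by
        apply tf_inj hN
        have h3 := hy (u + v)
        rw [map_add, hy u, hy v] at h3
        have h4 : u + N • y u + (v + N • y v) = u + v + (N • y u + N • y v) := by abel
        rw [h4] at h3
        rw [smul_add]
        exact (add_left_cancel h3).symm }
  have hb : ∀ x, ρ g x = x + N • b x := hy
  have hcomm : ∀ z : AddMonoid.End M, (∀ x, z (ρ g x) = ρ g (z x)) → ∀ x, z (b x) = b (z x) := by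
    intro z hz x
    apply tf_inj hN
    have h3 := hz x
    rw [hb x, hb (z x), map_add, map_nsmul] at h3
    exact add_left_cancel h3
  let bC : Cc ρ := mkC b (fun h x => hcomm (ρ h) (fun x => rho_comm h g x) x)
    fun z x => hcomm z (fun x => (mem_Zc.1 z.2 g x).symm) x
  have hrC : rC ρ g = 1 + (N : Cc ρ) * bC := by
    apply toE_injective
    refine AddMonoidHom.ext fun x => ?_
    rw [toE_rC, map_add, map_one, map_mul, map_natCast]
    exact hb x
  have h3 : (N : 𝓞 K) ∣ ((f g : (𝓞 K)ˣ) : 𝓞 K) - 1 := by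
    refine ⟨j bC, ?_⟩
    rw [hf, hrC, map_add, map_one, map_mul, map_natCast]
    ring
  obtain ⟨d, hd, hdg⟩ := h2 (f g) ⟨g, rfl⟩ h3
  have h4 : g * d⁻¹ ∈ ρ.ker := by
    apply hfker
    rw [map_mul, map_inv, hdg, mul_inv_cancel]
  have h5 := D.mul_mem (hker h4) hd
  rwa [inv_mul_cancel_right] at h5

end Pool.Agent.H895.AB
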