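import Pool.Agent.H751.AB.Stm3
import Pool.Graph.R_seed8.W401.Cheb.Main

/-!
# AB LOC: units which are not powers are not powers modulo some prime
-/

set_option autoImplicit false

namespace Pool.Agent.H224.AB

open NumberField Pool.Agent.H751.AB
open Pool.Agent.W401.Cheb

/-- the conclusion: a number field, Galois over the rationals, with the required automorphism -/
def Concl (K : Type) [Field K] [NumberField K] (n : ℕ) (x : K) : Prop :=
  ∃ (L : Type) (_ : Field L) (_ : NumberField L) (_ : IsGalois ℚ L) (ι : K →+* L) (ζ y : L)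
    (σ : Gal(L/ℚ)), IsPrimitiveRoot ζ n ∧ y ^ n = ι x ∧ (∀ k, σ (ι k) = ι k) ∧ σ ζ = ζ ∧ σ y ≠ y

theorem concl_aux (K A : Type) [Field K] [NumberField K] [Field A] [Algebra K A] [IsAlgClosed A]
    [Algebra.IsAlgebraic K A] [CharZero A] (n : ℕ) (hn : n ≠ 0) (x : K)
    (hx : ¬ ∃ y : CyclotomicField n K, y ^ n = algebraMap K (CyclotomicField n K) x) :
    Concl K n x := by
  classical
  have hn0 : NeZero n := ⟨hn⟩
  have hnA : NeZero ((n : ℕ) : A) := NeZero.charZero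
  obtain ⟨ζ, hζ⟩ : ∃ ζ : A, IsPrimitiveRoot ζ n := by
    obtain ⟨ζ, hζ⟩ := IsAlgClosed.exists_root (Polynomial.cyclotomic n A)
      (Polynomial.degree_cyclotomic_pos n A (Nat.pos_of_ne_zero hn)).ne'
    exact ⟨ζ, Polynomial.isRoot_cyclotomic_iff.1 hζ⟩
  obtain ⟨y, hy⟩ := IsAlgClosed.exists_pow_nat_eq (algebraMap K A x) (Nat.pos_of_ne_zero hn)
  set E : IntermediateField K A := IntermediateField.adjoin K {ζ} with hE
  have hyE : y ∉ E := by
    intro h
    have h1 : IsCyclotomicExtension {n} K E :=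
      hζ.intermediateField_adjoin_isCyclotomicExtension K
    let e : E ≃ₐ[K] CyclotomicField n K := IsCyclotomicExtension.algEquiv {n} K E _
    apply hx
    refine ⟨e ⟨y, h⟩, ?_⟩
    rw [← map_pow, ← e.commutes]
    congr 1
    exact Subtype.ext hy
  set F : IntermediateField K A := IntermediateField.adjoin K {ζ, y} with hF
  have hfin : FiniteDimensional K F := IntermediateField.finiteDimensional_adjoin
    (fun a _ => Algebra.IsIntegral.isIntegral a)
  set F' : IntermediateField ℚ A := F.restrictScalars ℚ with hF'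
  have hfin' : FiniteDimensional ℚ F' := by
    have : FiniteDimensional ℚ F := Module.Finite.trans K F
    exact this
  have halg : Algebra.IsAlgebraic ℚ A := Algebra.IsAlgebraic.trans ℚ K A
  have hclo : IsAlgClosure ℚ A := ⟨inferInstance, halg⟩
  have hnor : Normal ℚ A := IsAlgClosure.normal ℚ A
  set M : IntermediateField ℚ A := IntermediateField.normalClosure ℚ F' A with hM
  have hFM : F' ≤ M := F'.le_normalClosure
  have hMfin : FiniteDimensional ℚ M := normalClosure.is_finiteDimensional ℚ F' A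
  have hMnor : Normal ℚ M := normalClosure.normal ℚ F' A
  have hMgal : IsGalois ℚ M := IsGalois.mk
  have hMnf : NumberField M := @NumberField.mk _ _ inferInstance hMfin
  have hKM : ∀ k : K, algebraMap K A k ∈ M := fun k => hFM (F.algebraMap_mem k)
  have hζM : ζ ∈ M := hFM (show ζ ∈ F from IntermediateField.subset_adjoin K _ (by simp))
  have hyM : y ∈ M := hFM (show y ∈ F from IntermediateField.subset_adjoin K _ (by simp))
  set L0 : IntermediateField ℚ M := (E.restrictScalars ℚ).comap M.val with hL0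
  have hyL : (⟨y, hyM⟩ : M) ∉ IntermediateField.fixedField L0.fixingSubgroup := by
    rw [IsGalois.fixedField_fixingSubgroup]
    exact hyE
  rw [IntermediateField.mem_fixedField_iff] at hyL
  push Not at hyL
  obtain ⟨σ, hσ, hne⟩ := hyL
  rw [IntermediateField.mem_fixingSubgroup_iff] at hσ
  refine ⟨M, inferInstance, hMnf, hMgal, (algebraMap K A).codRestrict M hKM, ⟨ζ, hζM⟩, ⟨y, hyM⟩,
    σ, ?_, Subtype.ext hy, fun k => ?_, ?_, hne⟩
  · exact IsPrimitiveRoot.of_map_of_injective (f := M.val) (by exact hζ) M.val.injective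
  · exact hσ _ (show algebraMap K A k ∈ E from E.algebraMap_mem k)
  · exact hσ _ (show ζ ∈ E from IntermediateField.mem_adjoin_simple_self K ζ)

theorem concl (K : Type) [Field K] [NumberField K] (n : ℕ) (hn : n ≠ 0) (x : K)
    (hx : ¬ ∃ y : CyclotomicField n K, y ^ n = algebraMap K (CyclotomicField n K) x) :
    Concl K n x := by
  have h0 : CharZero (AlgebraicClosure K) :=
    charZero_of_injective_algebraMap (algebraMap K (AlgebraicClosure K)).injective
  exact concl_aux K (AlgebraicClosure K) n hn x hx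

/-- a homomorphism with given Frobenius (copied from the library module TH888.B1.Roots) -/
theorem exists_hom {L : Type} [Field L] [NumberField L] (g : Gal(L/ℚ)) {p : ℕ} (hp : p.Prime)
    (h : xp L g p ≠ 0) : haveI : Fact p.Prime := ⟨hp⟩
    ∃ φ : 𝓞 L →+* AlgebraicClosure (ZMod p), ∀ x : 𝓞 L, φ (g • x) = φ x ^ p := by
  have : Fact p.Prime := ⟨hp⟩
  unfold xp at h
  rw [dif_pos hp] at h
  have h1 : Nonempty {φ : 𝓞 L →+* AlgebraicClosure (ZMod p) // HasFrob p φ g} := by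
    by_contra hcon
    rw [not_nonempty_iff] at hcon
    exact h Nat.card_of_isEmpty
  obtain ⟨φ, hφ⟩ := h1
  exact ⟨φ, hφ⟩

/-- the argument at one prime -/
theorem at_prime (K L : Type) [Field K] [NumberField K] [Field L] [NumberField L] (n l : ℕ)
    (hn : n ≠ 0) (_hl : l.Prime) (hln : ¬ l ∣ n) (x v : (𝓞 K)ˣ) (ι : K →+* L) (ζ y : L)
    (σ : Gal(L/ℚ)) (hζ : IsPrimitiveRoot ζ n) (hy : y ^ n = ι ((x : 𝓞 K) : K))
    (hσι : ∀ k, σ (ι k) = ι k) (hσζ : σ ζ = ζ) (hσy : σ y ≠ y)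
    (k : Type) [Field k] [CharP k l] (φ : 𝓞 L →+* k) (hφ : ∀ z : 𝓞 L, φ (σ • z) = φ z ^ l)
    (hdiv : (l : 𝓞 K) ∣ ((x * v ^ n : (𝓞 K)ˣ) : 𝓞 K) - 1) : False := by
  have hn0 : NeZero n := ⟨hn⟩
  have hpos := Nat.pos_of_ne_zero hn
  have hnk : NeZero ((n : ℕ) : k) := ⟨by
    rw [Ne, CharP.cast_eq_zero_iff k l]
    exact hln⟩
  set j : 𝓞 K →+* 𝓞 L := RingOfIntegers.mapRingHom ι with hj
  have hjc : ∀ a : 𝓞 K, ((j a : 𝓞 L) : L) = ι (a : K) := fun a => rfl
  -- the integers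
  have hζi : IsIntegral ℤ ζ := hζ.isIntegral hpos
  have hyi : IsIntegral ℤ y := by
    refine IsIntegral.of_pow hpos ?_
    rw [hy, ← hjc]
    exact (j (x : 𝓞 K)).2
  set Zt : 𝓞 L := ⟨ζ, hζi⟩ with hZt
  set Yt : 𝓞 L := ⟨y, hyi⟩ with hYt
  set W : 𝓞 L := Yt * j (v : 𝓞 K) with hW
  have hYn : Yt ^ n = j (x : 𝓞 K) := by
    apply RingOfIntegers.ext
    rw [hjc, ← hy]
    rfl
  have hWn : W ^ n = j ((x * v ^ n : (𝓞 K)ˣ) : 𝓞 K) := by
    rw [hW, mul_pow, hYn, Units.val_mul, Units.val_pow_eq_pow_val, map_mul, map_pow]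
  have hφl : φ ((l : ℕ) : 𝓞 L) = 0 := by
    rw [map_natCast, CharP.cast_eq_zero]
  have hφWn : φ W ^ n = 1 := by
    rw [← map_pow, hWn]
    obtain ⟨c, hc⟩ := hdiv
    have h1 : ((x * v ^ n : (𝓞 K)ˣ) : 𝓞 K) = 1 + (l : 𝓞 K) * c := by
      rw [← hc]
      ring
    rw [h1, map_add, map_mul, map_add, map_mul, map_one, map_one, map_natCast, hφl, zero_mul,
      add_zero]
  have hφW0 : φ W ≠ 0 := by
    intro h
    rw [h, zero_pow hn] at hφWn
    exact zero_ne_one hφWn
  have hZprim : IsPrimitiveRoot Zt n :=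
    IsPrimitiveRoot.of_map_of_injective (f := algebraMap (𝓞 L) L) (by exact hζ)
      RingOfIntegers.coe_injective
  have hφZ : IsPrimitiveRoot (φ Zt) n := by
    rw [← Polynomial.isRoot_cyclotomic_iff (R := k)]
    have h1 := (hZprim.isRoot_cyclotomic hpos).map (f := φ)
    rwa [Polynomial.map_cyclotomic] at h1
  obtain ⟨i, -, hi⟩ := hφZ.eq_pow_of_pow_eq_one hφWn
  have hsZ : σ • Zt = Zt := RingOfIntegers.ext hσζ
  have hZl : φ Zt ^ l = φ Zt := by
    rw [← hφ, hsZ]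
  have hWl : φ W ^ l = φ W := by
    rw [← hi, ← pow_mul, mul_comm, pow_mul, hZl]
  -- the conjugate of `W`
  have hsW : (σ • W) ^ n = W ^ n := by
    apply RingOfIntegers.ext
    have e1 : (((σ • W) ^ n : 𝓞 L) : L) = σ ((W ^ n : 𝓞 L) : L) := by
      have : ((σ • W : 𝓞 L) : L) = σ (W : L) := rfl
      rw [RingOfIntegers.coe_eq_algebraMap, map_pow, ← RingOfIntegers.coe_eq_algebraMap, this,
        ← map_pow]
      rfl
    rw [e1, hWn, hjc, hσι]
  have hy0 : y ≠ 0 := by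
    rintro rfl
    exact hσy (map_zero σ)
  have hv0 : ι ((v : 𝓞 K) : K) ≠ 0 := by
    rw [Ne, map_eq_zero]
    intro h
    exact v.ne_zero (RingOfIntegers.ext h)
  have hW0 : (W : L) ≠ 0 := mul_ne_zero hy0 hv0
  have hqn : (((σ • W : 𝓞 L) : L) / (W : L)) ^ n = 1 := by
    rw [div_pow, div_eq_one_iff_eq (pow_ne_zero n hW0)]
    have := congrArg (fun z : 𝓞 L => (z : L)) hsW
    simpa using this
  obtain ⟨m, -, hm⟩ := hζ.eq_pow_of_pow_eq_one hqn
  have hσW : σ • W = Zt ^ m * W := by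
    apply RingOfIntegers.ext
    rw [eq_div_iff hW0] at hm
    rw [← hm]
    rfl
  have h1 : φ Zt ^ m = 1 := by
    have h2 : φ (σ • W) = φ W := by rw [hφ, hWl]
    rw [hσW, map_mul, map_pow] at h2
    exact mul_right_cancel₀ hφW0 (by rw [h2, one_mul])
  have h3 : n ∣ m := hφZ.dvd_of_pow_eq_one m h1
  have h4 : ζ ^ m = 1 := (hζ.pow_eq_one_iff_dvd m).2 h3
  rw [h4] at hm
  have h5 : ((σ • W : 𝓞 L) : L) = (W : L) := (div_eq_one_iff_eq hW0).1 hm.symm
  apply hσy
  have h6 : σ y * ι ((v : 𝓞 K) : K) = y * ι ((v : 𝓞 K) : K) := by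
    have e1 : ((σ • W : 𝓞 L) : L) = σ (y * ι ((v : 𝓞 K) : K)) := rfl
    rw [e1, map_mul, hσι] at h5
    exact h5
  exact mul_right_cancel₀ hv0 h6

theorem T_LOC : S_LOC := by
  intro K _ _ p J hp x hx
  have hn : p ^ J ≠ 0 := pow_ne_zero J hp.ne_zero
  obtain ⟨L, hL1, hL2, hL3, ι, ζ, y, σ, h1, h2, h3, h4, h5⟩ := concl K (p ^ J) hn _ hx
  obtain ⟨l, ⟨hl, hxp⟩, hlp⟩ : ∃ l, (l.Prime ∧ xp L σ l ≠ 0) ∧ p < l := by
    obtain ⟨l, hl, hlt⟩ := (infinite_frob L σ).exists_gt p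
    exact ⟨l, hl, hlt⟩
  obtain ⟨φ, hφ⟩ := exists_hom σ hl hxp
  have hfact : Fact l.Prime := ⟨hl⟩
  have hchar : CharP (AlgebraicClosure (ZMod l)) l := inferInstance
  refine ⟨l, hl.pos, fun v hdiv => ?_⟩
  refine at_prime K L (p ^ J) l hn hl ?_ x v ι ζ y σ h1 h2 h3 h4 h5
    (AlgebraicClosure (ZMod l)) φ hφ hdiv
  intro hd
  have := (Nat.prime_dvd_prime_iff_eq hl hp).1 (hl.dvd_of_dvd_pow hd)
  omega

end Pool.Agent.H224.AB
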