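import Pool.Agent.H751.AB.Stm3

/-! # AB POW: units which are `p ^ J`-th powers in `K(ζ_{p^J})` -/

set_option autoImplicit false

namespace Pool.Agent.H236.AB

open Pool.Agent.H751.AB NumberField

/-- a number field has no primitive roots of unity of large `p`-power order -/
lemma no_root (K : Type) [Field K] [NumberField K] (p : ℕ) (hp : p.Prime) :
    ∃ c : ℕ, ¬ ∃ η : K, IsPrimitiveRoot η (p ^ (c + 1)) := by
  refine ⟨NumberField.Units.torsionOrder K, ?_⟩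
  rintro ⟨η, hη⟩
  have : NeZero (p ^ (NumberField.Units.torsionOrder K + 1)) := ⟨(pow_pos hp.pos _).ne'⟩
  have h1 := NumberField.Units.dvd_torsionOrder_of_isPrimitiveRoot hη
  have h2 := Nat.le_of_dvd (NumberField.Units.torsionOrder_pos K) h1
  have h3 : NumberField.Units.torsionOrder K + 1 <
      p ^ (NumberField.Units.torsionOrder K + 1) := Nat.lt_pow_self hp.one_lt
  omega

/-- the last steps, in a commutative group -/
lemma group_part {G : Type} [CommGroup G] (E : Subgroup G) (hE : ∀ u ∈ E, ∀ n : ℕ, n ≠ 0 → u ^ n = 1 → u = 1)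
    (p k j J u : ℕ) (hp : p.Prime) (hu : ¬ p ∣ u) (hJ : j + k ≤ J) (x v₀ : G) (hx : x ∈ E)
    (hv : v₀ ∈ E) (h : x ^ (p ^ j * u) = v₀ ^ (p ^ J)) : ∃ v ∈ E, x = v ^ (p ^ k) := by
  obtain ⟨v₁, hv₁⟩ : ∃ v₁, v₁ = v₀ ^ (p ^ (J - j - k)) := ⟨_, rfl⟩
  have hv₁E : v₁ ∈ E := by
    rw [hv₁]
    exact E.pow_mem hv _
  have e1 : v₀ ^ (p ^ J) = (v₁ ^ (p ^ k)) ^ (p ^ j) := by
    rw [hv₁, ← pow_mul, ← pow_mul, ← pow_add, ← pow_add]
    congr 2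
    omega
  have e2 : x ^ u = v₁ ^ (p ^ k) := by
    have e3 : (x ^ u * (v₁ ^ (p ^ k))⁻¹) ^ (p ^ j) = 1 := by
      rw [mul_pow, inv_pow, ← e1, ← h, ← pow_mul, mul_comm u, mul_inv_cancel]
    have e4 := hE _ (E.mul_mem (E.pow_mem hx _) (E.inv_mem (E.pow_mem hv₁E _))) _
      (pow_pos hp.pos j).ne' e3
    exact mul_inv_eq_one.1 e4
  have hcop : Nat.Coprime u (p ^ k) := by
    apply Nat.Coprime.pow_right
    exact (Nat.Coprime.symm ((Nat.Prime.coprime_iff_not_dvd hp).2 hu))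
  have hbez := Nat.gcd_eq_gcd_ab u (p ^ k)
  rw [Nat.Coprime] at hcop
  rw [hcop] at hbez
  refine ⟨v₁ ^ (Nat.gcdA u (p ^ k)) * x ^ (Nat.gcdB u (p ^ k)),
    E.mul_mem (E.zpow_mem hv₁E _) (E.zpow_mem hx _), ?_⟩
  have e5 : x ^ (((u : ℕ) : ℤ) * Nat.gcdA u (p ^ k) + ((p ^ k : ℕ) : ℤ) * Nat.gcdB u (p ^ k)) = x := by
    rw [← hbez]
    simp
  rw [mul_pow]
  calc x = x ^ (((u : ℕ) : ℤ) * Nat.gcdA u (p ^ k) + ((p ^ k : ℕ) : ℤ) * Nat.gcdB u (p ^ k)) := e5.symm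
    _ = (x ^ u) ^ (Nat.gcdA u (p ^ k)) * (x ^ (Nat.gcdB u (p ^ k))) ^ (p ^ k) := by
      rw [zpow_add, zpow_mul, zpow_natCast, mul_comm ((p ^ k : ℕ) : ℤ), zpow_mul, zpow_natCast]
    _ = (v₁ ^ (Nat.gcdA u (p ^ k))) ^ (p ^ k) * (x ^ (Nat.gcdB u (p ^ k))) ^ (p ^ k) := by
      rw [e2, ← zpow_natCast v₁, ← zpow_mul, mul_comm ((p ^ k : ℕ) : ℤ), zpow_mul, zpow_natCast]

theorem T_POW (h1 : S_DESC) (h2 : S_TORS) : S_POW := by
  intro K _ _ p k hp E hE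
  obtain ⟨c, hc⟩ := no_root K p hp
  obtain ⟨s, hs0, hs⟩ := h2 (Additive (𝓞 K)ˣ) (Subgroup.toAddSubgroup E)
  have hs' : ∀ (z : (𝓞 K)ˣ) (m : ℕ), m ≠ 0 → z ^ m ∈ E → z ^ s ∈ E := by
    intro z m hm hz
    have h3 := hs (Additive.ofMul z) (m : ℤ) (by exact_mod_cast hm) (by
      rw [natCast_zsmul, ← ofMul_pow]
      exact hz)
    rw [← ofMul_pow] at h3
    exact h3
  obtain ⟨j₂, u₂, hu₂, hsj⟩ := Nat.exists_eq_pow_mul_and_not_dvd hs0.ne' p hp.one_lt.ne'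
  refine ⟨c + 1 + j₂ + k, by omega, fun x hx hy => ?_⟩
  have hx0 : ((x : 𝓞 K) : K) ≠ 0 := by
    have : (x : 𝓞 K) ≠ 0 := x.ne_zero
    exact fun h => this (by exact_mod_cast h)
  obtain ⟨a, z, ha, hca, hz⟩ := h1 K p c (c + 1 + j₂ + k) hp hc (by omega) _ hx0 hy
  have hJ0 : p ^ (c + 1 + j₂ + k) ≠ 0 := (pow_pos hp.pos _).ne'
  -- `z` is a unit
  have hzi : IsIntegral ℤ z := by
    apply IsIntegral.of_pow (Nat.pos_of_ne_zero hJ0)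
    rw [hz]
    exact (RingOfIntegers.isIntegral_coe (x : 𝓞 K)).pow a
  obtain ⟨Z, hZ⟩ : ∃ Z : 𝓞 K, (Z : K) = z := ⟨⟨z, hzi⟩, rfl⟩
  have hZp : Z ^ (p ^ (c + 1 + j₂ + k)) = (x : 𝓞 K) ^ a := by
    apply NumberField.RingOfIntegers.coe_injective
    have e1 : algebraMap (𝓞 K) K (Z ^ (p ^ (c + 1 + j₂ + k))) =
        (algebraMap (𝓞 K) K Z) ^ (p ^ (c + 1 + j₂ + k)) := map_pow _ _ _
    have e2 : algebraMap (𝓞 K) K ((x : 𝓞 K) ^ a) = (algebraMap (𝓞 K) K (x : 𝓞 K)) ^ a :=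
      map_pow _ _ _
    refine e1.trans (Eq.trans ?_ e2.symm)
    rw [← hZ] at hz
    exact hz
  have hZu : IsUnit Z := by
    rw [← isUnit_pow_iff hJ0, hZp]
    exact (x.isUnit).pow a
  obtain ⟨w, hw⟩ := hZu
  have hwp : w ^ (p ^ (c + 1 + j₂ + k)) = x ^ a := by
    apply Units.ext
    rw [Units.val_pow_eq_pow_val, Units.val_pow_eq_pow_val, hw]
    exact hZp
  have hv₀ : w ^ s ∈ E := hs' w _ hJ0 (by
    rw [hwp]
    exact E.pow_mem hx a)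
  obtain ⟨j₁, u₁, hu₁, haj⟩ := Nat.exists_eq_pow_mul_and_not_dvd ha.ne' p hp.one_lt.ne'
  have hj₁ : j₁ ≤ c := by
    by_contra hlt
    apply hca
    rw [haj]
    exact Dvd.dvd.mul_right (pow_dvd_pow p (by omega)) u₁
  refine group_part E hE p k (j₁ + j₂) (c + 1 + j₂ + k) (u₁ * u₂) hp ?_ (by omega) x (w ^ s) hx hv₀ ?_
  · intro h
    rcases (Nat.Prime.dvd_mul hp).1 h with h | h
    · exact hu₁ h
    · exact hu₂ h
  · have e1 : p ^ (j₁ + j₂) * (u₁ * u₂) = a * s := by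
      rw [haj, hsj, pow_add]
      ring
    rw [e1, pow_mul, ← hwp, ← pow_mul, ← pow_mul, mul_comm s]

end Pool.Agent.H236.AB
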