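import Pool.Agent.H751.AB.Stm3

/-! Commutative groups acting on a reducible lattice: reduction to smaller rank (task AB RED). -/

set_option autoImplicit false

namespace Pool.Agent.H163.AB

open Pool.Agent.H751.AB

section Gam

variable {G M : Type} [CommGroup G] [AddCommGroup M] (ρ : G →* AddMonoid.End M)

theorem rho_mul (g g' : G) (x : M) : ρ (g * g') x = ρ g (ρ g' x) := by
  rw [map_mul]
  rfl

theorem rho_one (x : M) : ρ 1 x = x := by
  rw [map_one]
  rfl

theorem rho_inv_l (g : G) (x : M) : ρ g⁻¹ (ρ g x) = x := by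
  rw [← rho_mul, inv_mul_cancel, rho_one]

theorem rho_inv_r (g : G) (x : M) : ρ g (ρ g⁻¹ x) = x := by
  rw [← rho_mul, mul_inv_cancel, rho_one]

/-- congruence subgroup -/
def Gam (N : ℕ) : Subgroup G where
  carrier := {g | ∀ x : M, ∃ y : M, ρ g x = x + N • y}
  one_mem' := fun x => ⟨0, by rw [rho_one, smul_zero, add_zero]⟩
  mul_mem' := by
    intro g g' hg hg' x
    obtain ⟨y, hy⟩ := hg' x
    obtain ⟨z, hz⟩ := hg x
    refine ⟨z + ρ g y, ?_⟩
    rw [rho_mul, hy, map_add, map_nsmul, hz, smul_add, add_assoc]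
  inv_mem' := by
    intro g hg x
    obtain ⟨y, hy⟩ := hg x
    refine ⟨-(ρ g⁻¹ y), ?_⟩
    have h := congrArg (ρ g⁻¹) hy
    rw [rho_inv_l, map_add, map_nsmul] at h
    rw [smul_neg]
    nth_rewrite 2 [h]
    abel

theorem mem_Gam {N : ℕ} {g : G} : g ∈ Gam ρ N ↔ ∀ x : M, ∃ y : M, ρ g x = x + N • y := Iff.rfl

theorem Gam_mono {N N' : ℕ} (h : N ∣ N') : Gam ρ N' ≤ Gam ρ N := by
  obtain ⟨k, rfl⟩ := h
  intro g hg x
  obtain ⟨y, hy⟩ := hg x
  exact ⟨k • y, by rw [hy, mul_smul]⟩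

theorem finite_quot [Module.Finite ℤ M] (N : ℕ) (hN : 0 < N) :
    Finite (M ⧸ (nsmulAddMonoidHom (α := M) N).range) := by
  have : Module.Finite ℤ (M ⧸ (nsmulAddMonoidHom (α := M) N).range) :=
    inferInstanceAs (Module.Finite ℤ (M ⧸ (AddSubgroup.toIntSubmodule (nsmulAddMonoidHom (α := M) N).range)))
  apply Module.finite_of_fg_torsion
  intro q
  refine ⟨⟨(N : ℤ), mem_nonZeroDivisors_of_ne_zero (by exact_mod_cast hN.ne')⟩, ?_⟩
  show (N : ℤ) • q = 0
  induction q using QuotientAddGroup.induction_on with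
  | H x =>
    rw [natCast_zsmul, ← QuotientAddGroup.mk_nsmul, QuotientAddGroup.eq_zero_iff]
    exact ⟨x, rfl⟩

theorem Gam_fi [Module.Free ℤ M] [Module.Finite ℤ M] (N : ℕ) (hN : 0 < N) :
    (Gam ρ N).FiniteIndex := by
  have := finite_quot (M := M) N hN
  let b := Module.Free.chooseBasis ℤ M
  let φ : G → (Module.Free.ChooseBasisIndex ℤ M → M ⧸ (nsmulAddMonoidHom (α := M) N).range) :=
    fun g i => ((ρ g (b i) : M) : M ⧸ (nsmulAddMonoidHom (α := M) N).range)
  have key : ∀ g g' : G, φ g = φ g' → g⁻¹ * g' ∈ Gam ρ N := by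
    intro g g' h x
    have h1 : ((QuotientAddGroup.mk' (nsmulAddMonoidHom (α := M) N).range).comp (ρ g)).toIntLinearMap =
        ((QuotientAddGroup.mk' (nsmulAddMonoidHom (α := M) N).range).comp (ρ g')).toIntLinearMap := by
      apply b.ext
      intro i
      exact congrFun h i
    have h2 : ((ρ g x : M) : M ⧸ (nsmulAddMonoidHom (α := M) N).range) =
        ((ρ g' x : M) : M ⧸ (nsmulAddMonoidHom (α := M) N).range) := DFunLike.congr_fun h1 x
    rw [QuotientAddGroup.eq] at h2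
    obtain ⟨y, hy⟩ := h2
    have hy' : N • y = -(ρ g x) + ρ g' x := hy
    refine ⟨ρ g⁻¹ y, ?_⟩
    rw [rho_mul, ← map_nsmul, hy', map_add, map_neg, rho_inv_l]
    abel
  have hfin : Finite (G ⧸ Gam ρ N) := by
    refine Finite.of_injective (fun q : G ⧸ Gam ρ N => φ q.out) ?_
    intro q q' h
    have h1 := key _ _ h
    rw [← QuotientGroup.eq] at h1
    rwa [QuotientGroup.out_eq', QuotientGroup.out_eq'] at h1
  exact Subgroup.finiteIndex_of_finite_quotient

/-- trivial on `S` and on `M / S` -/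
def PP (S : AddSubgroup M) (g : G) : Prop := (∀ x ∈ S, ρ g x = x) ∧ ∀ x, ρ g x - x ∈ S

theorem PP_one (S : AddSubgroup M) : PP ρ S 1 :=
  ⟨fun x _ => rho_one ρ x, fun x => by rw [rho_one, sub_self]; exact S.zero_mem⟩

theorem PP_mul {S : AddSubgroup M} {g g' : G} (h : PP ρ S g) (h' : PP ρ S g') : PP ρ S (g * g') := by
  refine ⟨fun x hx => ?_, fun x => ?_⟩
  · rw [rho_mul, h'.1 x hx, h.1 x hx]
  · have h1 : ρ g (ρ g' x - x) = ρ g' x - x := h.1 _ (h'.2 x)
    rw [map_sub] at h1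
    have h2 : ρ (g * g') x - x = (ρ g x - x) + (ρ g' x - x) := by
      rw [rho_mul, ← h1]
      abel
    rw [h2]
    exact S.add_mem (h.2 x) (h'.2 x)

theorem PP_inv {S : AddSubgroup M} {g : G} (h : PP ρ S g) : PP ρ S g⁻¹ := by
  have h1 : ∀ x ∈ S, ρ g⁻¹ x = x := fun x hx => by
    have h2 := congrArg (ρ g⁻¹) (h.1 x hx)
    rw [rho_inv_l] at h2
    exact h2.symm
  refine ⟨h1, fun x => ?_⟩
  have h2 := h1 _ (h.2 x)
  rw [map_sub, rho_inv_l] at h2
  have h3 : ρ g⁻¹ x - x = -(ρ g x - x) := by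
    rw [← h2]
    abel
  rw [h3]
  exact S.neg_mem (h.2 x)

/-- `ρ g` as a homomorphism -/
def tm (g : G) : M →+ M := ρ g

/-- the difference map -/
def dl (g : G) : M →+ M := tm ρ g - AddMonoidHom.id M

theorem dl_apply (g : G) (x : M) : dl ρ g x = ρ g x - x := rfl

theorem dl_mul {S : AddSubgroup M} {g g' : G} (h : PP ρ S g) (h' : PP ρ S g') :
    dl ρ (g * g') = dl ρ g + dl ρ g' := by
  ext x
  have h1 : ρ g (ρ g' x - x) = ρ g' x - x := h.1 _ (h'.2 x)
  rw [map_sub] at h1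
  rw [AddMonoidHom.add_apply, dl_apply, dl_apply, dl_apply, rho_mul, ← h1]
  abel

theorem dl_one : dl ρ 1 = 0 := by
  ext x
  rw [dl_apply, rho_one, sub_self]
  rfl

theorem PP_pow {S : AddSubgroup M} {g : G} (h : PP ρ S g) (n : ℕ) :
    PP ρ S (g ^ n) ∧ dl ρ (g ^ n) = n • dl ρ g := by
  induction n with
  | zero => exact ⟨by rw [pow_zero]; exact PP_one ρ S, by rw [pow_zero, zero_smul, dl_one]⟩
  | succ n ih =>
    rw [pow_succ]
    exact ⟨PP_mul ρ ih.1 h, by rw [dl_mul ρ ih.1 h, ih.2, succ_nsmul]⟩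

/-- the image of the difference map -/
def DL (S : AddSubgroup M) : AddSubgroup (M →+ M) where
  carrier := {f | ∃ g : G, PP ρ S g ∧ f = dl ρ g}
  zero_mem' := ⟨1, PP_one ρ S, (dl_one ρ).symm⟩
  add_mem' := by
    rintro _ _ ⟨g, hg, rfl⟩ ⟨g', hg', rfl⟩
    exact ⟨g * g', PP_mul ρ hg hg', (dl_mul ρ hg hg').symm⟩
  neg_mem' := by
    rintro _ ⟨g, hg, rfl⟩
    refine ⟨g⁻¹, PP_inv ρ hg, ?_⟩
    have h := dl_mul ρ hg (PP_inv ρ hg)
    rw [mul_inv_cancel, dl_one] at h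
    exact (eq_neg_of_add_eq_zero_right h.symm).symm

theorem stepA [Module.Free ℤ M] [Module.Finite ℤ M] (hT : S_TORS) (S : AddSubgroup M)
    (D : Subgroup G) (hD : D.index ≠ 0) (hker : ρ.ker ≤ D) :
    ∃ NA : ℕ, 0 < NA ∧ ∀ g : G, PP ρ S g → g ∈ Gam ρ NA → g ∈ D := by
  obtain ⟨k, hk, hkT⟩ := hT (M →+ M) (DL ρ S)
  refine ⟨D.index * k, Nat.mul_pos (Nat.pos_of_ne_zero hD) hk, fun g hg hgG => ?_⟩
  let b := Module.Free.chooseBasis ℤ M
  choose y hy using fun i => hgG (b i)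
  let q : M →+ M := (b.constr ℤ y).toAddMonoidHom
  have hq : ∀ i, q (b i) = y i := fun i => b.constr_basis ℤ y i
  have h1 : dl ρ g = (D.index * k) • q := by
    have h2 : (dl ρ g).toIntLinearMap = ((D.index * k) • q).toIntLinearMap := by
      apply b.ext
      intro i
      show dl ρ g (b i) = ((D.index * k) • q) (b i)
      rw [dl_apply, hy i, AddMonoidHom.nsmul_apply, hq i]
      abel
    ext x
    exact DFunLike.congr_fun h2 x
  have h3 : (((D.index * k : ℕ) : ℤ)) • q ∈ DL ρ S := by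
    rw [natCast_zsmul, ← h1]
    exact ⟨g, hg, rfl⟩
  have h4 : k • q ∈ DL ρ S := hkT q _ (by
    have := Nat.mul_pos (Nat.pos_of_ne_zero hD) hk
    exact_mod_cast this.ne') h3
  obtain ⟨g', hg', hq'⟩ := h4
  have h5 := PP_pow ρ hg' D.index
  have h6 : dl ρ g = dl ρ (g' ^ D.index) := by
    rw [h1, mul_smul, hq', h5.2]
  have h7 : (g' ^ D.index)⁻¹ * g ∈ ρ.ker := by
    rw [MonoidHom.mem_ker]
    refine DFunLike.ext _ _ fun x => ?_
    have h8 : dl ρ g x = dl ρ (g' ^ D.index) x := by rw [h6]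
    rw [dl_apply, dl_apply] at h8
    have h9 : ρ g x = ρ (g' ^ D.index) x := sub_left_injective h8
    rw [rho_mul, h9, rho_inv_l]
    rfl
  have h10 : g' ^ D.index ∈ D := Subgroup.pow_index_mem D g'
  have h11 := D.mul_mem h10 (hker h7)
  rwa [mul_inv_cancel_left] at h11

variable (S : AddSubgroup M) (hS : ∀ g : G, ∀ x ∈ S, ρ g x ∈ S)

/-- the action of an element on `S` -/
def rS (g : G) : ↥S →+ ↥S := ((tm ρ g).comp S.subtype).codRestrict S (fun x => hS g x x.2)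

/-- the action on `S` -/
def rhoS : G →* AddMonoid.End ↥S where
  toFun g := rS ρ S hS g
  map_one' := by exact AddMonoidHom.ext fun x => Subtype.ext (rho_one ρ (x : M))
  map_mul' g g' := by exact AddMonoidHom.ext fun x => Subtype.ext (rho_mul ρ g g' (x : M))

theorem rhoS_apply (g : G) (x : ↥S) : ((rhoS ρ S hS g x : ↥S) : M) = ρ g x := rfl

/-- the action of an element on `M / S` -/
def rQ (g : G) : (M ⧸ S) →+ (M ⧸ S) := QuotientAddGroup.map S S (tm ρ g) (fun x hx => hS g x hx)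

/-- the action on `M / S` -/
def rhoQ : G →* AddMonoid.End (M ⧸ S) where
  toFun g := rQ ρ S hS g
  map_one' := by
    refine AddMonoidHom.ext fun q => ?_
    induction q using QuotientAddGroup.induction_on with
    | H x => exact congrArg (fun z : M => (z : M ⧸ S)) (rho_one ρ x)
  map_mul' g g' := by
    refine AddMonoidHom.ext fun q => ?_
    induction q using QuotientAddGroup.induction_on with
    | H x => exact congrArg (fun z : M => (z : M ⧸ S)) (rho_mul ρ g g' x)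

theorem rhoQ_mk (g : G) (x : M) : rhoQ ρ S hS g (x : M ⧸ S) = ((ρ g x : M) : M ⧸ S) := rfl

theorem mem_kerS (g : G) : g ∈ (rhoS ρ S hS).ker ↔ ∀ x ∈ S, ρ g x = x := by
  rw [MonoidHom.mem_ker]
  constructor
  · intro h x hx
    have h1 : rhoS ρ S hS g ⟨x, hx⟩ = (1 : AddMonoid.End ↥S) ⟨x, hx⟩ := by rw [h]
    exact congrArg Subtype.val h1
  · intro h
    exact AddMonoidHom.ext fun x : ↥S => Subtype.ext (h (x : M) x.2)

theorem mem_kerQ (g : G) : g ∈ (rhoQ ρ S hS).ker ↔ ∀ x, ρ g x - x ∈ S := by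
  rw [MonoidHom.mem_ker]
  constructor
  · intro h x
    have h1 : rhoQ ρ S hS g (x : M ⧸ S) = (1 : AddMonoid.End (M ⧸ S)) (x : M ⧸ S) := by rw [h]
    have h2 : ((ρ g x : M) : M ⧸ S) = ((x : M) : M ⧸ S) := h1
    have h3 := (QuotientAddGroup.eq).1 h2.symm
    rw [neg_add_eq_sub] at h3
    exact h3
  · intro h
    refine DFunLike.ext _ _ fun q => ?_
    induction q using QuotientAddGroup.induction_on with
    | H x =>
      show ((ρ g x : M) : M ⧸ S) = ((x : M) : M ⧸ S)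
      refine ((QuotientAddGroup.eq).2 ?_).symm
      rw [neg_add_eq_sub]
      exact h x

end Gam

theorem T_RED (hT : S_TORS) : S_RED := by
  intro r IH G M _ _ _ _ ρ hr hSS D hD hker
  obtain ⟨S, hS, hpure, hbot, htop⟩ := hSS
  have i1 : Module.Finite ℤ ↥S := inferInstanceAs (Module.Finite ℤ ↥(AddSubgroup.toIntSubmodule S))
  have i2 : Module.Free ℤ ↥S := inferInstanceAs (Module.Free ℤ ↥(AddSubgroup.toIntSubmodule S))
  have i3 : Module.Finite ℤ (M ⧸ S) := inferInstanceAs (Module.Finite ℤ (M ⧸ (AddSubgroup.toIntSubmodule S)))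
  have i4 : Module.IsTorsionFree ℤ (M ⧸ S) := by
    refine Module.IsTorsionFree.of_smul_eq_zero ?_
    intro k q hq
    induction q using QuotientAddGroup.induction_on with
    | H x =>
      rw [← QuotientAddGroup.mk_zsmul, QuotientAddGroup.eq_zero_iff] at hq
      by_cases hk : k = 0
      · exact Or.inl hk
      · exact Or.inr ((QuotientAddGroup.eq_zero_iff x).2 (hpure k x hk hq))
  have i5 : Module.Free ℤ (M ⧸ S) := inferInstance
  have hadd : Module.finrank ℤ (M ⧸ S) + Module.finrank ℤ ↥S = Module.finrank ℤ M :=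
    Submodule.finrank_quotient_add_finrank (AddSubgroup.toIntSubmodule S)
  have hr1 : 0 < Module.finrank ℤ ↥S := by
    have : Nontrivial ↥S := (AddSubgroup.nontrivial_iff_ne_bot S).2 hbot
    exact Module.finrank_pos
  have hr2 : 0 < Module.finrank ℤ (M ⧸ S) := by
    have : Nontrivial (M ⧸ S) := by
      obtain ⟨x, hx⟩ : ∃ x, x ∉ S := by
        by_contra hcon
        push Not at hcon
        exact htop ((AddSubgroup.eq_top_iff' S).2 hcon)
      refine ⟨⟨(x : M ⧸ S), 0, ?_⟩⟩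
      intro h
      exact hx ((QuotientAddGroup.eq_zero_iff x).1 h)
    exact Module.finrank_pos
  have iD : D.FiniteIndex := ⟨hD⟩
  -- step A
  obtain ⟨NA, hNA, hA⟩ := stepA ρ hT S D hD hker
  have iA : (Gam ρ NA).FiniteIndex := Gam_fi ρ NA hNA
  -- step B
  set G1 : Subgroup G := (rhoS ρ S hS).ker with hG1
  set G2 : Subgroup G := (rhoQ ρ S hS).ker with hG2
  set DB : Subgroup G := (D ⊓ Gam ρ NA ⊓ G1) ⊔ (G1 ⊓ G2) with hDB
  have hDBi : (DB.subgroupOf G1).index ≠ 0 := by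
    have h1 : (D ⊓ Gam ρ NA).subgroupOf G1 ≤ DB.subgroupOf G1 := by
      intro g hg
      rw [Subgroup.mem_subgroupOf] at hg ⊢
      exact (le_sup_left : (D ⊓ Gam ρ NA ⊓ G1) ≤ DB) ⟨hg, g.2⟩
    have h2 : (DB.subgroupOf G1).FiniteIndex := Subgroup.finiteIndex_of_le h1
    exact h2.index_ne_zero
  have hDBk : ((rhoQ ρ S hS).comp G1.subtype).ker ≤ DB.subgroupOf G1 := by
    intro g hg
    rw [Subgroup.mem_subgroupOf]
    have h1 : (g : G) ∈ G2 := hg
    exact (le_sup_right : (G1 ⊓ G2) ≤ DB) ⟨g.2, h1⟩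
  obtain ⟨NB, hNB, hB⟩ := IH ↥G1 (M ⧸ S) ((rhoQ ρ S hS).comp G1.subtype) (by omega)
    (DB.subgroupOf G1) hDBi hDBk
  have hB2 : ∀ g ∈ G1, g ∈ Gam ρ (NA * NB) → g ∈ D := by
    intro g hg1 hgG
    have h1 : (⟨g, hg1⟩ : ↥G1) ∈ DB.subgroupOf G1 := by
      apply hB
      intro q
      induction q using QuotientAddGroup.induction_on with
      | H x =>
        obtain ⟨y, hy⟩ := hgG x
        refine ⟨((NA • y : M) : M ⧸ S), ?_⟩
        show ((ρ g x : M) : M ⧸ S) = (x : M ⧸ S) + NB • ((NA • y : M) : M ⧸ S)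
        rw [hy, ← QuotientAddGroup.mk_nsmul, ← QuotientAddGroup.mk_add, smul_smul, mul_comm NB NA]
    rw [Subgroup.mem_subgroupOf] at h1
    obtain ⟨y, hy, z, hz, hyz⟩ := Subgroup.mem_sup.1 h1
    have hyz' : y * z = g := hyz
    have hz2 : z ∈ Gam ρ NA := by
      have h2 : z = y⁻¹ * g := by rw [← hyz', inv_mul_cancel_left]
      rw [h2]
      exact mul_mem (inv_mem hy.1.2) (Gam_mono ρ (Dvd.intro _ rfl) hgG)
    have hz3 : z ∈ D := hA z ⟨(mem_kerS ρ S hS z).1 hz.1, (mem_kerQ ρ S hS z).1 hz.2⟩ hz2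
    rw [← hyz']
    exact D.mul_mem hy.1.1 hz3
  -- step C
  have hN1 : 0 < NA * NB := Nat.mul_pos hNA hNB
  have iB : (Gam ρ (NA * NB)).FiniteIndex := Gam_fi ρ _ hN1
  set DC : Subgroup G := (D ⊓ Gam ρ (NA * NB)) ⊔ G1 with hDC
  have hDCi : DC.index ≠ 0 := by
    have h2 : DC.FiniteIndex := Subgroup.finiteIndex_of_le (le_sup_left : (D ⊓ Gam ρ (NA * NB)) ≤ DC)
    exact h2.index_ne_zero
  obtain ⟨NC, hNC, hC⟩ := IH G ↥S (rhoS ρ S hS) (by omega) DC hDCi le_sup_right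
  refine ⟨NA * NB * NC, Nat.mul_pos hN1 hNC, fun g hg => ?_⟩
  have hgG : g ∈ Gam ρ (NA * NB * NC) := hg
  have h1 : g ∈ DC := by
    apply hC
    intro x
    obtain ⟨y, hy⟩ := hg x
    have hyS : y ∈ S := by
      apply hpure (((NA * NB * NC : ℕ) : ℤ)) y
      · have := Nat.mul_pos hN1 hNC
        exact_mod_cast this.ne'
      · rw [natCast_zsmul]
        have h2 : (NA * NB * NC) • y = ρ g x - x := by
          rw [hy]
          abel
        rw [h2]
        exact S.sub_mem (hS g x x.2) x.2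
    refine ⟨(NA * NB) • ⟨y, hyS⟩, Subtype.ext ?_⟩
    show ρ g x = x + (NC • ((NA * NB) • (⟨y, hyS⟩ : ↥S)) : ↥S)
    rw [hy, AddSubgroup.coe_nsmul, AddSubgroup.coe_nsmul, smul_smul, mul_comm NC]
  obtain ⟨y, hy, z, hz, hyz⟩ := Subgroup.mem_sup.1 h1
  have hz2 : z ∈ Gam ρ (NA * NB) := by
    have h2 : z = y⁻¹ * g := by rw [← hyz, inv_mul_cancel_left]
    rw [h2]
    exact mul_mem (inv_mem hy.2) (Gam_mono ρ (Dvd.intro _ rfl) hgG)
  rw [← hyz]
  exact D.mul_mem hy.1 (hB2 z hz hz2)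

end Pool.Agent.H163.AB
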