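import Pool.Agent.H751.AB.OutF
import Pool.Agent.H751.AB.P_DESC
import Pool.Agent.H751.AB.P_POW
import Pool.Agent.H751.AB.P_UNIT
import Pool.Agent.H751.AB.P_IRR
import Pool.Agent.H751.AB.P_CSA
import Pool.Agent.H751.AB.P_LOC
import Pool.Agent.H751.AB.P_RED
import Pool.Agent.H751.AB.P_FGI
import Pool.Agent.H751.AB.P_VA

/-! The final theorem. -/

set_option autoImplicit false

namespace Pool.Agent.H751.AB

theorem powS : S_POW := H236.AB.T_POW H376.AB.T_DESC H152.AB.T_TORS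
theorem unitS : S_UNIT := H370.AB.T_UNIT H224.AB.T_LOC powS
theorem irrS : S_IRR := H895.AB.T_IRR unitS
theorem redS : S_RED := H163.AB.T_RED H152.AB.T_TORS
theorem csaS : S_CSA := H179.AB.T_CSA irrS redS
theorem chevS : S_CHEV := H179.AB.T_CHEV csaS

theorem final (n : ℕ) (hn : 2 ≤ n)
    (A A₀ B : Subgroup (MulAut (FreeGroup (Fin n)) ⧸ Inn (Fin n))) (hA₀ : A₀ ≤ A)
    (hidx : A₀.relIndex A ≠ 0) (hfg : A₀.FG) (hab : ∀ a ∈ A₀, ∀ b ∈ A₀, a * b = b * a)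
    (hB : B.relIndex A ≠ 0) : ∃ K : Subgroup (FreeGroup (Fin n)),
      K.Characteristic ∧ K.FiniteIndex ∧ ∀ α : MulAut (FreeGroup (Fin n)),
        QuotientGroup.mk' (Inn (Fin n)) α ∈ A →
        (∃ g : FreeGroup (Fin n), ∀ x, α x * (g * x * g⁻¹)⁻¹ ∈ K) →
          QuotientGroup.mk' (Inn (Fin n)) α ∈ B :=
  out_form H279.AB.T_VA chevS H603.AB.T_FGI n hn A A₀ B hA₀ hidx hfg hab hB

end Pool.Agent.H751.AB
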