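import Pool.Agent.H751.AB.Mag

/-! Automorphisms acting as conjugations by series up to some degree. -/

set_option autoImplicit false

namespace Pool.Agent.H751.AB

open NC

variable {ι : Type}

/-- the automorphisms which act on the series up to degree `i` as a conjugation by a series with
constant term `1` -/
def Lv (ι : Type) (i : ℕ) : Subgroup (MulAut (FreeGroup ι)) where
  carrier := {α | ∃ u : NC ι, u [] = 1 ∧ ∀ x, Cg 0 (i + 1) (ms (α x) * u) (u * ms x)}
  one_mem' := ⟨1, one_nil, fun x => by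
    rw [mul_one, one_mul]; exact Cg.refl _ _ _⟩
  mul_mem' := by
    rintro α β ⟨u, hu, h⟩ ⟨v, hv, h'⟩
    refine ⟨u * v, by rw [mul_nil, hu, hv, mul_one], fun x => ?_⟩
    rw [← mul_assoc]
    refine ((h (β x)).mul (Cg.refl 0 (i + 1) v)).trans ?_
    rw [mul_assoc, mul_assoc]
    exact (Cg.refl 0 (i + 1) u).mul (h' x)
  inv_mem' := by
    rintro α ⟨u, hu, h⟩
    obtain ⟨v, hv, huv, hvu⟩ := exists_inv hu
    refine ⟨v, hv, fun x => ?_⟩
    have h1 := h (α⁻¹ x)
    rw [MulAut.apply_inv_self] at h1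
    have h2 := ((Cg.refl 0 (i + 1) v).mul h1).mul (Cg.refl 0 (i + 1) v)
    have e1 : v * (ms x * u) * v = v * ms x := by
      rw [mul_assoc, mul_assoc, huv, mul_one]
    have e2 : v * (u * ms (α⁻¹ x)) * v = ms (α⁻¹ x) * v := by
      rw [← mul_assoc v, hvu, one_mul]
    rw [e1, e2] at h2
    exact h2.symm

theorem mem_Lv {i : ℕ} {α : MulAut (FreeGroup ι)} : α ∈ Lv ι i ↔
    ∃ u : NC ι, u [] = 1 ∧ ∀ x, Cg 0 (i + 1) (ms (α x) * u) (u * ms x) := Iff.rfl

theorem Lv_anti (i : ℕ) : Lv ι (i + 1) ≤ Lv ι i := by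
  rintro α ⟨u, hu, h⟩
  exact ⟨u, hu, fun x => (h x).mono (by omega)⟩

theorem conj_mem_Lv (i : ℕ) (g : FreeGroup ι) : MulAut.conj g ∈ Lv ι i := by
  refine ⟨ms g, ms_nil g, fun x => ?_⟩
  rw [MulAut.conj_apply, ms_mul, ms_mul, mul_assoc, ms_inv_mul, mul_one]
  exact Cg.refl _ _ _

/-- the defect -/
noncomputable def dd (α : MulAut (FreeGroup ι)) (u : NC ι) (x : FreeGroup ι) : NC ι :=
  ms (α x) * u - u * ms x

theorem dd_mul (α : MulAut (FreeGroup ι)) (u : NC ι) (x y : FreeGroup ι) :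
    dd α u (x * y) = ms (α x) * dd α u y + dd α u x * ms y := by
  simp only [dd, map_mul, ms_mul]
  noncomm_ring

theorem dd_low {α : MulAut (FreeGroup ι)} {u : NC ι} {N : ℕ}
    (h : ∀ x, Cg 0 N (ms (α x) * u) (u * ms x)) (x : FreeGroup ι) (w : List ι)
    (hw : w.length < N) : dd α u x w = 0 := by
  rw [dd, NC.sub_apply, (h x).eq hw, sub_self]

theorem dd_add {α : MulAut (FreeGroup ι)} {u : NC ι} {N : ℕ}
    (h : ∀ x, Cg 0 N (ms (α x) * u) (u * ms x)) (x y : FreeGroup ι) (w : List ι)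
    (hw : w.length = N) : dd α u (x * y) w = dd α u x w + dd α u y w := by
  rw [dd_mul, NC.add_apply, mul_low_left (ms_nil _) (dd_low h y) w hw.le,
    mul_low_right (ms_nil _) (dd_low h x) w hw.le]
  ring

/-- the defect in the lowest degree as a homomorphism -/
noncomputable def dh {α : MulAut (FreeGroup ι)} {u : NC ι} {N : ℕ}
    (h : ∀ x, Cg 0 N (ms (α x) * u) (u * ms x)) (w : List ι) (hw : w.length = N) :
    FreeGroup ι →* Multiplicative ℤ :=
  MonoidHom.mk' (fun x => Multiplicative.ofAdd (dd α u x w)) fun x y => by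
    rw [dd_add h x y w hw, ofAdd_add]

theorem dd_congr {α : MulAut (FreeGroup ι)} {u : NC ι} {N : ℕ}
    (h : ∀ x, Cg 0 N (ms (α x) * u) (u * ms x)) {x y : FreeGroup ι}
    (hxy : x * y⁻¹ ∈ commutator (FreeGroup ι)) (w : List ι) (hw : w.length = N) :
    dd α u x w = dd α u y w := by
  have h1 : dh h w hw (x * y⁻¹) = 1 := Abelianization.commutator_subset_ker (dh h w hw) hxy
  rw [map_mul, map_inv, mul_inv_eq_one] at h1
  exact Multiplicative.ofAdd.injective h1

/-- `IA`: the automorphisms acting trivially on the abelianization -/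
def IA (ι : Type) : Subgroup (MulAut (FreeGroup ι)) where
  carrier := {α | ∀ x, α x * x⁻¹ ∈ commutator (FreeGroup ι)}
  one_mem' := fun x => by
    rw [MulAut.one_apply, mul_inv_cancel]; exact one_mem _
  mul_mem' := by
    intro α β h h' x
    have := mul_mem (h (β x)) (h' x)
    rwa [mul_assoc, inv_mul_cancel_left] at this
  inv_mem' := by
    intro α h x
    have := inv_mem (h (α⁻¹ x))
    rw [MulAut.apply_inv_self, mul_inv_rev, inv_inv] at this
    exact this

theorem mem_IA {α : MulAut (FreeGroup ι)} :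
    α ∈ IA ι ↔ ∀ x, α x * x⁻¹ ∈ commutator (FreeGroup ι) := Iff.rfl

instance IA_normal : (IA ι).Normal := by
  constructor
  intro α hα β x
  have h1 := hα (β⁻¹ x)
  have h2 : β (α (β⁻¹ x) * (β⁻¹ x)⁻¹) ∈ commutator (FreeGroup ι) := by
    have h3 : (commutator (FreeGroup ι)).map β.toMonoidHom ≤ commutator (FreeGroup ι) := by
      have : (commutator (FreeGroup ι)).Characteristic := inferInstance
      exact (Subgroup.characteristic_iff_map_le.1 this) β
    exact h3 ⟨_, h1, rfl⟩
  rw [map_mul, map_inv, MulAut.apply_inv_self] at h2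
  exact h2

theorem conj_mem_IA (g : FreeGroup ι) : MulAut.conj g ∈ IA ι := by
  intro x
  rw [MulAut.conj_apply]
  exact Subgroup.commutator_mem_commutator (Subgroup.mem_top g) (Subgroup.mem_top x)

/-- commutators have no terms of degree one -/
theorem ms_comm {c : FreeGroup ι} (hc : c ∈ commutator (FreeGroup ι)) : Cg 0 2 (ms c) 1 := by
  intro w hw
  rcases Nat.lt_or_ge w.length 1 with h | h
  · have : w = [] := List.length_eq_zero_iff.1 (by omega)
    subst this
    rw [ms_nil, one_nil, sub_self]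
  · -- degree one: a homomorphism
    have hw1 : w.length = 1 := by omega
    have hadd : ∀ x y : FreeGroup ι, ms (x * y) w = ms x w + ms y w := by
      intro x y
      obtain ⟨a, rfl⟩ := List.length_eq_one_iff.1 hw1
      rw [ms_mul, mul_cons, mul_nil, ms_nil, one_mul, dl, ms_nil, mul_one]
      ring
    let φ : FreeGroup ι →* Multiplicative ℤ :=
      MonoidHom.mk' (fun x => Multiplicative.ofAdd (ms x w)) fun x y => by
        rw [hadd, ofAdd_add]
    have h1 : φ c = 1 := Abelianization.commutator_subset_ker φ hc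
    have h2 : ms c w = 0 := Multiplicative.ofAdd.injective h1
    obtain ⟨a, rfl⟩ := List.length_eq_one_iff.1 hw1
    rw [h2, one_cons, sub_self]

theorem IA_le_Lv : IA ι ≤ Lv ι 1 := by
  intro α h
  refine ⟨1, one_nil, fun x => ?_⟩
  rw [mul_one, one_mul]
  have h1 := (ms_comm (h x)).mul (Cg.refl 0 2 (ms x))
  rw [← ms_mul, inv_mul_cancel_right, one_mul] at h1
  exact h1

/-- the conjugation property on generators suffices -/
theorem cg_of_gen {α : MulAut (FreeGroup ι)} {u : NC ι} {N : ℕ} {m : ℤ}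
    (h : ∀ j, Cg m N (ms (α (FreeGroup.of j)) * u) (u * ms (FreeGroup.of j))) (x : FreeGroup ι) :
    Cg m N (ms (α x) * u) (u * ms x) := by
  induction x using FreeGroup.induction_on with
  | C1 => rw [map_one, ms_one, one_mul, mul_one]; exact Cg.refl _ _ _
  | of j => exact h j
  | inv_of j _ =>
    have h1 := ((Cg.refl m N (ms (α (FreeGroup.of j))⁻¹)).mul (h j)).mul
      (Cg.refl m N (ms (FreeGroup.of j)⁻¹))
    have e1 : ms (α (FreeGroup.of j))⁻¹ * (ms (α (FreeGroup.of j)) * u) * ms (FreeGroup.of j)⁻¹ =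
        u * ms (FreeGroup.of j)⁻¹ := by
      rw [← mul_assoc (ms (α (FreeGroup.of j))⁻¹), ms_inv_mul, one_mul]
    have e2 : ms (α (FreeGroup.of j))⁻¹ * (u * ms (FreeGroup.of j)) * ms (FreeGroup.of j)⁻¹ =
        ms (α (FreeGroup.of j))⁻¹ * u := by
      rw [mul_assoc, mul_assoc, ms_mul_inv, mul_one]
    rw [e1, e2] at h1
    have e3 : α (FreeGroup.of j)⁻¹ = (α (FreeGroup.of j))⁻¹ := map_inv _ _
    rw [e3]
    exact h1.symm
  | mul x y hx hy =>
    rw [map_mul, ms_mul, ms_mul, mul_assoc]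
    refine ((Cg.refl m N (ms (α x))).mul hy).trans ?_
    rw [← mul_assoc, ← mul_assoc]
    exact hx.mul (Cg.refl m N (ms y))

/-- `t` is the defect in degree `i + 1` of `α` for some conjugating series -/
def Rel (i : ℕ) (α : MulAut (FreeGroup ι)) (t : ι → List.Vector ι (i + 1) → ℤ) : Prop :=
  ∃ u : NC ι, u [] = 1 ∧ (∀ x, Cg 0 (i + 1) (ms (α x) * u) (u * ms x)) ∧
    ∀ (j : ι) (w : List.Vector ι (i + 1)), dd α u (FreeGroup.of j) w.1 = t j w

theorem exists_rel {i : ℕ} {α : MulAut (FreeGroup ι)} (h : α ∈ Lv ι i) : ∃ t, Rel i α t := by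
  obtain ⟨u, hu, h⟩ := h
  exact ⟨fun j w => dd α u (FreeGroup.of j) w.1, u, hu, h, fun _ _ => rfl⟩

theorem Rel.mem {i : ℕ} {α : MulAut (FreeGroup ι)} {t : ι → List.Vector ι (i + 1) → ℤ}
    (h : Rel i α t) : α ∈ Lv ι i := by
  obtain ⟨u, hu, h, _⟩ := h
  exact ⟨u, hu, h⟩

theorem Rel.mul {i : ℕ} {α β : MulAut (FreeGroup ι)} {t s : ι → List.Vector ι (i + 1) → ℤ}
    (h : Rel i α t) (h' : Rel i β s) (hβ : β ∈ IA ι) : Rel i (α * β) (t + s) := by
  obtain ⟨u, hu, h, ht⟩ := h
  obtain ⟨v, hv, h', hs⟩ := h'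
  have key : ∀ x, dd (α * β) (u * v) x = dd α u (β x) * v + u * dd β v x := by
    intro x
    simp only [dd, MulAut.mul_apply]
    noncomm_ring
  refine ⟨u * v, by rw [mul_nil, hu, hv, mul_one], fun x w hw => ?_, fun j w => ?_⟩
  · have e : (ms ((α * β) x) * (u * v)) w - (u * v * ms x) w = dd (α * β) (u * v) x w := rfl
    rw [e, key, NC.add_apply, mul_low_right hv (dd_low h (β x)) w hw.le,
      mul_low_left hu (dd_low h' x) w hw.le, dd_low h _ w hw, dd_low h' _ w hw, add_zero]
  · have hw : w.1.length = i + 1 := w.2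
    rw [key, NC.add_apply, mul_low_right hv (dd_low h _) w.1 hw.le,
      mul_low_left hu (dd_low h' _) w.1 hw.le, dd_congr h (hβ (FreeGroup.of j)) w.1 hw, ht, hs]
    rfl

theorem Rel.inv {i : ℕ} {α : MulAut (FreeGroup ι)} {t : ι → List.Vector ι (i + 1) → ℤ}
    (h : Rel i α t) (hα : α ∈ IA ι) : Rel i α⁻¹ (-t) := by
  obtain ⟨u, hu, h, ht⟩ := h
  obtain ⟨v, hv, huv, hvu⟩ := exists_inv hu
  have key : ∀ x, dd α⁻¹ v x = v * (-dd α u (α⁻¹ x)) * v := by
    intro x
    simp only [dd, MulAut.apply_inv_self]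
    have e1 : v * -(ms x * u - u * ms (α⁻¹ x)) * v =
        (v * u) * ms (α⁻¹ x) * v - v * ms x * (u * v) := by noncomm_ring
    rw [e1, huv, hvu, one_mul, mul_one]
  have hlow : ∀ x, ∀ w : List ι, w.length < i + 1 → (-dd α u x) w = 0 := by
    intro x w hw
    rw [NC.neg_apply, dd_low h x w hw, neg_zero]
  have hlow2 : ∀ x, ∀ w : List ι, w.length < i + 1 → (v * -dd α u x) w = 0 := by
    intro x w hw
    rw [mul_low_left hv (hlow x) w hw.le, hlow x w hw]
  refine ⟨v, hv, fun x w hw => ?_, fun j w => ?_⟩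
  · have e : (ms (α⁻¹ x) * v) w - (v * ms x) w = dd α⁻¹ v x w := rfl
    rw [e, key, mul_low_right hv (hlow2 _) w hw.le, hlow2 _ w hw]
  · have hw : w.1.length = i + 1 := w.2
    rw [key, mul_low_right hv (hlow2 _) w.1 hw.le, mul_low_left hv (hlow _) w.1 hw.le, NC.neg_apply]
    have h2 : α⁻¹ (FreeGroup.of j) * (FreeGroup.of j)⁻¹ ∈ commutator (FreeGroup ι) :=
      (IA ι).inv_mem hα (FreeGroup.of j)
    rw [dd_congr h h2 w.1 hw, ht]
    rfl

theorem Rel.one (i : ℕ) : Rel i (1 : MulAut (FreeGroup ι)) 0 := by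
  refine ⟨1, one_nil, fun x => ?_, fun j w => ?_⟩
  · rw [mul_one, one_mul]; exact Cg.refl _ _ _
  · rw [dd, mul_one, one_mul, MulAut.one_apply, sub_self]; rfl

theorem Rel.pow {i : ℕ} {α : MulAut (FreeGroup ι)} {t : ι → List.Vector ι (i + 1) → ℤ}
    (h : Rel i α t) (hα : α ∈ IA ι) (k : ℕ) : Rel i (α ^ k) (k • t) := by
  induction k with
  | zero => rw [pow_zero, zero_smul]; exact Rel.one i
  | succ k ih =>
    rw [pow_succ, succ_nsmul]
    exact ih.mul h hα

theorem Rel.up {i : ℕ} {α : MulAut (FreeGroup ι)} (h : Rel i α 0) : α ∈ Lv ι (i + 1) := by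
  obtain ⟨u, hu, h, ht⟩ := h
  refine ⟨u, hu, fun x => cg_of_gen (fun j w hw => ?_) x⟩
  have e : (ms (α (FreeGroup.of j)) * u) w - (u * ms (FreeGroup.of j)) w =
    dd α u (FreeGroup.of j) w := rfl
  rw [e]
  rcases Nat.lt_or_ge w.length (i + 1) with h1 | h1
  · rw [dd_low h _ w h1]
  · have hw' : w.length = i + 1 := by omega
    have := ht j ⟨w, hw'⟩
    rw [this]
    exact dvd_zero _

theorem rel_zero_of_mem {i : ℕ} {α : MulAut (FreeGroup ι)} (h : α ∈ Lv ι (i + 1)) :
    Rel i α 0 := by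
  obtain ⟨u, hu, h⟩ := h
  refine ⟨u, hu, fun x => (h x).mono (by omega), fun j w => ?_⟩
  have hw : w.1.length = i + 1 := w.2
  exact dd_low h _ w.1 (by omega)

/-- two defects of one automorphism differ by the commutator with a series -/
theorem Rel.unique {i : ℕ} {α : MulAut (FreeGroup ι)} {t s : ι → List.Vector ι (i + 1) → ℤ}
    (h : Rel i α t) (h' : Rel i α s) :
    ∃ z : NC ι, ∀ (j : ι) (w : List.Vector ι (i + 1)), (z * X j - X j * z) w.1 = s j w - t j w := by
  obtain ⟨u, hu, h, ht⟩ := h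
  obtain ⟨v, hv, h', hs⟩ := h'
  obtain ⟨v', hv', hvv, hvv'⟩ := exists_inv hv
  refine ⟨v' * u, fun j w => ?_⟩
  have hw : w.1.length = i + 1 := w.2
  have key : v' * u * X j - X j * (v' * u) =
      v' * (-dd α u (FreeGroup.of j)) + v' * dd α v (FreeGroup.of j) * (v' * u) := by
    have e1 : v' * dd α v (FreeGroup.of j) * (v' * u) =
        v' * ms (α (FreeGroup.of j)) * (v * v') * u - (v' * v) * ms (FreeGroup.of j) * v' * u := by
      simp only [dd]; noncomm_ring
    rw [e1, hvv, hvv']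
    simp only [dd, ms_of]
    noncomm_ring
  have l1 : ∀ w : List ι, w.length < i + 1 → (-dd α u (FreeGroup.of j)) w = 0 := fun w hw => by
    rw [NC.neg_apply, dd_low h _ w hw, neg_zero]
  have l2 : ∀ w : List ι, w.length < i + 1 → (v' * dd α v (FreeGroup.of j)) w = 0 :=
    fun w hw => by rw [mul_low_left hv' (dd_low h' _) w hw.le, dd_low h' _ w hw]
  rw [key, NC.add_apply, mul_low_left hv' l1 w.1 hw.le,
    mul_low_right (by rw [mul_nil, hv', hu, mul_one]) l2 w.1 hw.le,
    mul_low_left hv' (dd_low h' _) w.1 hw.le, NC.neg_apply, ht, hs]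
  ring

/-- change of the conjugating series in degree `i` -/
theorem Rel.modify {i : ℕ} (hi : 1 ≤ i) {α : MulAut (FreeGroup ι)}
    {t s : ι → List.Vector ι (i + 1) → ℤ} (h : Rel i α t) (P : NC ι)
    (hs : ∀ (j : ι) (w : List.Vector ι (i + 1)), s j w = t j w + (X j * P - P * X j) w.1) :
    Rel i α s := by
  classical
  obtain ⟨u, hu, h, ht⟩ := h
  let Q : NC ι := fun w => if w.length = i then P w else 0
  have hQ0 : Q [] = 0 := by
    show (if ([] : List ι).length = i then P [] else 0) = 0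
    rw [if_neg]; simp; omega
  have hQ1 : ((1 : NC ι) + Q) [] = 1 := by rw [NC.add_apply, one_nil, hQ0, add_zero]
  have hQlow : ∀ w : List ι, w.length < i → Q w = 0 := by
    intro w hw
    show (if w.length = i then P w else 0) = 0
    rw [if_neg (by omega)]
  have key : ∀ x, dd α (u * (1 + Q)) x =
      dd α u x * (1 + Q) + u * ((ms x - 1) * Q - Q * (ms x - 1)) := by
    intro x; simp only [dd]; noncomm_ring
  have h1 : ∀ x : FreeGroup ι, ∀ w : List ι, w.length < 1 → (ms x - 1) w = 0 := by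
    intro x w hw
    have : w = [] := List.length_eq_zero_iff.1 (by omega)
    subst this
    rw [NC.sub_apply, ms_nil, one_nil, sub_self]
  have h2 : ∀ x : FreeGroup ι, ∀ w : List ι, w.length < i + 1 →
      ((ms x - 1) * Q - Q * (ms x - 1)) w = 0 := by
    intro x w hw
    rw [NC.sub_apply, mul_order (h1 x) hQlow w (by omega), mul_order hQlow (h1 x) w (by omega),
      sub_zero]
  refine ⟨u * (1 + Q), by rw [mul_nil, hu, hQ1, mul_one], fun x w hw => ?_, fun j w => ?_⟩
  · have e : (ms (α x) * (u * (1 + Q))) w - (u * (1 + Q) * ms x) w = dd α (u * (1 + Q)) x w := rfl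
    rw [e, key, NC.add_apply, mul_low_right hQ1 (dd_low h _) w hw.le, dd_low h _ w hw,
      mul_low_left hu (h2 x) w hw.le, h2 x w hw, add_zero]
  · have hw : w.1.length = i + 1 := w.2
    rw [key, NC.add_apply, mul_low_right hQ1 (dd_low h _) w.1 hw.le, mul_low_left hu (h2 _) w.1 hw.le,
      ht, hs, ms_of, add_sub_cancel_left]
    congr 1
    have e1 : (X j * Q) w.1 = (X j * P) w.1 := by
      rcases hl : w.1 with _ | ⟨a, l⟩
      · rw [X_mul_nil, X_mul_nil]
      · rw [X_mul_cons, X_mul_cons]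
        have : l.length = i := by rw [hl, List.length_cons] at hw; omega
        have : Q l = P l := by
          show (if l.length = i then P l else 0) = P l
          rw [if_pos this]
        rw [this]
    have e2 : (Q * X j) w.1 = (P * X j) w.1 := by
      rcases List.eq_nil_or_concat w.1 with hl | ⟨l, a, hl⟩
      · rw [hl, mul_X_nil, mul_X_nil]
      · rw [List.concat_eq_append] at hl
        rw [hl, mul_X_concat, mul_X_concat]
        have : l.length = i := by rw [hl, List.length_append] at hw; simp at hw; omega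
        have : Q l = P l := by
          show (if l.length = i then P l else 0) = P l
          rw [if_pos this]
        rw [this]
    rw [NC.sub_apply, NC.sub_apply, e1, e2]

/-- commutators with all letters determine a series modulo `c` -/
theorem comm_dvd {i : ℕ} (hi : 1 ≤ i) {c : ℤ} {z : NC ι} (hne : ∀ a : ι, ∃ b : ι, b ≠ a)
    (h : ∀ (j : ι) (w : List.Vector ι (i + 1)), c ∣ (z * X j - X j * z) w.1) (v : List ι)
    (hv : v.length = i) : c ∣ z v := by
  classical
  rcases v with _ | ⟨a, v⟩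
  · simp at hv; omega
  obtain ⟨b, hb⟩ := hne a
  have hl : (a :: v ++ [b]).length = i + 1 := by rw [List.length_append]; simp at hv ⊢; omega
  have h1 := h b ⟨a :: v ++ [b], hl⟩
  change c ∣ (z * X b - X b * z) (a :: v ++ [b]) at h1
  rw [NC.sub_apply, mul_X_concat, if_pos rfl, List.cons_append, X_mul_cons, if_neg (Ne.symm hb),
    sub_zero] at h1
  exact h1

/-- purity -/
theorem Rel.pure {i : ℕ} (hi : 1 ≤ i) (hne : ∀ a : ι, ∃ b : ι, b ≠ a) {α : MulAut (FreeGroup ι)}
    {t : ι → List.Vector ι (i + 1) → ℤ} (h : Rel i α t) {c : ℤ} (hc : c ≠ 0) {z : NC ι}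
    (hz : ∀ (j : ι) (w : List.Vector ι (i + 1)), (z * X j - X j * z) w.1 = c * t j w) :
    Rel i α 0 := by
  classical
  have hd : ∀ v : List ι, v.length = i → c ∣ z v :=
    comm_dvd hi hne (fun j w => by rw [hz]; exact dvd_mul_right _ _)
  let P : NC ι := fun v => z v / c
  have hP : ∀ v : List ι, v.length = i → c * P v = z v := fun v hv => Int.mul_ediv_cancel' (hd v hv)
  refine h.modify hi P fun j w => ?_
  have hw : w.1.length = i + 1 := w.2
  have e1 : c * (X j * P) w.1 = (X j * z) w.1 := by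
    rcases hl : w.1 with _ | ⟨a, l⟩
    · rw [X_mul_nil, X_mul_nil, mul_zero]
    · rw [X_mul_cons, X_mul_cons]
      have : l.length = i := by rw [hl, List.length_cons] at hw; omega
      split_ifs
      · exact hP l this
      · rw [mul_zero]
  have e2 : c * (P * X j) w.1 = (z * X j) w.1 := by
    rcases List.eq_nil_or_concat w.1 with hl | ⟨l, a, hl⟩
    · rw [hl, mul_X_nil, mul_X_nil, mul_zero]
    · rw [List.concat_eq_append] at hl
      rw [hl, mul_X_concat, mul_X_concat]
      have : l.length = i := by rw [hl, List.length_append] at hw; simp at hw; omega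
      split_ifs
      · exact hP l this
      · rw [mul_zero]
  have h1 := hz j w
  rw [NC.sub_apply, ← e1, ← e2] at h1
  have h2 : c * ((0 : ι → List.Vector ι (i + 1) → ℤ) j w) =
      c * (t j w + (X j * P - P * X j) w.1) := by
    rw [NC.sub_apply]
    have : (0 : ι → List.Vector ι (i + 1) → ℤ) j w = 0 := rfl
    rw [this]
    linarith
  exact mul_left_cancel₀ hc h2

/-- the layers are torsion-free -/
theorem torsion_free {i : ℕ} (hi : 1 ≤ i) (hne : ∀ a : ι, ∃ b : ι, b ≠ a)
    {α : MulAut (FreeGroup ι)} (hα : α ∈ IA ι) (h : α ∈ Lv ι i) {k : ℕ} (hk : k ≠ 0)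
    (hp : α ^ k ∈ Lv ι (i + 1)) : α ∈ Lv ι (i + 1) := by
  obtain ⟨t, ht⟩ := exists_rel h
  obtain ⟨z, hz⟩ := (rel_zero_of_mem hp).unique (ht.pow hα k)
  refine (ht.pure hi hne (c := (k : ℤ)) (by exact_mod_cast hk) (z := z) fun j w => ?_).up
  rw [hz]
  simp

/-- automorphisms acting trivially modulo `m` -/
theorem Rel.of_trivial {i : ℕ} (hi : 1 ≤ i) {α : MulAut (FreeGroup ι)}
    {t : ι → List.Vector ι (i + 1) → ℤ} (h : Rel i α t) {m : ℤ}
    (hm : ∀ x, Cg m (i + 2) (ms (α x)) (ms x)) :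
    ∃ s : ι → List.Vector ι (i + 1) → ℤ, Rel i α (m • s) := by
  have h0 := h
  obtain ⟨u, hu, h, ht⟩ := h
  have hd : ∀ (j : ι) (w : List.Vector ι (i + 1)), m ∣ t j w - (X j * u - u * X j) w.1 := by
    intro j w
    have hw : w.1.length = i + 1 := w.2
    have h1 := (hm (FreeGroup.of j)).mul (Cg.refl m (i + 2) u)
    have h2 := h1 w.1 (by omega)
    rw [← ht, dd, ms_of] at *
    have e : (ms (α (FreeGroup.of j)) * u - u * (1 + X j)) w.1 - (X j * u - u * X j) w.1 =
        (ms (α (FreeGroup.of j)) * u) w.1 - ((1 + X j) * u) w.1 := by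
      rw [NC.sub_apply, NC.sub_apply, mul_add, add_mul, mul_one, one_mul, NC.add_apply, NC.add_apply]
      ring
    rw [e]
    exact h2
  choose s hs using hd
  refine ⟨s, h0.modify hi (-u) fun j w => ?_⟩
  have e : (X j * -u - -u * X j) w.1 = -(X j * u - u * X j) w.1 := by
    have e' : X j * -u - -u * X j = -(X j * u - u * X j) := by rw [mul_neg, neg_mul]; abel
    rw [e', NC.neg_apply]
  rw [e]
  have := hs j w
  show m * s j w = _
  rw [← this]
  ring

end Pool.Agent.H751.AB
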