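import Pool.Agent.H751.AB.NC

/-! The Magnus map. -/

set_option autoImplicit false

namespace Pool.Agent.H751.AB

open NC

variable {ι : Type}

theorem one_add_X_nil (j : ι) : ((1 : NC ι) + X j) [] = 1 := by
  rw [add_apply, one_nil, X_nil, add_zero]

/-- `1 + X j` as a unit -/
noncomputable def gU (j : ι) : (NC ι)ˣ :=
  ⟨1 + X j, (exists_inv (one_add_X_nil j)).choose, (exists_inv (one_add_X_nil j)).choose_spec.2.1,
    (exists_inv (one_add_X_nil j)).choose_spec.2.2⟩

theorem gU_coe (j : ι) : (gU j : NC ι) = 1 + X j := rfl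

/-- the Magnus map -/
noncomputable def mu : FreeGroup ι →* (NC ι)ˣ := FreeGroup.lift gU

/-- the Magnus series of an element -/
noncomputable def ms (x : FreeGroup ι) : NC ι := (mu x : (NC ι)ˣ)

theorem ms_one : ms (1 : FreeGroup ι) = 1 := by simp [ms]
theorem ms_mul (x y : FreeGroup ι) : ms (x * y) = ms x * ms y := by simp [ms]
theorem ms_mul_inv (x : FreeGroup ι) : ms x * ms x⁻¹ = 1 := by rw [← ms_mul, mul_inv_cancel, ms_one]
theorem ms_inv_mul (x : FreeGroup ι) : ms x⁻¹ * ms x = 1 := by rw [← ms_mul, inv_mul_cancel, ms_one]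
theorem ms_of (j : ι) : ms (FreeGroup.of j) = 1 + X j := by
  rw [ms, mu, FreeGroup.lift_apply_of, gU_coe]

theorem ms_nil (x : FreeGroup ι) : ms x [] = 1 := by
  induction x using FreeGroup.induction_on with
  | C1 => rw [ms_one]; rfl
  | of j => rw [ms_of]; exact one_add_X_nil j
  | inv_of j h =>
    have h1 := congrArg (fun f : NC ι => f []) (ms_mul_inv (FreeGroup.of j))
    simp only [mul_nil, one_nil, h, one_mul] at h1
    exact h1
  | mul x y hx hy => rw [ms_mul, mul_nil, hx, hy, mul_one]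

/-- product of syllables -/
def syl (L : List (ι × ℤ)) : FreeGroup ι := (L.map fun p => FreeGroup.of p.1 ^ p.2).prod

/-- trace: the sum of the coefficients of the rotations of a word -/
def tr (W : List ι) (f : NC ι) : ℤ := ∑ k ∈ Finset.range W.length, f (W.rotate k)

/-- SYL: every element is conjugate to a cyclically reduced product of syllables -/
def S_SYL : Prop := ∀ (ι : Type) (x : FreeGroup ι), ∃ (h : FreeGroup ι) (L : List (ι × ℤ)),
  x = h * syl L * h⁻¹ ∧ (∀ p ∈ L, p.2 ≠ 0) ∧ L.IsChain (fun p q => p.1 ≠ q.1) ∧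
    (2 ≤ L.length → ∀ p ∈ L.head?, ∀ q ∈ L.getLast?, q.1 ≠ p.1)

/-- COEF: coefficients of products of syllables at words without equal adjacent letters -/
def S_COEF : Prop := ∀ (ι : Type) (L : List (ι × ℤ)) (W : List ι), W.IsChain (fun a b => a ≠ b) →
  (L.length < W.length → ms (syl L) W = 0) ∧
  (W = L.map Prod.fst → ms (syl L) W = (L.map Prod.snd).prod) ∧
  (W.length = L.length → W ≠ L.map Prod.fst → ms (syl L) W = 0)

/-- TRC: the trace property -/
def S_TRC : Prop := ∀ (ι : Type) (W : List ι) (f g : NC ι), tr W (f * g) = tr W (g * f)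

/-- CONJ: an element whose Magnus series has the traces of `1 + X j` is conjugate to the letter -/
def S_CONJ : Prop := ∀ (ι : Type) (j : ι) (x : FreeGroup ι),
  (∀ W : List ι, W ≠ [] → tr W (ms x) = tr W (1 + X j)) →
    ∃ h : FreeGroup ι, x = h * FreeGroup.of j * h⁻¹

/-- INJ: the Magnus map is injective -/
def S_INJ : Prop := ∀ (ι : Type) (x : FreeGroup ι), ms x = 1 → x = 1

/-- CHAIN: pure subgroups with trivial intersection in a finitely generated abelian group -/
def S_CHAIN : Prop := ∀ (M : Type) [AddCommGroup M] [Module.Finite ℤ M] (N : ℕ → AddSubgroup M),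
  (∀ i, N (i + 1) ≤ N i) →
  (∀ (i : ℕ) (k : ℤ) (x : M), k ≠ 0 → x ∈ N i → k • x ∈ N (i + 1) → x ∈ N (i + 1)) →
  (∀ x, (∀ i, x ∈ N i) → x = 0) → ∃ c, ∀ x ∈ N c, x = 0

/-- TORS: bounded torsion of quotients of finitely generated abelian groups -/
def S_TORS : Prop := ∀ (M : Type) [AddCommGroup M] [Module.Finite ℤ M] (S : AddSubgroup M),
  ∃ k : ℕ, 0 < k ∧ ∀ (x : M) (c : ℤ), c ≠ 0 → c • x ∈ S → k • x ∈ S

/-- CYC: powers of an integral matrix -/
def S_CYC : Prop := ∀ (n : ℕ) (g : (Matrix (Fin n) (Fin n) ℤ)ˣ) (m : ℕ), 0 < m →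
  ∃ N : ℕ, 0 < N ∧ ∀ k : ℤ, (∀ i j, (N : ℤ) ∣ (((g ^ k : (Matrix (Fin n) (Fin n) ℤ)ˣ) :
    Matrix (Fin n) (Fin n) ℤ) - 1) i j) → ∃ l : ℤ, g ^ k = g ^ (m * l)

end Pool.Agent.H751.AB
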