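import Pool.Agent.H751.AB.Stm2

/-! The action of the automorphisms of a free group on the abelianization as integral matrices. -/

set_option autoImplicit false

namespace Pool.Agent.H784.AB

open Pool.Agent.H751.AB NC

variable {n : ℕ}

/-- the abelianization as a homomorphism to `ℤ^n` -/
noncomputable def ab (n : ℕ) : FreeGroup (Fin n) →* Multiplicative (Fin n → ℤ) :=
  FreeGroup.lift fun j => Multiplicative.ofAdd (Pi.single j 1)

/-- the exponent vector -/
noncomputable def ee (x : FreeGroup (Fin n)) : Fin n → ℤ := Multiplicative.toAdd (ab n x)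

theorem ee_one : ee (1 : FreeGroup (Fin n)) = 0 := by
  unfold ee; rw [map_one]; rfl

theorem ee_mul (x y : FreeGroup (Fin n)) : ee (x * y) = ee x + ee y := by
  unfold ee; rw [map_mul]; rfl

theorem ee_inv (x : FreeGroup (Fin n)) : ee x⁻¹ = - ee x := by
  unfold ee; rw [map_inv]; rfl

theorem ee_of (j : Fin n) : ee (FreeGroup.of j) = Pi.single j 1 := by
  unfold ee ab
  rw [FreeGroup.lift_apply_of]
  rfl

/-- the matrix of an automorphism -/
noncomputable def mm (α : MulAut (FreeGroup (Fin n))) : Matrix (Fin n) (Fin n) ℤ :=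
  Matrix.of fun i j => ee (α (FreeGroup.of j)) i

theorem mm_apply (α : MulAut (FreeGroup (Fin n))) (i j : Fin n) :
    mm α i j = ee (α (FreeGroup.of j)) i := rfl

theorem ee_act (α : MulAut (FreeGroup (Fin n))) (x : FreeGroup (Fin n)) (i : Fin n) :
    ee (α x) i = ∑ j, mm α i j * ee x j := by
  induction x using FreeGroup.induction_on with
  | C1 => rw [map_one, ee_one]; simp
  | of j =>
    rw [ee_of, Finset.sum_eq_single j]
    · rw [Pi.single_eq_same, mul_one, mm_apply]
    · intro k _ hk
      rw [Pi.single_eq_of_ne hk, mul_zero]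
    · intro h; exact absurd (Finset.mem_univ j) h
  | inv_of j ih =>
    have ih' : ee (α (FreeGroup.of j)) i = ∑ k, mm α i k * ee (FreeGroup.of j) k := ih
    change ee (α (FreeGroup.of j)⁻¹) i = ∑ k, mm α i k * ee (FreeGroup.of j)⁻¹ k
    rw [map_inv, ee_inv, ee_inv, Pi.neg_apply, ih', ← Finset.sum_neg_distrib]
    apply Finset.sum_congr rfl
    intro k _
    rw [Pi.neg_apply, mul_neg]
  | mul x y hx hy =>
    rw [map_mul, ee_mul, ee_mul, Pi.add_apply, hx, hy, ← Finset.sum_add_distrib]
    apply Finset.sum_congr rfl
    intro k _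
    rw [Pi.add_apply, mul_add]

/-- the matrices as a homomorphism -/
noncomputable def mh (n : ℕ) : MulAut (FreeGroup (Fin n)) →* Matrix (Fin n) (Fin n) ℤ where
  toFun := mm
  map_one' := by
    ext i j
    rw [mm_apply, MulAut.one_apply, ee_of, Matrix.one_apply, Pi.single_apply]
  map_mul' := by
    intro α β
    ext i j
    rw [mm_apply, MulAut.mul_apply, ee_act, Matrix.mul_apply]
    rfl

/-- the inverse of the abelianization -/
noncomputable def ps (n : ℕ) :
    Multiplicative (Fin n → ℤ) →* Abelianization (FreeGroup (Fin n)) where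
  toFun := fun v => ∏ j, (Abelianization.of (FreeGroup.of j)) ^ (Multiplicative.toAdd v j)
  map_one' := by
    apply Finset.prod_eq_one
    intro j _
    exact zpow_zero _
  map_mul' := by
    intro v w
    rw [← Finset.prod_mul_distrib]
    apply Finset.prod_congr rfl
    intro j _
    rw [toAdd_mul, Pi.add_apply, zpow_add]

theorem ps_ab (x : FreeGroup (Fin n)) : ps n (ab n x) = Abelianization.of x := by
  have h : (ps n).comp (ab n) = Abelianization.of := by
    apply FreeGroup.ext_hom
    intro i
    change ∏ j, (Abelianization.of (FreeGroup.of j)) ^ (ee (FreeGroup.of i) j) = _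
    rw [ee_of, Finset.prod_eq_single i]
    · rw [Pi.single_eq_same, zpow_one]
    · intro k _ hk
      rw [Pi.single_eq_of_ne hk, zpow_zero]
    · intro h; exact absurd (Finset.mem_univ i) h
  exact DFunLike.congr_fun h x

theorem mem_comm {x : FreeGroup (Fin n)} : x ∈ commutator (FreeGroup (Fin n)) ↔ ee x = 0 := by
  constructor
  · intro h
    have h1 : ab n x = 1 := Abelianization.commutator_subset_ker (ab n) h
    unfold ee
    rw [h1]; rfl
  · intro h
    have h1 : ab n x = 1 := Multiplicative.toAdd.injective h
    have h2 := ps_ab x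
    rw [h1, map_one] at h2
    rw [← Abelianization.ker_of]
    exact h2.symm

/-- the reduction of the abelianization modulo `N` -/
noncomputable def rd (n N : ℕ) : FreeGroup (Fin n) →* Multiplicative (Fin n → ZMod N) where
  toFun := fun x => Multiplicative.ofAdd fun i => ((ee x i : ℤ) : ZMod N)
  map_one' := by
    rw [ee_one]
    apply Multiplicative.toAdd.injective
    funext i
    exact Int.cast_zero
  map_mul' := by
    intro x y
    rw [ee_mul]
    apply Multiplicative.toAdd.injective
    funext i
    exact Int.cast_add _ _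

theorem mem_rd {N : ℕ} {x : FreeGroup (Fin n)} : x ∈ (rd n N).ker ↔ ∀ i, (N : ℤ) ∣ ee x i := by
  rw [MonoidHom.mem_ker]
  constructor
  · intro h i
    have h1 : (fun i => ((ee x i : ℤ) : ZMod N)) = 0 := Multiplicative.ofAdd.injective h
    have h2 : ((ee x i : ℤ) : ZMod N) = 0 := congrFun h1 i
    exact (ZMod.intCast_zmod_eq_zero_iff_dvd _ _).mp h2
  · intro h
    apply Multiplicative.toAdd.injective
    funext i
    exact (ZMod.intCast_zmod_eq_zero_iff_dvd _ _).mpr (h i)

theorem T_ABM : S_ABM := by
  intro n
  refine ⟨(mh n).toHomUnits, ?_, ?_⟩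
  · ext α
    rw [MonoidHom.mem_ker, mem_IA]
    constructor
    · intro h x
      have h1 : mm α = 1 := by
        have := congrArg (fun u : (Matrix (Fin n) (Fin n) ℤ)ˣ => (u : Matrix (Fin n) (Fin n) ℤ)) h
        exact this
      rw [mem_comm, ee_mul, ee_inv]
      have h2 : ee (α x) = ee x := by
        funext i
        rw [ee_act, h1, Finset.sum_eq_single i]
        · rw [Matrix.one_apply_eq, one_mul]
        · intro k _ hk
          rw [Matrix.one_apply_ne (Ne.symm hk), zero_mul]
        · intro h; exact absurd (Finset.mem_univ i) h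
      rw [h2, add_neg_cancel]
    · intro h
      apply Units.ext
      change mm α = 1
      ext i j
      have h1 := mem_comm.mp (h (FreeGroup.of j))
      rw [ee_mul, ee_inv, add_neg_eq_zero] at h1
      rw [mm_apply, h1, ee_of, Matrix.one_apply, Pi.single_apply]
  · intro N hN
    have : NeZero N := ⟨hN.ne'⟩
    have : Finite (Multiplicative (Fin n → ZMod N)) :=
      inferInstanceAs (Finite (Fin n → ZMod N))
    refine ⟨(rd n N).ker, ?_, inferInstance, ?_⟩
    · rw [Subgroup.characteristic_iff_le_comap]
      intro α x hx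
      rw [Subgroup.mem_comap, mem_rd]
      rw [mem_rd] at hx
      intro i
      change (N : ℤ) ∣ ee (α x) i
      have h1 := ee_act (show MulAut (FreeGroup (Fin n)) from α) x i
      change ee (α x) i = _ at h1
      rw [h1]
      exact Finset.dvd_sum fun j _ => (hx j).mul_left _
    · intro α h i j
      have h1 := mem_rd.mp (h (FreeGroup.of j)) i
      rw [ee_mul, ee_inv] at h1
      change (N : ℤ) ∣ (mm α - 1) i j
      rw [Matrix.sub_apply, mm_apply, Matrix.one_apply]
      rw [Pi.add_apply, Pi.neg_apply, ee_of, Pi.single_apply, ← sub_eq_add_neg] at h1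
      exact h1

end Pool.Agent.H784.AB
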