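import Pool.Agent.H751.AB.Mag

set_option autoImplicit false

/-! # Project AB (helper751): pure chains in finitely generated abelian groups -/

namespace Pool.Agent.H42.AB.CHAIN

open Pool.Agent.H751.AB

/-- a submodule of the same rank has torsion quotient -/
theorem tors {M : Type} [AddCommGroup M] [Module.Finite ℤ M] {A B : Submodule ℤ M} (hBA : B ≤ A)
    (h : Module.finrank ℤ A = Module.finrank ℤ B) {x : M} (hx : x ∈ A) :
    ∃ k : ℤ, k ≠ 0 ∧ k • x ∈ B := by
  haveI : IsNoetherian ℤ M := inferInstance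
  set T : Submodule ℤ A := B.comap A.subtype with hT
  have h1 : Module.finrank ℤ T = Module.finrank ℤ B :=
    (Submodule.comapSubtypeEquivOfLe hBA).finrank_eq
  have h2 := Submodule.finrank_quotient_add_finrank T
  have h3 : Module.finrank ℤ (A ⧸ T) = 0 := by omega
  have h4 := Module.finrank_eq_zero_iff_isTorsion.1 h3
  obtain ⟨a, ha⟩ := @h4 (Submodule.Quotient.mk ⟨x, hx⟩)
  refine ⟨a, nonZeroDivisors.coe_ne_zero a, ?_⟩
  have h5 : (Submodule.Quotient.mk ((a : ℤ) • (⟨x, hx⟩ : A)) : A ⧸ T) = 0 := by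
    rw [Submodule.Quotient.mk_smul]
    exact ha
  rw [Submodule.Quotient.mk_eq_zero] at h5
  exact h5

theorem T_CHAIN : S_CHAIN := by
  intro M _ _ N hN hpure hint
  haveI : IsNoetherian ℤ M := inferInstance
  let S : ℕ → Submodule ℤ M := fun i => AddSubgroup.toIntSubmodule (N i)
  have hS : ∀ i, S (i + 1) ≤ S i := fun i => hN i
  obtain ⟨c, hc⟩ : ∃ c, ∀ i, Module.finrank ℤ (S c) ≤ Module.finrank ℤ (S i) := by
    obtain ⟨c, hc⟩ := exists_minimalFor_of_wellFoundedLT (fun _ : ℕ => True)
      (fun i => Module.finrank ℤ (S i)) ⟨0, trivial⟩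
    refine ⟨c, fun i => ?_⟩
    rcases le_total (Module.finrank ℤ (S c)) (Module.finrank ℤ (S i)) with h | h
    · exact h
    · exact hc.2 trivial h
  have hmono : ∀ i, Module.finrank ℤ (S (i + 1)) ≤ Module.finrank ℤ (S i) := fun i =>
    Submodule.finrank_mono (hS i)
  have hle : ∀ k, Module.finrank ℤ (S (c + k)) ≤ Module.finrank ℤ (S c) := by
    intro k
    induction k with
    | zero => exact le_rfl
    | succ k ih => exact (hmono (c + k)).trans ih
  have heq : ∀ k, Module.finrank ℤ (S (c + k)) = Module.finrank ℤ (S c) := fun k =>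
    le_antisymm (hle k) (hc _)
  have hstep : ∀ k x, x ∈ N (c + k) → x ∈ N (c + k + 1) := by
    intro k x hx
    have h1 : Module.finrank ℤ (S (c + k)) = Module.finrank ℤ (S (c + k + 1)) := by
      rw [heq k]; exact (heq (k + 1)).symm
    obtain ⟨m, hm, hmx⟩ := tors (hS (c + k)) h1 (x := x) hx
    exact hpure (c + k) m x hm hx hmx
  refine ⟨c, fun x hx => hint x fun i => ?_⟩
  have hup : ∀ k, x ∈ N (c + k) := by
    intro k
    induction k with
    | zero => exact hx
    | succ k ih => exact hstep k x ih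
  have hdown : ∀ k i, x ∈ N (i + k) → x ∈ N i := by
    intro k
    induction k with
    | zero => intro i h; exact h
    | succ k ih => intro i h; exact ih i (hN (i + k) h)
  have h2 := hup i
  rw [add_comm] at h2
  exact hdown c i h2

end Pool.Agent.H42.AB.CHAIN
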