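import Pool.Agent.H751.AB.Stm2

/-!
# Task AB CU (helper640): automorphisms of free groups which are conjugations by noncommutative
power series are inner
-/

set_option autoImplicit false

namespace Pool.Agent.H640.AB

open Pool.Agent.H751.AB Pool.Agent.H751.AB.NC

variable {ι : Type}

/-- Lemma C -/
theorem lemC {a : ι} {i : ℕ} {u : NC ι} (h : Cg 0 (i + 2) (X a * u) (u * X a)) :
    ∀ (k : ℕ) (c : ι) (w : List ι), c ≠ a → k + 1 + w.length ≤ i →
      u (List.replicate k a ++ c :: w) = 0 := by
  classical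
  intro k
  induction k with
  | zero =>
    intro c w hc hw
    have h1 := h.eq (w := (c :: w) ++ [a]) (by simp; omega)
    rw [mul_X_concat, if_pos rfl, List.cons_append, X_mul_cons, if_neg hc] at h1
    simpa using h1.symm
  | succ k ih =>
    intro c w hc hw
    have h1 := h.eq (w := (List.replicate (k + 1) a ++ c :: w) ++ [a]) (by simp; omega)
    rw [mul_X_concat, if_pos rfl] at h1
    have e : (List.replicate (k + 1) a ++ c :: w) ++ [a] =
        a :: (List.replicate k a ++ c :: (w ++ [a])) := by
      simp [List.replicate_succ]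
    rw [e, X_mul_cons, if_pos rfl, ih c (w ++ [a]) hc (by simp; omega)] at h1
    exact h1.symm

theorem word_cases (a : ι) (w : List ι) : w = List.replicate w.length a ∨
    ∃ (k : ℕ) (c : ι) (w2 : List ι), c ≠ a ∧ w = List.replicate k a ++ c :: w2 := by
  induction w with
  | nil => left; rfl
  | cons c w ih =>
    by_cases hc : c = a
    · rcases ih with h | ⟨k, c', w2, h1, h2⟩
      · left
        rw [hc, List.length_cons, List.replicate_succ, ← h]
      · right
        exact ⟨k + 1, c', w2, h1, by rw [hc, h2, List.replicate_succ]; rfl⟩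
    · right
      exact ⟨0, c, w, hc, rfl⟩

theorem lemC' {a : ι} {i : ℕ} {u : NC ι} (h : Cg 0 (i + 2) (X a * u) (u * X a)) (w : List ι)
    (hw : w.length ≤ i) (hne : w ≠ List.replicate w.length a) : u w = 0 := by
  rcases word_cases a w with h1 | ⟨k, c, w2, hc, rfl⟩
  · exact absurd h1 hne
  · refine lemC h k c w2 hc ?_
    simp at hw
    omega

/-- the images of the letters are conjugate to the letters -/
theorem conj_of (h1 : S_CONJ) (h3 : S_TRC) {α : MulAut (FreeGroup ι)} (hα : ∀ i, α ∈ Lv ι i)
    (j : ι) : ∃ h : FreeGroup ι, α (FreeGroup.of j) = h * FreeGroup.of j * h⁻¹ := by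
  refine h1 ι j _ fun W _ => ?_
  obtain ⟨u, hu, h⟩ := hα W.length
  obtain ⟨v, hv, huv, hvu⟩ := exists_inv hu
  have e1 : ms (α (FreeGroup.of j)) = (ms (α (FreeGroup.of j)) * u) * v := by
    rw [mul_assoc, huv, mul_one]
  have hcg := (Cg.refl 0 (W.length + 1) v).mul (h (FreeGroup.of j))
  have e2 : tr W (v * (ms (α (FreeGroup.of j)) * u)) = tr W (v * (u * ms (FreeGroup.of j))) := by
    unfold tr
    refine Finset.sum_congr rfl fun k _ => hcg.eq ?_
    rw [List.length_rotate]
    exact Nat.lt_succ_self _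
  have e3 : v * (u * ms (FreeGroup.of j)) = 1 + X j := by
    rw [← mul_assoc, hvu, one_mul, ms_of]
  rw [e1, h3 ι W, e2, e3]

theorem comm_X {N : ℕ} {j : ι} {u : NC ι} (h : Cg 0 N ((1 + X j) * u) (u * (1 + X j))) :
    Cg 0 N (X j * u) (u * X j) := by
  have h1 := h.sub (Cg.refl 0 N u)
  have e1 : (1 + X j) * u - u = X j * u := by noncomm_ring
  have e2 : u * (1 + X j) - u = u * X j := by noncomm_ring
  rwa [e1, e2] at h1

/-- equality of the coefficients of the powers of a letter -/
def Ag (a : ι) (f g : NC ι) : Prop := ∀ m : ℕ, f (List.replicate m a) = g (List.replicate m a)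

theorem Ag.refl (a : ι) (f : NC ι) : Ag a f f := fun _ => rfl

theorem Ag.mul {a : ι} {f g f' g' : NC ι} (h : Ag a f g) (h' : Ag a f' g') :
    Ag a (f * f') (g * g') := by
  intro m
  rw [mul_eq_sum, mul_eq_sum]
  refine Finset.sum_congr rfl fun k _ => ?_
  rw [List.take_replicate, List.drop_replicate, h, h']

open Classical in
/-- the retraction to the subgroup generated by a letter -/
noncomputable def ret (a : ι) : FreeGroup ι →* FreeGroup ι :=
  FreeGroup.lift fun j => if j = a then FreeGroup.of a else 1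

theorem ret_self (a : ι) : ret a (FreeGroup.of a) = FreeGroup.of a := by
  rw [ret, FreeGroup.lift_apply_of, if_pos rfl]

theorem ret_ne {a j : ι} (h : j ≠ a) : ret a (FreeGroup.of j) = 1 := by
  rw [ret, FreeGroup.lift_apply_of, if_neg h]

theorem ret_ag (a : ι) (k : FreeGroup ι) : Ag a (ms (ret a k)) (ms k) := by
  have hof : ∀ j : ι, Ag a (ms (ret a (FreeGroup.of j))) (ms (FreeGroup.of j)) := by
    intro j m
    by_cases hj : j = a
    · rw [hj, ret_self]
    · rw [ret_ne hj, ms_one, ms_of, NC.add_apply]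
      have : X j (List.replicate m a) = 0 := by
        cases m with
        | zero => rfl
        | succ m =>
          classical
          rw [List.replicate_succ, X_cons, if_neg (fun h => hj h.1.symm)]
      rw [this, add_zero]
  induction k using FreeGroup.induction_on with
  | C1 => intro m; rw [map_one]
  | of j => exact hof j
  | inv_of j _ =>
    have h1 := ((Ag.refl a (ms (ret a (FreeGroup.of j))⁻¹)).mul (hof j)).mul
      (Ag.refl a (ms (FreeGroup.of j)⁻¹))
    rw [ms_inv_mul, one_mul, mul_assoc, ms_mul_inv, mul_one] at h1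
    intro m
    have e : ret a (FreeGroup.of j)⁻¹ = (ret a (FreeGroup.of j))⁻¹ := map_inv _ _
    rw [e]
    exact (h1 m).symm
  | mul x y hx hy =>
    rw [map_mul, ms_mul, ms_mul]
    exact hx.mul hy

theorem ret_mem (a : ι) (k : FreeGroup ι) : ∃ e : ℤ, ret a k = FreeGroup.of a ^ e := by
  have : ret a k ∈ Subgroup.zpowers (FreeGroup.of a) := by
    induction k using FreeGroup.induction_on with
    | C1 => rw [map_one]; exact one_mem _
    | of j =>
      by_cases hj : j = a
      · rw [hj, ret_self]; exact Subgroup.mem_zpowers _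
      · rw [ret_ne hj]; exact one_mem _
    | inv_of j h =>
      have e : ret a (FreeGroup.of j)⁻¹ = (ret a (FreeGroup.of j))⁻¹ := map_inv _ _
      rw [e]
      exact inv_mem h
    | mul x y hx hy => rw [map_mul]; exact mul_mem hx hy
  obtain ⟨e, he⟩ := Subgroup.mem_zpowers_iff.1 this
  exact ⟨e, he.symm⟩

theorem T_CU (h1 : S_CONJ) (h2 : S_INJ) (h3 : S_TRC) : S_CU := by
  intro ι a b hab α hα
  obtain ⟨h, hh⟩ := conj_of h1 h3 hα a
  obtain ⟨α1, hα1⟩ : ∃ α1 : MulAut (FreeGroup ι), α1 = (MulAut.conj h)⁻¹ * α := ⟨_, rfl⟩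
  have hL : ∀ i, α1 ∈ Lv ι i := fun i => by
    rw [hα1]
    exact mul_mem (inv_mem (conj_mem_Lv i h)) (hα i)
  have ha1 : α1 (FreeGroup.of a) = FreeGroup.of a := by
    rw [hα1, MulAut.mul_apply, hh, MulAut.conj_inv_apply]
    group
  obtain ⟨k, hk⟩ := conj_of h1 h3 hL b
  obtain ⟨e, he⟩ := ret_mem a k
  obtain ⟨t, ht⟩ : ∃ t : NC ι, t = ms (FreeGroup.of a ^ e) := ⟨_, rfl⟩
  have htX : X a * t = t * X a := by
    have hc : FreeGroup.of a * FreeGroup.of a ^ e = FreeGroup.of a ^ e * FreeGroup.of a :=
      ((Commute.refl (FreeGroup.of a)).zpow_right e).eq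
    have h4 := congrArg ms hc
    rw [ms_mul, ms_mul, ms_of, ← ht] at h4
    have e1 : (1 + X a) * t - t = X a * t := by noncomm_ring
    have e2 : t * (1 + X a) - t = t * X a := by noncomm_ring
    rw [← e1, ← e2, h4]
  have key : ∀ (i : ℕ) (x : FreeGroup ι), Cg 0 (i + 1) (ms (α1 x) * t) (t * ms x) := by
    intro i x
    obtain ⟨u, hu, hux⟩ := hL (i + 1)
    have hua : Cg 0 (i + 2) (X a * u) (u * X a) := by
      have h4 := hux (FreeGroup.of a)
      rw [ha1, ms_of] at h4
      exact comm_X h4
    obtain ⟨s, hs⟩ : ∃ s : NC ι, s = ms k⁻¹ * u := ⟨_, rfl⟩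
    have hsb : Cg 0 (i + 2) (X b * s) (s * X b) := by
      apply comm_X
      have h4 := (Cg.refl 0 (i + 2) (ms k⁻¹)).mul (hux (FreeGroup.of b))
      rw [hk, ms_mul, ms_mul, ms_of] at h4
      have e1 : ms k⁻¹ * (ms k * (1 + X b) * ms k⁻¹ * u) = (1 + X b) * s := by
        rw [hs]
        calc ms k⁻¹ * (ms k * (1 + X b) * ms k⁻¹ * u) =
            (ms k⁻¹ * ms k) * ((1 + X b) * (ms k⁻¹ * u)) := by simp only [mul_assoc]
          _ = (1 + X b) * (ms k⁻¹ * u) := by rw [ms_inv_mul, one_mul]
      have e2 : ms k⁻¹ * (u * (1 + X b)) = s * (1 + X b) := by rw [hs, mul_assoc]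
      rwa [e1, e2] at h4
    have hs0 : s [] = 1 := by rw [hs, mul_nil, ms_nil, hu, mul_one]
    have hsa : ∀ l, 1 ≤ l → l ≤ i → s (List.replicate l a) = 0 := by
      intro l hl hli
      refine lemC' hsb _ (by rw [List.length_replicate]; exact hli) ?_
      rw [List.length_replicate]
      intro hcon
      obtain ⟨m, rfl⟩ : ∃ m, l = m + 1 := ⟨l - 1, by omega⟩
      rw [List.replicate_succ, List.replicate_succ] at hcon
      exact hab (List.cons.inj hcon).1
    have hum : ∀ m ≤ i, u (List.replicate m a) = ms k (List.replicate m a) := by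
      intro m hm
      have e1 : u = ms k * s := by rw [hs, ← mul_assoc, ms_mul_inv, one_mul]
      have e2 : u (List.replicate m a) = (ms k * s) (List.replicate m a) := by rw [← e1]
      rw [e2, mul_eq_sum, List.length_replicate, Finset.sum_range_succ, Finset.sum_eq_zero,
        zero_add]
      · rw [List.drop_replicate, Nat.sub_self, List.replicate_zero, hs0, mul_one,
          List.take_replicate, min_self]
      · intro l hl
        rw [Finset.mem_range] at hl
        rw [List.drop_replicate, hsa (m - l) (by omega) (by omega), mul_zero]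
    have hut : Cg 0 (i + 1) u t := by
      intro w hw
      have h5 : u w = t w := by
        by_cases hw' : w = List.replicate w.length a
        · have h6 := hum w.length (by omega)
          have h7 := ret_ag a k w.length
          rw [he, ← ht] at h7
          rw [← hw'] at h6 h7
          rw [h6, h7]
        · have htc : Cg 0 (i + 2) (X a * t) (t * X a) := by
            rw [htX]
            exact Cg.refl _ _ _
          rw [lemC' hua w (by omega) hw', lemC' htc w (by omega) hw']
      rw [h5, sub_self]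
    exact ((Cg.refl 0 (i + 1) (ms (α1 x))).mul hut.symm).trans
      (((hux x).mono (by omega)).trans (hut.mul (Cg.refl 0 (i + 1) (ms x))))
  have hfin : ∀ x, α1 x = FreeGroup.of a ^ e * x * (FreeGroup.of a ^ e)⁻¹ := by
    intro x
    have h4 : ms (α1 x * FreeGroup.of a ^ e) = ms (FreeGroup.of a ^ e * x) := by
      rw [ms_mul, ms_mul, ← ht]
      exact NC.ext fun w => (key w.length x).eq (Nat.lt_succ_self _)
    have h5 : ms (α1 x * FreeGroup.of a ^ e * (FreeGroup.of a ^ e * x)⁻¹) = 1 := by
      rw [ms_mul, h4, ms_mul_inv]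
    have h6 := h2 ι _ h5
    rw [mul_inv_eq_one] at h6
    rw [← h6, mul_inv_cancel_right]
  refine ⟨h * FreeGroup.of a ^ e, ?_⟩
  have h7 : α = MulAut.conj h * α1 := by rw [hα1, mul_inv_cancel_left]
  have h8 : α1 = MulAut.conj (FreeGroup.of a ^ e) := by
    refine MulEquiv.ext fun x => ?_
    rw [hfin, MulAut.conj_apply]
  rw [h7, h8, map_mul]

end Pool.Agent.H640.AB
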