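import Pool.Agent.H751.AB.Stm2

/-! The congruence subgroups of the free group given by Magnus coefficients modulo `m`. -/

set_option autoImplicit false

namespace Pool.Agent.H808.AB

open Pool.Agent.H751.AB
open Pool.Agent.H751.AB.NC

/-- a subgroup of finite index in a finitely generated group contains a characteristic subgroup of
finite index -/
theorem exists_char {G : Type} [Group G] {k : ℕ} {gen : Fin k → G}
    (hgen : Subgroup.closure (Set.range gen) = ⊤) (K : Subgroup G) (hK : K.FiniteIndex) :
    ∃ L : Subgroup G, L.Characteristic ∧ L.FiniteIndex ∧ L ≤ K := by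
  have hfin : Finite (G ⧸ K.normalCore) := Subgroup.finite_quotient_of_finiteIndex
  have hhom : Finite (G →* G ⧸ K.normalCore) := by
    refine Finite.of_injective (fun f : G →* G ⧸ K.normalCore => fun i : Fin k => f (gen i)) ?_
    intro f f' h
    refine MonoidHom.eq_of_eqOn_dense hgen ?_
    rintro _ ⟨i, rfl⟩
    exact congrFun h i
  refine ⟨⨅ f : G →* G ⧸ K.normalCore, f.ker, ?_, ?_, ?_⟩
  · rw [Subgroup.characteristic_iff_le_comap]
    intro φ g hg
    rw [Subgroup.mem_comap, Subgroup.mem_iInf]
    intro f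
    rw [Subgroup.mem_iInf] at hg
    exact hg (f.comp φ.toMonoidHom)
  · have : ∀ f : G →* G ⧸ K.normalCore, f.ker.FiniteIndex := fun f => by
      have : Finite f.range := inferInstance
      exact Subgroup.finiteIndex_ker f
    exact Subgroup.finiteIndex_iInf fun f => inferInstance
  · intro g hg
    have h1 := (Subgroup.mem_iInf.1 hg) (QuotientGroup.mk' K.normalCore)
    rw [QuotientGroup.ker_mk'] at h1
    exact K.normalCore_le h1

variable {ι : Type}

/-- the elements whose Magnus series is `1` modulo `m` in degrees `< N` -/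
def K0 (ι : Type) (m : ℤ) (N : ℕ) : Subgroup (FreeGroup ι) where
  carrier := {x | Cg m N (ms x) 1}
  one_mem' := by
    change Cg m N (ms (1 : FreeGroup ι)) 1
    rw [ms_one]; exact Cg.refl _ _ _
  mul_mem' := by
    intro x y hx hy
    change Cg m N (ms (x * y)) 1
    rw [ms_mul]
    have h : Cg m N (ms x * ms y) (1 * 1) := Cg.mul hx hy
    rwa [one_mul] at h
  inv_mem' := by
    intro x hx
    change Cg m N (ms x⁻¹) 1
    have h : Cg m N (ms x⁻¹ * ms x) (ms x⁻¹ * 1) := Cg.mul (Cg.refl m N (ms x⁻¹)) hx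
    rw [ms_inv_mul, mul_one] at h
    exact h.symm

theorem mem_K0 {m : ℤ} {N : ℕ} {x : FreeGroup ι} : x ∈ K0 ι m N ↔ Cg m N (ms x) 1 := Iff.rfl

/-- the words of length `< N` in finitely many letters -/
theorem finite_words (n N : ℕ) : Finite {w : List (Fin n) // w.length < N} :=
  (List.finite_length_lt (Fin n) N).to_subtype

theorem K0_finite (n : ℕ) (m : ℤ) (N : ℕ) (hm : m ≠ 0) : (K0 (Fin n) m N).FiniteIndex := by
  have : NeZero m.natAbs := ⟨Int.natAbs_ne_zero.2 hm⟩
  have hw := finite_words n N
  let F : FreeGroup (Fin n) ⧸ K0 (Fin n) m N → ({w : List (Fin n) // w.length < N} → ZMod m.natAbs) :=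
    fun q w => ((ms q.out w.1 : ℤ) : ZMod m.natAbs)
  have hF : Function.Injective F := by
    intro q q' h
    have h1 : Cg m N (ms q.out) (ms q'.out) := by
      intro w hw
      have h2 := congrFun h ⟨w, hw⟩
      have h3 := (ZMod.intCast_eq_intCast_iff_dvd_sub _ _ _).1 h2
      rw [Int.natAbs_dvd] at h3
      rw [← neg_sub, dvd_neg]
      exact h3
    have h2 : q.out⁻¹ * q'.out ∈ K0 (Fin n) m N := by
      rw [mem_K0, ms_mul]
      have h3 := (Cg.refl m N (ms q.out⁻¹)).mul h1
      rw [ms_inv_mul] at h3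
      exact h3.symm
    rw [← QuotientGroup.eq, QuotientGroup.out_eq', QuotientGroup.out_eq'] at h2
    exact h2
  have hfin : Finite (FreeGroup (Fin n) ⧸ K0 (Fin n) m N) := Finite.of_injective F hF
  exact Subgroup.finiteIndex_of_finite_quotient

theorem T_KM : S_KM := by
  intro n m N hm
  obtain ⟨L, h1, h2, h3⟩ := exists_char (gen := (FreeGroup.of : Fin n → FreeGroup (Fin n)))
    (FreeGroup.closure_range_of (Fin n)) (K0 (Fin n) m N) (K0_finite n m N hm)
  exact ⟨L, h1, h2, fun x hx => mem_K0.1 (h3 hx)⟩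

end Pool.Agent.H808.AB

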