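import Pool.Agent.H751.AB.Stm2

/-! Task STAB (helper740): the chain of the groups `A ⊓ Lv i` becomes inner. -/

set_option autoImplicit false

namespace Pool.Agent.H740.AB

open Pool.Agent.H751.AB
open Pool.Agent.H751.AB.NC

/-- the chain lemma for a group with abelian quotient -/
theorem chain_group (h2 : S_CHAIN) (G : Type) [Group G] (hfg : Group.FG G) (I : Subgroup G)
    [I.Normal] (hcomm : ∀ a b : G, a * b * a⁻¹ * b⁻¹ ∈ I) (P : ℕ → Subgroup G)
    (hIP : ∀ i, I ≤ P i) (hanti : ∀ i, P (i + 1) ≤ P i)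
    (hpure : ∀ (i k : ℕ) (a : G), k ≠ 0 → a ∈ P i → a ^ k ∈ P (i + 1) → a ∈ P (i + 1))
    (hint : ∀ a, (∀ i, a ∈ P i) → a ∈ I) : ∃ c, P c ≤ I := by
  letI : CommGroup (G ⧸ I) :=
    { (inferInstance : Group (G ⧸ I)) with
      mul_comm := by
        intro x y
        induction x using QuotientGroup.induction_on with
        | H a =>
        induction y using QuotientGroup.induction_on with
        | H b =>
        rw [← QuotientGroup.mk_mul, ← QuotientGroup.mk_mul, QuotientGroup.eq]
        have h := hcomm b⁻¹ a⁻¹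
        rw [inv_inv, inv_inv] at h
        rw [mul_inv_rev, ← mul_assoc]
        exact h }
  haveI : Group.FG (G ⧸ I) := QuotientGroup.fg I
  haveI : AddGroup.FG (Additive (G ⧸ I)) := inferInstance
  haveI : Module.Finite ℤ (Additive (G ⧸ I)) := Module.Finite.iff_addGroup_fg.2 inferInstance
  have hmem : ∀ (i : ℕ) (a : G),
      ((QuotientGroup.mk a : G ⧸ I) ∈ (P i).map (QuotientGroup.mk' I)) ↔ a ∈ P i := by
    intro i a
    constructor
    · rintro ⟨b, hb, hba⟩
      have h1 : b⁻¹ * a ∈ I := QuotientGroup.eq.1 hba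
      have h3 : b * (b⁻¹ * a) ∈ P i := mul_mem hb (hIP i h1)
      rwa [mul_inv_cancel_left] at h3
    · intro ha
      exact ⟨a, ha, rfl⟩
  have key := h2 (Additive (G ⧸ I)) (fun i => Subgroup.toAddSubgroup ((P i).map (QuotientGroup.mk' I)))
    (by
      intro i x hx
      obtain ⟨a, ha⟩ := QuotientGroup.mk_surjective x.toMul
      have hx' : x.toMul ∈ (P (i + 1)).map (QuotientGroup.mk' I) := hx
      show x.toMul ∈ (P i).map (QuotientGroup.mk' I)
      rw [← ha, hmem] at hx' ⊢
      exact hanti i hx')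
    (by
      intro i k x hk hx hkx
      obtain ⟨a, ha⟩ := QuotientGroup.mk_surjective x.toMul
      have hx' : x.toMul ∈ (P i).map (QuotientGroup.mk' I) := hx
      have hkx' : x.toMul ^ k ∈ (P (i + 1)).map (QuotientGroup.mk' I) := hkx
      show x.toMul ∈ (P (i + 1)).map (QuotientGroup.mk' I)
      rw [← ha, hmem] at hx' ⊢
      rw [← ha, ← QuotientGroup.mk_zpow, hmem] at hkx'
      refine hpure i k.natAbs a (Int.natAbs_ne_zero.2 hk) hx' ?_
      rcases Int.natAbs_eq k with h | h
      · rw [h, zpow_natCast] at hkx'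
        exact hkx'
      · rw [h, zpow_neg, zpow_natCast] at hkx'
        exact inv_mem_iff.1 hkx')
    (by
      intro x hx
      obtain ⟨a, ha⟩ := QuotientGroup.mk_surjective x.toMul
      have h3 : a ∈ I := hint a fun i => by
        have h4 : x.toMul ∈ (P i).map (QuotientGroup.mk' I) := hx i
        rwa [← ha, hmem] at h4
      have h5 : x.toMul = 1 := by
        rw [← ha]
        exact (QuotientGroup.eq_one_iff a).2 h3
      exact h5)
  obtain ⟨c, hc⟩ := key
  refine ⟨c, fun a ha => ?_⟩
  have h3 := hc (Additive.ofMul (QuotientGroup.mk a : G ⧸ I)) ((hmem c a).2 ha)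
  exact (QuotientGroup.eq_one_iff a).1 h3

/-- **STAB.** -/
theorem T_STAB (h1 : S_CU) (h2 : S_CHAIN) : S_STAB := by
  intro n hn A hIA hA hfg hcomm
  have hne : ∀ a : Fin n, ∃ b : Fin n, b ≠ a := by
    intro a
    by_cases h : a.1 = 0
    · refine ⟨⟨1, by omega⟩, fun e => ?_⟩
      have := congrArg Fin.val e
      simp only at this
      omega
    · refine ⟨⟨0, by omega⟩, fun e => ?_⟩
      have := congrArg Fin.val e
      simp only at this
      omega
  have hInnLv : ∀ i, Inn (Fin n) ≤ Lv (Fin n) i := by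
    rintro i _ ⟨g, rfl⟩
    exact conj_mem_Lv i g
  haveI : ((Inn (Fin n)).subgroupOf A).Normal := by
    constructor
    rintro ⟨α, hα⟩ ⟨g, hg⟩ ⟨β, hβ⟩
    refine ⟨β g, ?_⟩
    have hg' : (MulAut.conj g : MulAut (FreeGroup (Fin n))) = α := hg
    show (MulAut.conj (β g) : MulAut (FreeGroup (Fin n))) = β * α * β⁻¹
    rw [← hg']
    ext x : 1
    simp only [MulAut.conj_apply, MulAut.mul_apply, map_mul, map_inv, MulAut.apply_inv_self]
  have hfg' : Group.FG A := (Group.fg_iff_subgroup_fg A).2 hfg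
  obtain ⟨c, hc⟩ := chain_group h2 A hfg' ((Inn (Fin n)).subgroupOf A)
    (fun a b => hcomm a.1 a.2 b.1 b.2) (fun i => (Lv (Fin n) (i + 1)).subgroupOf A)
    (fun i x hx => hInnLv (i + 1) hx) (fun i x hx => Lv_anti (i + 1) hx)
    (fun i k a hk ha hak => torsion_free (by omega) hne (hA a.2) ha hk hak)
    (fun a ha => by
      obtain ⟨g, hg⟩ := h1 (Fin n) ⟨0, by omega⟩ ⟨1, by omega⟩
        (fun e => by
          have := congrArg Fin.val e
          simp only at this
          omega) a.1
        (fun i => by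
          cases i with
          | zero => exact Lv_anti 0 (ha 0)
          | succ i => exact ha i)
      exact ⟨g, hg.symm⟩)
  exact ⟨c + 1, by omega, fun α hα => hc (show (⟨α, hα.1⟩ : A) ∈ _ from hα.2)⟩

end Pool.Agent.H740.AB
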