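import Pool.Agent.H751.AB.Stm2

/-! STEP: the induction step along the layers (helper738). -/

set_option autoImplicit false

namespace Pool.Agent.H738.AB

open Pool.Agent.H751.AB NC

/-- powers of automorphisms act trivially on a given characteristic quotient which is finite -/
theorem exists_trivial {G : Type} [Group G] (K : Subgroup G) [K.Characteristic] [K.FiniteIndex] :
    ∃ e : ℕ, 0 < e ∧ ∀ (β : MulAut G) (c : ℕ) (x : G), (β ^ (e * c)) x * x⁻¹ ∈ K := by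
  classical
  have hfin : Finite (G ⧸ K) := inferInstance
  have hN : K.Normal := inferInstance
  refine ⟨Nat.card (Equiv.Perm (G ⧸ K)), Nat.card_pos, fun β c x => ?_⟩
  have hβ : K.map (β : G →* G) = K :=
    Subgroup.characteristic_iff_map_eq.1 inferInstance β
  let p : Equiv.Perm (G ⧸ K) := (QuotientGroup.congr K K β hβ).toEquiv
  have hp : ∀ y : G, p (y : G ⧸ K) = ((β y : G) : G ⧸ K) := fun y => rfl
  have hpow : ∀ (j : ℕ) (y : G), (p ^ j) (y : G ⧸ K) = (((β ^ j) y : G) : G ⧸ K) := by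
    intro j
    induction j with
    | zero => intro y; rfl
    | succ j ih =>
      intro y
      rw [pow_succ, Equiv.Perm.mul_apply, hp, ih, pow_succ, MulAut.mul_apply]
  have h1 : p ^ (Nat.card (Equiv.Perm (G ⧸ K)) * c) = 1 := by
    rw [pow_mul, pow_card_eq_one', one_pow]
  have h2 := hpow (Nat.card (Equiv.Perm (G ⧸ K)) * c) x
  rw [h1, Equiv.Perm.one_apply] at h2
  rw [← hN.mem_comm_iff]
  exact QuotientGroup.eq.1 h2

/-- the defects of the elements of a group -/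
noncomputable def dS {n : ℕ} (A : Subgroup (MulAut (FreeGroup (Fin n)))) (hA : A ≤ IA (Fin n))
    (i : ℕ) : AddSubgroup (Fin n → List.Vector (Fin n) (i + 1) → ℤ) where
  carrier := {s | ∃ β ∈ A ⊓ Lv (Fin n) i, Rel i β s}
  zero_mem' := ⟨1, one_mem _, Rel.one i⟩
  add_mem' := by
    rintro s t ⟨β, hβ, h⟩ ⟨γ, hγ, h'⟩
    exact ⟨β * γ, mul_mem hβ hγ, h.mul h' (hA hγ.1)⟩
  neg_mem' := by
    rintro s ⟨β, hβ, h⟩
    exact ⟨β⁻¹, inv_mem hβ, h.inv (hA hβ.1)⟩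

/-- STEP. -/
theorem T_STEP (h1 : S_KM) (h2 : S_TORS) : S_STEP := by
  intro n hn A hA i hi hfull B hInn hB
  have hB' : B.relIndex (A ⊓ Lv (Fin n) (i + 1)) ≠ 0 := by
    intro h0
    exact hB (Subgroup.relIndex_eq_zero_of_le_right (inf_le_inf_left A (Lv_anti i)) h0)
  obtain ⟨K1, hK1c, hK1f, hK1⟩ := hfull B hInn hB'
  obtain ⟨e2, he2, hU⟩ := exists_trivial K1
  obtain ⟨k, hk, hS⟩ := h2 _ (dS A hA i)
  let e1 : ℕ := (B.relIndex (A ⊓ Lv (Fin n) i)).factorial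
  have he1 : 0 < e1 := Nat.factorial_pos _
  have hpB : ∀ β ∈ A ⊓ Lv (Fin n) i, β ^ e1 ∈ B := fun β hβ =>
    (Subgroup.pow_mem_of_relIndex_ne_zero_of_dvd hB hβ fun m hm hm' =>
      Nat.dvd_factorial hm hm').1
  have hm0 : (((e2 * e1) * k : ℕ) : ℤ) ≠ 0 := by
    have : 0 < (e2 * e1) * k := Nat.mul_pos (Nat.mul_pos he2 he1) hk
    exact_mod_cast this.ne'
  obtain ⟨K2, hK2c, hK2f, hK2⟩ := h1 n (((e2 * e1) * k : ℕ) : ℤ) (i + 2) hm0
  refine ⟨K1 ⊓ K2, inferInstance, inferInstance, fun α hα htriv => ?_⟩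
  obtain ⟨t, ht⟩ := exists_rel hα.2
  have hcg : ∀ x, Cg (((e2 * e1) * k : ℕ) : ℤ) (i + 2) (ms (α x)) (ms x) := by
    intro x
    have h3 := (hK2 _ (htriv x).2).mul (Cg.refl (((e2 * e1) * k : ℕ) : ℤ) (i + 2) (ms x))
    rw [← ms_mul, inv_mul_cancel_right, one_mul] at h3
    exact h3
  obtain ⟨s, hs⟩ := ht.of_trivial hi hcg
  obtain ⟨β, hβ, hβs⟩ : k • s ∈ dS A hA i := hS s _ hm0 ⟨α, hα, hs⟩
  have hβe : Rel i (β ^ (e2 * e1)) ((((e2 * e1) * k : ℕ) : ℤ) • s) := by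
    have h4 := hβs.pow (hA hβ.1) (e2 * e1)
    rw [smul_smul] at h4
    rw [natCast_zsmul]
    exact h4
  have hβA : β ^ (e2 * e1) ∈ A ⊓ Lv (Fin n) i := pow_mem hβ _
  have h5 : Rel i (α * (β ^ (e2 * e1))⁻¹) 0 := by
    have h6 := hs.mul (hβe.inv (hA hβA.1)) ((IA (Fin n)).inv_mem (hA hβA.1))
    rw [add_neg_cancel] at h6
    exact h6
  have h7 : α * (β ^ (e2 * e1))⁻¹ ∈ A ⊓ Lv (Fin n) (i + 1) :=
    ⟨A.mul_mem hα.1 (A.inv_mem hβA.1), h5.up⟩
  have h8 : α * (β ^ (e2 * e1))⁻¹ ∈ B := by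
    refine hK1 _ h7 fun x => ?_
    have h9 := (htriv ((β ^ (e2 * e1))⁻¹ x)).1
    have h10 := hU β e1 ((β ^ (e2 * e1))⁻¹ x)
    rw [MulAut.apply_inv_self] at h10
    have h11 := K1.mul_mem h9 (K1.inv_mem h10)
    rw [mul_inv_rev, inv_inv, mul_assoc, inv_mul_cancel_left] at h11
    exact h11
  have h12 : β ^ (e2 * e1) ∈ B := by
    rw [mul_comm, pow_mul]
    exact pow_mem (hpB β hβ) _
  have h13 := mul_mem h8 h12
  rw [inv_mul_cancel_right] at h13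
  exact h13

end Pool.Agent.H738.AB
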