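import Pool.Agent.H751.AB.Mag

/-! Project AB of helper751, part TRC: the trace property. -/

set_option autoImplicit false

namespace Pool.Agent.H367.AB

open Pool.Agent.H751.AB

theorem shift (n : ℕ) (h : ℕ → ℤ) (hp : ∀ k, h (k + n) = h k) (l : ℕ) :
    ∑ k ∈ Finset.range n, h (k + l) = ∑ k ∈ Finset.range n, h k := by
  induction l with
  | zero => rfl
  | succ l ih =>
    rw [← ih]
    have h1 := Finset.sum_range_succ (fun k => h (k + l)) n
    have h2 := Finset.sum_range_succ' (fun k => h (k + l)) n
    have h3 : h (n + l) = h (0 + l) := by rw [zero_add, add_comm, hp]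
    have e : ∀ k, h (k + (l + 1)) = h (k + 1 + l) := fun k => by
      rw [show k + (l + 1) = k + 1 + l by omega]
    simp only [e]
    linarith

variable {ι : Type}

theorem rot_facts (W : List ι) (k l : ℕ) (hl : l ≤ W.length) :
    (W.rotate (k + l)).take (W.length - l) = (W.rotate k).drop l ∧
      (W.rotate (k + l)).drop (W.length - l) = (W.rotate k).take l := by
  have h1 : W.rotate (k + l) = (W.rotate k).drop l ++ (W.rotate k).take l := by
    rw [← List.rotate_rotate, List.rotate_eq_drop_append_take (by rwa [List.length_rotate])]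
  have h2 : ((W.rotate k).drop l).length = W.length - l := by
    rw [List.length_drop, List.length_rotate]
  rw [h1]
  exact ⟨List.take_left' h2, List.drop_left' h2⟩

theorem rot_period (W : List ι) (k : ℕ) : W.rotate (k + W.length) = W.rotate k := by
  rw [← List.rotate_rotate, ← List.length_rotate (l := W) (n := k)]
  exact List.rotate_length _

theorem tr_eq (W : List ι) (f g : NC ι) : tr W (f * g) =
    ∑ l ∈ Finset.range (W.length + 1), ∑ k ∈ Finset.range W.length,
      f ((W.rotate k).take l) * g ((W.rotate k).drop l) := by
  unfold tr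
  rw [Finset.sum_comm]
  refine Finset.sum_congr rfl fun k _ => ?_
  rw [NC.mul_eq_sum, List.length_rotate]

theorem T_TRC : S_TRC := by
  intro ι W f g
  rw [tr_eq, tr_eq]
  rw [← Finset.sum_flip]
  refine Finset.sum_congr rfl fun l hl => ?_
  have hl' : l ≤ W.length := by
    rw [Finset.mem_range] at hl
    omega
  -- the right side, shifted by `l`
  have h1 := shift W.length
    (fun k => g ((W.rotate k).take l) * f ((W.rotate k).drop l))
    (fun k => by simp only [rot_period]) (W.length - l)
  rw [← h1]
  refine Finset.sum_congr rfl fun k _ => ?_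
  obtain ⟨h2, h3⟩ := rot_facts W k (W.length - l) (Nat.sub_le _ _)
  rw [Nat.sub_sub_self hl'] at h2 h3
  rw [h2, h3, mul_comm]

end Pool.Agent.H367.AB
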