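import Pool.Agent.H751.AB.Stm2

/-! Statements of the parts (IV). -/

set_option autoImplicit false

namespace Pool.Agent.H751.AB

/-- `A` contains the inner automorphisms, is finitely generated, and its image in `Out (F_n)` is
abelian -/
def AbOut {n : ℕ} (A : Subgroup (MulAut (FreeGroup (Fin n)))) : Prop :=
  Inn (Fin n) ≤ A ∧ A.FG ∧ ∀ a ∈ A, ∀ b ∈ A, a * b * a⁻¹ * b⁻¹ ∈ Inn (Fin n)

/-- FGI: subgroups of `A` containing the inner automorphisms are finitely generated -/
def S_FGI : Prop := ∀ (n : ℕ) (A B : Subgroup (MulAut (FreeGroup (Fin n)))), AbOut A →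
  Inn (Fin n) ≤ B → B ≤ A → AbOut B

/-- VA: from abelian to virtually abelian subgroups of `Out (F_n)` -/
def S_VA : Prop := ∀ n : ℕ,
  (∀ A : Subgroup (MulAut (FreeGroup (Fin n))), AbOut A → Full A) →
  ∀ A A₀ : Subgroup (MulAut (FreeGroup (Fin n))), AbOut A₀ → A₀ ≤ A → A₀.relIndex A ≠ 0 → Full A

end Pool.Agent.H751.AB
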