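import Pool.Agent.H751.AB.P_SYL
import Pool.Agent.H751.AB.P_COEF
import Pool.Agent.H751.AB.P_TRC
import Pool.Agent.H751.AB.P_CONJ
import Pool.Agent.H751.AB.P_CHAIN
import Pool.Agent.H751.AB.P_TORS
import Pool.Agent.H751.AB.P_KM
import Pool.Agent.H751.AB.P_STAB
import Pool.Agent.H751.AB.P_TOP
import Pool.Agent.H751.AB.P_ABM
import Pool.Agent.H751.AB.P_CU
import Pool.Agent.H751.AB.P_STEP
import Pool.Agent.H751.AB.Stm4

/-! The congruence property for subgroups of `Aut (F_n)` with abelian image in `Out (F_n)`. -/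

set_option autoImplicit false

namespace Pool.Agent.H751.AB

open NC

theorem conj : S_CONJ := H279.AB.T_CONJ H307.AB.SYL.T_SYL H675.AB.T_COEF H367.AB.T_TRC
theorem inj : S_INJ := H279.AB.T_INJ H307.AB.SYL.T_SYL H675.AB.T_COEF
theorem cu : S_CU := H640.AB.T_CU conj inj H367.AB.T_TRC
theorem stab : S_STAB := H740.AB.T_STAB cu H42.AB.CHAIN.T_CHAIN
theorem step : S_STEP := H738.AB.T_STEP H808.AB.T_KM H152.AB.T_TORS

theorem inn_le_IA (n : ℕ) : Inn (Fin n) ≤ IA (Fin n) := by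
  rintro _ ⟨g, rfl⟩
  exact conj_mem_IA g

/-- the part acting trivially on the abelianization -/
theorem full_torelli (n : ℕ) (hn : 2 ≤ n) (A : Subgroup (MulAut (FreeGroup (Fin n))))
    (h : AbOut A) (hA : A ≤ IA (Fin n)) : Full A := by
  obtain ⟨c, hc, hcI⟩ := stab n hn A h.1 hA h.2.1 h.2.2
  have key : ∀ d : ℕ, ∀ i : ℕ, 1 ≤ i → i + d = c → Full (A ⊓ Lv (Fin n) i) := by
    intro d
    induction d with
    | zero =>
      intro i hi hid B hB _
      have : i = c := by omega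
      subst this
      exact ⟨⊤, inferInstance, inferInstance, fun α hα _ => hB (hcI hα)⟩
    | succ d ih =>
      intro i hi hid
      exact step n hn A hA i hi (ih (i + 1) (by omega) (by omega))
  have h1 := key (c - 1) 1 le_rfl (by omega)
  have e : A ⊓ Lv (Fin n) 1 = A := inf_eq_left.2 (hA.trans IA_le_Lv)
  rwa [e] at h1

theorem full_ab (hchev : S_CHEV) (hfgi : S_FGI) (n : ℕ) (hn : 2 ≤ n)
    (A : Subgroup (MulAut (FreeGroup (Fin n)))) (h : AbOut A) : Full A := by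
  have h1 : AbOut (A ⊓ IA (Fin n)) :=
    hfgi n A _ h (le_inf h.1 (inn_le_IA n)) inf_le_left
  refine H264.AB.T_TOP n A (full_torelli n hn _ h1 inf_le_right) ?_
  intro D hD hDA
  obtain ⟨Φ, hker, hΦ⟩ := H784.AB.T_ABM n
  have hcomm : ∀ a ∈ A.map Φ, ∀ b ∈ A.map Φ, a * b = b * a := by
    rintro _ ⟨a, ha, rfl⟩ _ ⟨b, hb, rfl⟩
    have h2 : a * b * a⁻¹ * b⁻¹ ∈ Φ.ker := by
      rw [hker]; exact inn_le_IA n (h.2.2 a ha b hb)
    rw [MonoidHom.mem_ker, map_mul, map_mul, map_mul, map_inv, map_inv, mul_inv_eq_one,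
      mul_inv_eq_iff_eq_mul] at h2
    exact h2
  have hidx : (D.map Φ).relIndex (A.map Φ) ≠ 0 := by
    have h3 : ((D.subgroupOf A).map (Φ.subgroupMap A)).index ∣ (D.subgroupOf A).index :=
      Subgroup.index_map_dvd _ (Φ.subgroupMap_surjective A)
    have h4 : (D.subgroupOf A).map (Φ.subgroupMap A) ≤ (D.map Φ).subgroupOf (A.map Φ) := by
      rintro _ ⟨a, ha, rfl⟩
      rw [Subgroup.mem_subgroupOf]
      exact ⟨a, Subgroup.mem_subgroupOf.1 ha, rfl⟩
    have h5 := (Subgroup.index_dvd_of_le h4).trans h3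
    intro h6
    have h7 : ((D.map Φ).subgroupOf (A.map Φ)).index = 0 := h6
    rw [h7] at h5
    exact hDA (Nat.eq_zero_of_zero_dvd h5)
  obtain ⟨N, hN, hND⟩ := hchev n (A.map Φ) hcomm (D.map Φ) hidx
  obtain ⟨K, hK1, hK2, hK⟩ := hΦ N hN
  refine ⟨K, hK1, hK2, fun α hα ht => ?_⟩
  obtain ⟨d, hd, hdα⟩ := hND (Φ α) ⟨α, hα, rfl⟩ (hK α ht)
  have h6 : d⁻¹ * α ∈ Φ.ker := by
    rw [MonoidHom.mem_ker, map_mul, map_inv, hdα, inv_mul_cancel]
  rw [hker] at h6
  have := D.mul_mem hd (hD h6)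
  rwa [mul_inv_cancel_left] at this

end Pool.Agent.H751.AB
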