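import Mathlib

/-! Noncommutative power series with integral coefficients, as functions on words. -/

set_option autoImplicit false

namespace Pool.Agent.H751.AB

/-- noncommutative formal power series in the letters `ι` with integral coefficients -/
def NC (ι : Type) := List ι → ℤ

namespace NC

variable {ι : Type}

instance : AddCommGroup (NC ι) := inferInstanceAs (AddCommGroup (List ι → ℤ))

@[ext] theorem ext {f g : NC ι} (h : ∀ w : List ι, f w = g w) : f = g := funext h

theorem add_apply (f g : NC ι) (w : List ι) : (f + g) w = f w + g w := rfl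
theorem sub_apply (f g : NC ι) (w : List ι) : (f - g) w = f w - g w := rfl
theorem neg_apply (f : NC ι) (w : List ι) : (-f) w = -f w := rfl
theorem zero_apply (w : List ι) : (0 : NC ι) w = 0 := rfl

/-- the left transduction by a letter -/
def dl (a : ι) (f : NC ι) : NC ι := fun w => f (a :: w)

/-- the coefficient of a word in a product -/
def conv : List ι → NC ι → NC ι → ℤ
  | [], f, g => f [] * g []
  | a :: w, f, g => f [] * g (a :: w) + conv w (dl a f) g

instance : Mul (NC ι) := ⟨fun f g w => conv w f g⟩

/-- the unit series -/
def one' : NC ι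
  | [] => 1
  | _ :: _ => 0

instance : One (NC ι) := ⟨one'⟩

theorem mul_nil (f g : NC ι) : (f * g) [] = f [] * g [] := rfl

theorem mul_cons (f g : NC ι) (a : ι) (w : List ι) :
    (f * g) (a :: w) = f [] * g (a :: w) + (dl a f * g) w := rfl

theorem one_nil : (1 : NC ι) [] = 1 := rfl
theorem one_cons (a : ι) (w : List ι) : (1 : NC ι) (a :: w) = 0 := rfl

theorem dl_add (a : ι) (f g : NC ι) : dl a (f + g) = dl a f + dl a g := rfl
theorem dl_one (a : ι) : dl a (1 : NC ι) = 0 := rfl

protected theorem left_distrib' (f g h : NC ι) : f * (g + h) = f * g + f * h := by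
  refine ext fun w => ?_
  induction w generalizing f with
  | nil => simp only [mul_nil, add_apply]; ring
  | cons a w ih =>
    rw [add_apply, mul_cons, mul_cons, mul_cons, ih, add_apply, add_apply]; ring

protected theorem right_distrib' (f g h : NC ι) : (f + g) * h = f * h + g * h := by
  refine ext fun w => ?_
  induction w generalizing f g with
  | nil => simp only [mul_nil, add_apply]; ring
  | cons a w ih =>
    rw [add_apply, mul_cons, mul_cons, mul_cons, dl_add, ih, add_apply, add_apply]; ring

protected theorem zero_mul' (f : NC ι) : 0 * f = 0 := by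
  refine ext fun w => ?_
  induction w with
  | nil => simp [mul_nil, zero_apply]
  | cons a w ih =>
    rw [mul_cons, zero_apply, zero_apply, zero_mul, zero_add]
    exact ih

protected theorem mul_zero' (f : NC ι) : f * 0 = 0 := by
  refine ext fun w => ?_
  induction w generalizing f with
  | nil => simp [mul_nil, zero_apply]
  | cons a w ih =>
    rw [mul_cons, ih]; simp [zero_apply]

protected theorem one_mul' (f : NC ι) : 1 * f = f := by
  refine ext fun w => ?_
  cases w with
  | nil => simp [mul_nil, one_nil]
  | cons a w => rw [mul_cons, dl_one, NC.zero_mul', one_nil, zero_apply]; ring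

protected theorem mul_one' (f : NC ι) : f * 1 = f := by
  refine ext fun w => ?_
  induction w generalizing f with
  | nil => simp [mul_nil, one_nil]
  | cons a w ih => rw [mul_cons, ih, one_cons]; simp [dl]

/-- scalar multiple -/
def sc (c : ℤ) (f : NC ι) : NC ι := fun w => c * f w

theorem sc_mul (c : ℤ) (f g : NC ι) (w : List ι) : (sc c f * g) w = c * (f * g) w := by
  induction w generalizing f with
  | nil => simp only [mul_nil, sc]; ring
  | cons a w ih =>
    have h : dl a (sc c f) = sc c (dl a f) := rfl
    rw [mul_cons, mul_cons, h, ih]; simp only [sc]; ring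

theorem dl_mul (a : ι) (f g : NC ι) : dl a (f * g) = sc (f []) (dl a g) + dl a f * g := by
  refine ext fun w => ?_
  show (f * g) (a :: w) = _
  rw [mul_cons, add_apply]; rfl

protected theorem mul_assoc' (f g h : NC ι) : f * g * h = f * (g * h) := by
  refine ext fun w => ?_
  induction w generalizing f with
  | nil => simp only [mul_nil]; ring
  | cons a w ih =>
    rw [mul_cons, mul_cons f, dl_mul, NC.right_distrib', add_apply, sc_mul, ih, mul_nil, mul_cons g]
    ring

instance : Ring (NC ι) where
  __ := (inferInstance : AddCommGroup (NC ι))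
  left_distrib := NC.left_distrib'
  right_distrib := NC.right_distrib'
  zero_mul := NC.zero_mul'
  mul_zero := NC.mul_zero'
  mul_assoc := NC.mul_assoc'
  one_mul := NC.one_mul'
  mul_one := NC.mul_one'

/-- the product as a sum over the decompositions of the word -/
theorem mul_eq_sum (f g : NC ι) (w : List ι) :
    (f * g) w = ∑ k ∈ Finset.range (w.length + 1), f (w.take k) * g (w.drop k) := by
  induction w generalizing f with
  | nil => simp [mul_nil]
  | cons a w ih =>
    rw [mul_cons, ih, List.length_cons, Finset.sum_range_succ' _ (w.length + 1)]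
    simp only [List.take_succ_cons, List.drop_succ_cons, List.take_zero, List.drop_zero, dl]
    ring

/-- congruence modulo `m` and the words of length at least `N` -/
def Cg (m : ℤ) (N : ℕ) (f g : NC ι) : Prop := ∀ w : List ι, w.length < N → m ∣ f w - g w

theorem Cg.refl (m : ℤ) (N : ℕ) (f : NC ι) : Cg m N f f := fun w _ => by simp

theorem Cg.symm {m : ℤ} {N : ℕ} {f g : NC ι} (h : Cg m N f g) : Cg m N g f := fun w hw => by
  have := (h w hw).neg_right; rwa [neg_sub] at this

theorem Cg.trans {m : ℤ} {N : ℕ} {f g k : NC ι} (h : Cg m N f g) (h' : Cg m N g k) :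
    Cg m N f k := fun w hw => by
  have := dvd_add (h w hw) (h' w hw); rwa [sub_add_sub_cancel] at this

theorem Cg.add {m : ℤ} {N : ℕ} {f g f' g' : NC ι} (h : Cg m N f g) (h' : Cg m N f' g') :
    Cg m N (f + f') (g + g') := fun w hw => by
  have e : f w + f' w - (g w + g' w) = (f w - g w) + (f' w - g' w) := by ring
  rw [add_apply, add_apply, e]
  exact dvd_add (h w hw) (h' w hw)

theorem Cg.neg {m : ℤ} {N : ℕ} {f g : NC ι} (h : Cg m N f g) : Cg m N (-f) (-g) := fun w hw => by
  have e : -f w - -g w = -(f w - g w) := by ring
  rw [neg_apply, neg_apply, e]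
  exact (h w hw).neg_right

theorem Cg.sub {m : ℤ} {N : ℕ} {f g f' g' : NC ι} (h : Cg m N f g) (h' : Cg m N f' g') :
    Cg m N (f - f') (g - g') := by
  rw [sub_eq_add_neg, sub_eq_add_neg]; exact h.add h'.neg

theorem Cg.mul {m : ℤ} {N : ℕ} {f g f' g' : NC ι} (h : Cg m N f g) (h' : Cg m N f' g') :
    Cg m N (f * f') (g * g') := fun w hw => by
  rw [mul_eq_sum, mul_eq_sum, ← Finset.sum_sub_distrib]
  refine Finset.dvd_sum fun k hk => ?_
  have h1 : (w.take k).length < N := by
    rw [List.length_take]; exact (min_le_right _ _).trans_lt hw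
  have h2 : (w.drop k).length < N := by
    rw [List.length_drop]; exact (Nat.sub_le _ _).trans_lt hw
  have e : f (w.take k) * f' (w.drop k) - g (w.take k) * g' (w.drop k) =
      f (w.take k) * (f' (w.drop k) - g' (w.drop k)) +
        (f (w.take k) - g (w.take k)) * g' (w.drop k) := by ring
  rw [e]
  exact dvd_add ((h' _ h2).mul_left _) ((h _ h1).mul_right _)

theorem Cg.mono {m : ℤ} {N N' : ℕ} (hN : N' ≤ N) {f g : NC ι} (h : Cg m N f g) : Cg m N' f g :=
  fun w hw => h w (hw.trans_le hN)

theorem Cg.of_zero {m : ℤ} {N : ℕ} {f g : NC ι} (h : Cg 0 N f g) : Cg m N f g :=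
  fun w hw => by
    have := h w hw
    rw [zero_dvd_iff] at this
    rw [this]; exact dvd_zero _

theorem Cg.eq {N : ℕ} {f g : NC ι} (h : Cg 0 N f g) {w : List ι} (hw : w.length < N) :
    f w = g w := by
  have := h w hw
  rw [zero_dvd_iff] at this
  linarith

/-- products of series without terms of small degree -/
theorem mul_order {f g : NC ι} {a b : ℕ} (hf : ∀ w : List ι, w.length < a → f w = 0)
    (hg : ∀ w : List ι, w.length < b → g w = 0) (w : List ι) (hw : w.length < a + b) :
    (f * g) w = 0 := by
  rw [mul_eq_sum]
  refine Finset.sum_eq_zero fun k hk => ?_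
  rw [Finset.mem_range] at hk
  by_cases h : k < a
  · rw [hf _ (by rw [List.length_take]; exact (min_le_left _ _).trans_lt h), zero_mul]
  · rw [hg _ (by rw [List.length_drop]; omega), mul_zero]

/-- in the lowest degree a factor with constant term `1` has no effect (left) -/
theorem mul_low_left {f g : NC ι} {N : ℕ} (hf : f [] = 1)
    (hg : ∀ w : List ι, w.length < N → g w = 0) (w : List ι) (hw : w.length ≤ N) :
    (f * g) w = g w := by
  have h1 : ∀ w : List ι, w.length < 1 → (f - 1) w = 0 := by
    intro w hw
    have : w = [] := List.length_eq_zero_iff.1 (by omega)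
    subst this
    rw [sub_apply, hf, one_nil, sub_self]
  have h2 := mul_order h1 hg w (by omega)
  rw [sub_mul, one_mul, sub_apply] at h2
  linarith

/-- in the lowest degree a factor with constant term `1` has no effect (right) -/
theorem mul_low_right {f g : NC ι} {N : ℕ} (hf : f [] = 1)
    (hg : ∀ w : List ι, w.length < N → g w = 0) (w : List ι) (hw : w.length ≤ N) :
    (g * f) w = g w := by
  have h1 : ∀ w : List ι, w.length < 1 → (f - 1) w = 0 := by
    intro w hw
    have : w = [] := List.length_eq_zero_iff.1 (by omega)
    subst this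
    rw [sub_apply, hf, one_nil, sub_self]
  have h2 := mul_order hg h1 w (by omega)
  rw [mul_sub, mul_one, sub_apply] at h2
  linarith

theorem pow_order {v : NC ι} (hv : v [] = 0) (k : ℕ) (w : List ι) (hw : w.length < k) :
    (v ^ k) w = 0 := by
  induction k generalizing w with
  | zero => omega
  | succ k ih =>
    rw [pow_succ]
    refine mul_order (a := k) (b := 1) ih ?_ w (by omega)
    intro w hw
    have : w = [] := List.length_eq_zero_iff.1 (by omega)
    subst this
    exact hv

/-- series with constant term `1` are invertible -/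
theorem exists_inv {u : NC ι} (hu : u [] = 1) : ∃ v : NC ι, v [] = 1 ∧ u * v = 1 ∧ v * u = 1 := by
  set x : NC ι := 1 - u with hx
  have hx0 : x [] = 0 := by rw [hx, sub_apply, one_nil, hu, sub_self]
  let v : NC ι := fun w => (∑ k ∈ Finset.range (w.length + 1), x ^ k) w
  have hv : ∀ N : ℕ, ∀ w : List ι, w.length < N → v w = (∑ k ∈ Finset.range N, x ^ k) w := by
    intro N w hw
    have h : ∀ M : ℕ, w.length < M →
        (∑ k ∈ Finset.range M, x ^ k) w = (∑ k ∈ Finset.range (w.length + 1), x ^ k) w := by
      intro M
      induction M with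
      | zero => intro h; omega
      | succ M ih =>
        intro h
        by_cases h1 : w.length < M
        · rw [Finset.sum_range_succ, add_apply, pow_order hx0 M w h1, add_zero, ih h1]
        · have : M = w.length := by omega
          rw [this]
    exact (h N hw).symm
  have hcg : ∀ N : ℕ, Cg 0 N v (∑ k ∈ Finset.range N, x ^ k) := fun N w hw => by
    rw [hv N w hw, sub_self]
  have e1 : ∀ N : ℕ, u * (∑ k ∈ Finset.range N, x ^ k) = 1 - x ^ N := by
    intro N
    have := mul_neg_geom_sum x N
    rw [← this, hx, sub_sub_cancel]
  have e2 : ∀ N : ℕ, (∑ k ∈ Finset.range N, x ^ k) * u = 1 - x ^ N := by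
    intro N
    have := geom_sum_mul_neg x N
    rw [← this, hx, sub_sub_cancel]
  refine ⟨v, ?_, ?_, ?_⟩
  · rw [hv 1 [] (by simp)]
    simp [one_nil]
  · refine ext fun w => ?_
    have h1 := (Cg.refl 0 (w.length + 1) u).mul (hcg (w.length + 1))
    rw [h1.eq (Nat.lt_succ_self _), e1, sub_apply, pow_order hx0 _ w (Nat.lt_succ_self _), sub_zero]
  · refine ext fun w => ?_
    have h1 := (hcg (w.length + 1)).mul (Cg.refl 0 (w.length + 1) u)
    rw [h1.eq (Nat.lt_succ_self _), e2, sub_apply, pow_order hx0 _ w (Nat.lt_succ_self _), sub_zero]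

/-- a letter as a series -/
noncomputable def X (j : ι) : NC ι
  | [] => 0
  | a :: w => by classical exact if a = j ∧ w = [] then 1 else 0

theorem X_nil (j : ι) : X j [] = 0 := rfl

theorem X_cons (j a : ι) (w : List ι) [Decidable (a = j ∧ w = [])] :
    X j (a :: w) = if a = j ∧ w = [] then 1 else 0 := by
  simp only [X]; congr

/-- multiplication by a letter on the left -/
theorem X_mul_nil (j : ι) (f : NC ι) : (X j * f) [] = 0 := by rw [mul_nil, X_nil, zero_mul]

theorem X_mul_cons (j a : ι) (f : NC ι) (w : List ι) [Decidable (a = j)] :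
    (X j * f) (a :: w) = if a = j then f w else 0 := by
  rw [mul_cons, X_nil, zero_mul, zero_add]
  by_cases h : a = j
  · rw [if_pos h]
    have : dl a (X j) = 1 := by
      refine ext fun w => ?_
      show X j (a :: w) = _
      classical
      rw [X_cons]
      cases w with
      | nil => simp [h, one_nil]
      | cons b w => simp [one_cons]
    rw [this, one_mul]
  · rw [if_neg h]
    have : dl a (X j) = 0 := by
      refine ext fun w => ?_
      show X j (a :: w) = _
      classical
      rw [X_cons, if_neg (fun h' => h h'.1), zero_apply]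
    rw [this, zero_mul, zero_apply]

/-- multiplication by a letter on the right -/
theorem mul_X_nil (j : ι) (f : NC ι) : (f * X j) [] = 0 := by rw [mul_nil, X_nil, mul_zero]

theorem mul_X_concat (j a : ι) (f : NC ι) (w : List ι) [Decidable (a = j)] :
    (f * X j) (w ++ [a]) = if a = j then f w else 0 := by
  induction w generalizing f with
  | nil =>
    show (f * X j) [a] = _
    rw [mul_cons, mul_nil, X_nil, mul_zero, add_zero]
    classical
    rw [X_cons]
    by_cases h : a = j
    · simp [h]
    · simp [h]
  | cons b w ih =>
    rw [List.cons_append, mul_cons, ih]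
    classical
    rw [X_cons, if_neg (by simp)]
    simp [dl]

end NC

end Pool.Agent.H751.AB
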