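import Pool.Agent.H751.AB.Main

/-! The congruence property for subgroups of `Out (F_n)`. -/

set_option autoImplicit false

namespace Pool.Agent.H751.AB

instance inn_normal (ι : Type) : (Inn ι).Normal := by
  constructor
  rintro _ ⟨g, rfl⟩ α
  refine ⟨α g, ?_⟩
  ext x
  simp [MulAut.conj_apply, MulAut.mul_apply]

theorem inn_fg (n : ℕ) : (Inn (Fin n)).FG := by
  have h : Group.FG (MulAut.conj : FreeGroup (Fin n) →* MulAut (FreeGroup (Fin n))).range :=
    Group.fg_range _
  exact (Group.fg_iff_subgroup_fg _).1 h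

theorem abOut_comap {n : ℕ} (A : Subgroup (MulAut (FreeGroup (Fin n)) ⧸ Inn (Fin n)))
    (hfg : A.FG) (hab : ∀ a ∈ A, ∀ b ∈ A, a * b = b * a) :
    AbOut (A.comap (QuotientGroup.mk' (Inn (Fin n)))) := by
  classical
  have hI : Inn (Fin n) ≤ A.comap (QuotientGroup.mk' (Inn (Fin n))) := by
    intro α hα
    rw [Subgroup.mem_comap, QuotientGroup.mk'_apply, (QuotientGroup.eq_one_iff α).2 hα]
    exact A.one_mem
  refine ⟨hI, ?_, ?_⟩
  · obtain ⟨S, hS⟩ := hfg
    obtain ⟨T, hT⟩ := inn_fg n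
    let s : MulAut (FreeGroup (Fin n)) ⧸ Inn (Fin n) → MulAut (FreeGroup (Fin n)) := Quotient.out
    have hs : ∀ q, QuotientGroup.mk' (Inn (Fin n)) (s q) = q := fun q => Quotient.out_eq' q
    refine ⟨S.image s ∪ T, le_antisymm ?_ ?_⟩
    · rw [Subgroup.closure_le]
      intro α hα
      rw [Finset.coe_union, Finset.coe_image] at hα
      rcases hα with ⟨q, hq, rfl⟩ | hα
      · show QuotientGroup.mk' (Inn (Fin n)) (s q) ∈ A
        rw [hs, ← hS]
        exact Subgroup.subset_closure hq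
      · refine hI ?_
        rw [← hT]
        exact Subgroup.subset_closure hα
    · intro α hα
      have h1 : QuotientGroup.mk' (Inn (Fin n)) α ∈
          (Subgroup.closure (s '' (S : Set _))).map (QuotientGroup.mk' (Inn (Fin n))) := by
        rw [MonoidHom.map_closure, Set.image_image]
        have e : (fun q => QuotientGroup.mk' (Inn (Fin n)) (s q)) '' (S : Set _) = (S : Set _) := by
          simp only [hs, Set.image_id']
        rw [e, hS]
        exact hα
      obtain ⟨β, hβ, hβα⟩ := h1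
      have h2 : β⁻¹ * α ∈ Inn (Fin n) := by
        rw [QuotientGroup.mk'_apply, QuotientGroup.mk'_apply] at hβα
        exact QuotientGroup.eq.1 hβα
      have h3 : β ∈ Subgroup.closure ((S.image s ∪ T : Finset _) : Set _) := by
        refine Subgroup.closure_mono ?_ hβ
        rw [Finset.coe_union, Finset.coe_image]
        exact Set.subset_union_left
      have h4 : β⁻¹ * α ∈ Subgroup.closure ((S.image s ∪ T : Finset _) : Set _) := by
        have h5 : β⁻¹ * α ∈ Subgroup.closure (T : Set _) := by rw [hT]; exact h2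
        refine Subgroup.closure_mono ?_ h5
        rw [Finset.coe_union]
        exact Set.subset_union_right
      have := mul_mem h3 h4
      rwa [mul_inv_cancel_left] at this
  · intro a ha b hb
    have h1 := hab _ ha _ hb
    rw [← map_mul, ← map_mul, QuotientGroup.mk'_apply, QuotientGroup.mk'_apply,
      QuotientGroup.eq] at h1
    have h2 : a * b * a⁻¹ * b⁻¹ = ((b * a) * ((a * b)⁻¹ * (b * a))⁻¹ * (b * a)⁻¹) := by group
    rw [h2]
    exact (inn_normal (Fin n)).conj_mem _ (inv_mem h1) _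

/-- the final form -/
theorem out_form (hva : S_VA) (hchev : S_CHEV) (hfgi : S_FGI) (n : ℕ) (hn : 2 ≤ n)
    (A A₀ B : Subgroup (MulAut (FreeGroup (Fin n)) ⧸ Inn (Fin n))) (hA₀ : A₀ ≤ A)
    (hidx : A₀.relIndex A ≠ 0) (hfg : A₀.FG) (hab : ∀ a ∈ A₀, ∀ b ∈ A₀, a * b = b * a)
    (hB : B.relIndex A ≠ 0) : ∃ K : Subgroup (FreeGroup (Fin n)),
      K.Characteristic ∧ K.FiniteIndex ∧ ∀ α : MulAut (FreeGroup (Fin n)),
        QuotientGroup.mk' (Inn (Fin n)) α ∈ A →
        (∃ g : FreeGroup (Fin n), ∀ x, α x * (g * x * g⁻¹)⁻¹ ∈ K) →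
          QuotientGroup.mk' (Inn (Fin n)) α ∈ B := by
  set f := QuotientGroup.mk' (Inn (Fin n)) with hf
  have hsur : Function.Surjective f := QuotientGroup.mk'_surjective _
  have hrel : ∀ C : Subgroup (MulAut (FreeGroup (Fin n)) ⧸ Inn (Fin n)),
      (C.comap f).relIndex (A.comap f) = C.relIndex A := by
    intro C
    rw [Subgroup.relIndex_comap, Subgroup.map_comap_eq_self_of_surjective hsur]
  have hker : ∀ C : Subgroup (MulAut (FreeGroup (Fin n)) ⧸ Inn (Fin n)),
      Inn (Fin n) ≤ C.comap f := by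
    intro C α hα
    rw [Subgroup.mem_comap, hf, QuotientGroup.mk'_apply, (QuotientGroup.eq_one_iff α).2 hα]
    exact C.one_mem
  have h1 : Full (A.comap f) := by
    refine hva n (fun C hC => full_ab hchev hfgi n hn C hC) (A.comap f) (A₀.comap f)
      (abOut_comap A₀ hfg hab) (Subgroup.comap_mono hA₀) ?_
    rw [hrel]; exact hidx
  obtain ⟨K, hK1, hK2, hK⟩ := h1 (B.comap f) (hker B) (by rw [hrel]; exact hB)
  refine ⟨K, hK1, hK2, fun α hα ⟨g, hg⟩ => ?_⟩
  have hKn : K.Normal := inferInstance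
  have hcA : MulAut.conj g ∈ A.comap f := hker A ⟨g, rfl⟩
  have hcB : MulAut.conj g ∈ B.comap f := hker B ⟨g, rfl⟩
  have h2 : α * (MulAut.conj g)⁻¹ ∈ A.comap f := mul_mem hα (inv_mem hcA)
  have h3 : α * (MulAut.conj g)⁻¹ ∈ B.comap f := by
    refine hK _ h2 fun x => ?_
    have h4 := hg ((MulAut.conj g)⁻¹ x)
    have e : g * (MulAut.conj g)⁻¹ x * g⁻¹ = x := by
      rw [← MulAut.conj_apply, MulAut.apply_inv_self]
    rw [e] at h4
    exact h4
  have h5 := mul_mem h3 hcB
  rw [inv_mul_cancel_right] at h5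
  exact h5

end Pool.Agent.H751.AB
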