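import Pool.Agent.H751.AB.Mag

set_option autoImplicit false

namespace Pool.Agent.H736.AB

open Pool.Agent.H751.AB Finset

variable {n : ℕ}

/-- `A` is congruent to the identity modulo `N` -/
def Cg (N : ℤ) (A : Matrix (Fin n) (Fin n) ℤ) : Prop := ∀ i j, N ∣ (A - 1) i j

theorem cg_iff {N : ℤ} {A : Matrix (Fin n) (Fin n) ℤ} : Cg N A ↔ ∃ B, A = 1 + N • B := by
  constructor
  · intro h
    choose B hB using h
    refine ⟨Matrix.of B, ?_⟩
    have h2 : A - 1 = N • Matrix.of B := by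
      ext i j
      rw [hB i j]
      rfl
    rw [← h2]
    abel
  · rintro ⟨B, rfl⟩ i j
    refine ⟨B i j, ?_⟩
    have h2 : (1 + N • B - 1 : Matrix (Fin n) (Fin n) ℤ) = N • B := by abel
    rw [h2]
    rfl

theorem cg_one (N : ℤ) : Cg N (1 : Matrix (Fin n) (Fin n) ℤ) := by
  intro i j
  rw [sub_self]
  exact dvd_zero N

theorem cg_mul {N : ℤ} {A B : Matrix (Fin n) (Fin n) ℤ} (hA : Cg N A) (hB : Cg N B) :
    Cg N (A * B) := by
  obtain ⟨C, rfl⟩ := cg_iff.1 hA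
  obtain ⟨D, rfl⟩ := cg_iff.1 hB
  refine cg_iff.2 ⟨C + D + N • (C * D), ?_⟩
  simp only [mul_add, add_mul, one_mul, mul_one, smul_add, smul_mul_assoc, mul_smul_comm]
  abel

theorem cg_pow {N : ℤ} {A : Matrix (Fin n) (Fin n) ℤ} (hA : Cg N A) (k : ℕ) : Cg N (A ^ k) := by
  induction k with
  | zero => rw [pow_zero]; exact cg_one N
  | succ k ih => rw [pow_succ]; exact cg_mul ih hA

theorem cg_step {p i : ℕ} {A : Matrix (Fin n) (Fin n) ℤ} (h : Cg ((p : ℤ) ^ (i + 1)) A) :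
    Cg ((p : ℤ) ^ (i + 2)) (A ^ p) := by
  have h1 : ∀ k : ℕ, ∃ B, A ^ k = 1 + ((p : ℤ) ^ (i + 1)) • B := fun k => cg_iff.1 (cg_pow h k)
  choose B hB using h1
  have h2 : ∑ k ∈ range p, A ^ k = (p : ℤ) • (1 + ((p : ℤ) ^ i) • ∑ k ∈ range p, B k) := by
    have h3 : ∑ k ∈ range p, A ^ k = ∑ k ∈ range p, (1 + ((p : ℤ) ^ (i + 1)) • B k) :=
      Finset.sum_congr rfl fun k _ => hB k
    rw [h3, Finset.sum_add_distrib, ← Finset.smul_sum, Finset.sum_const, card_range, smul_add,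
      smul_smul, pow_succ, mul_comm ((p : ℤ) ^ i) (p : ℤ)]
    rw [natCast_zsmul]
  have h4 : A - 1 = ((p : ℤ) ^ (i + 1)) • B 1 := by
    have := hB 1
    rw [pow_one] at this
    rw [this]
    abel
  have h5 := mul_geom_sum A p
  rw [h2, h4, smul_mul_assoc, mul_smul_comm, smul_smul] at h5
  refine cg_iff.2 ⟨B 1 * (1 + ((p : ℤ) ^ i) • ∑ k ∈ range p, B k), ?_⟩
  have h6 : (p : ℤ) ^ (i + 2) = (p : ℤ) ^ (i + 1) * (p : ℤ) := by ring
  rw [h6, h5]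
  abel

theorem cg_iter {p : ℕ} {A : Matrix (Fin n) (Fin n) ℤ} (h : Cg ((p : ℤ) ^ 1) A) (j : ℕ) :
    Cg ((p : ℤ) ^ (j + 1)) (A ^ (p ^ j)) := by
  induction j with
  | zero => simpa using h
  | succ j ih =>
    rw [pow_succ p j, pow_mul]
    exact cg_step ih

/-- reduction modulo `N` -/
def red (N : ℕ) : (Matrix (Fin n) (Fin n) ℤ)ˣ →* (Matrix (Fin n) (Fin n) (ZMod N))ˣ :=
  Units.map ((Int.castRingHom (ZMod N)).mapMatrix : Matrix (Fin n) (Fin n) ℤ →+*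
    Matrix (Fin n) (Fin n) (ZMod N)).toMonoidHom

theorem red_eq_one (N : ℕ) (h : (Matrix (Fin n) (Fin n) ℤ)ˣ) :
    red N h = 1 ↔ Cg (N : ℤ) (h : Matrix (Fin n) (Fin n) ℤ) := by
  have e : ((red N h : (Matrix (Fin n) (Fin n) (ZMod N))ˣ) : Matrix (Fin n) (Fin n) (ZMod N)) =
      (Int.castRingHom (ZMod N)).mapMatrix (h : Matrix (Fin n) (Fin n) ℤ) := rfl
  have e1 : (1 : Matrix (Fin n) (Fin n) (ZMod N)) =
      (Int.castRingHom (ZMod N)).mapMatrix (1 : Matrix (Fin n) (Fin n) ℤ) := (map_one _).symm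
  rw [Units.ext_iff, e, Units.val_one, e1, ← sub_eq_zero, ← map_sub]
  constructor
  · intro hh i j
    have h1 := congrFun (congrFun hh i) j
    exact (CharP.intCast_eq_zero_iff (ZMod N) N _).1 h1
  · intro hh
    ext i j
    exact (CharP.intCast_eq_zero_iff (ZMod N) N _).2 (hh i j)

theorem cg_zpow_iff (N : ℕ) (g : (Matrix (Fin n) (Fin n) ℤ)ˣ) (k : ℤ) :
    Cg (N : ℤ) ((g ^ k : (Matrix (Fin n) (Fin n) ℤ)ˣ) : Matrix (Fin n) (Fin n) ℤ) ↔
      (orderOf (red N g) : ℤ) ∣ k := by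
  rw [← red_eq_one, map_zpow, orderOf_dvd_iff_zpow_eq_one]

theorem cg_pow_iff (N : ℕ) (g : (Matrix (Fin n) (Fin n) ℤ)ˣ) (k : ℕ) :
    Cg (N : ℤ) ((g : Matrix (Fin n) (Fin n) ℤ) ^ k) ↔ orderOf (red N g) ∣ k := by
  rw [← Units.val_pow_eq_pow_val, ← red_eq_one, map_pow, orderOf_dvd_iff_pow_eq_one]

theorem order_pos (N : ℕ) (hN : 0 < N) (g : (Matrix (Fin n) (Fin n) ℤ)ˣ) :
    0 < orderOf (red N g) := by
  have : NeZero N := ⟨hN.ne'⟩
  have : Finite (Matrix (Fin n) (Fin n) (ZMod N)) := inferInstanceAs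
    (Finite (Fin n → Fin n → ZMod N))
  exact orderOf_pos _

theorem nt_aux {p e j d M : ℕ} (hp : p.Prime) (hd0 : d ≠ 0) (hd : d ∣ M * p ^ j)
    (hn : ¬ p ^ e ∣ d) : d ∣ M * p ^ e := by
  obtain ⟨s, d', hd', rfl⟩ := Nat.exists_eq_pow_mul_and_not_dvd hd0 p hp.ne_one
  have hs : s ≤ e := by
    by_contra h
    push Not at h
    exact hn (Dvd.dvd.mul_right (pow_dvd_pow p h.le) d')
  have hcop : Nat.Coprime d' (p ^ j) :=
    Nat.Coprime.pow_right j ((Nat.Prime.coprime_iff_not_dvd hp).2 hd').symm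
  have h1 : d' ∣ M := hcop.dvd_of_dvd_mul_right ((Dvd.intro_left _ rfl).trans hd)
  rw [mul_comm M]
  exact mul_dvd_mul (pow_dvd_pow p hs) h1

/-- an integral matrix congruent to the identity modulo all powers of `p` is the identity -/
theorem eq_one_of_cg {p : ℕ} (hp : p.Prime) (A : Matrix (Fin n) (Fin n) ℤ)
    (h : ∀ j : ℕ, Cg ((p : ℤ) ^ (j + 1)) A) : A = 1 := by
  have h1 : A - 1 = 0 := by
    ext i j
    have h2 := h ((A - 1) i j).natAbs i j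
    refine Int.eq_zero_of_abs_lt_dvd h2 ?_
    have h3 : ((A - 1) i j).natAbs + 1 < p ^ (((A - 1) i j).natAbs + 1) :=
      Nat.lt_pow_self hp.one_lt
    have h4 : (((A - 1) i j).natAbs : ℤ) + 1 < (p : ℤ) ^ (((A - 1) i j).natAbs + 1) := by
      exact_mod_cast h3
    rw [Int.abs_eq_natAbs]
    linarith
  exact sub_eq_zero.1 h1

theorem prime_pow (g : (Matrix (Fin n) (Fin n) ℤ)ˣ) (hg : ¬ IsOfFinOrder g) (p e : ℕ)
    (hp : p.Prime) : ∃ N : ℕ, 0 < N ∧ ∀ k : ℤ,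
      Cg (N : ℤ) ((g ^ k : (Matrix (Fin n) (Fin n) ℤ)ˣ) : Matrix (Fin n) (Fin n) ℤ) →
        ((p ^ e : ℕ) : ℤ) ∣ k := by
  by_contra hcon
  push Not at hcon
  have hpj : ∀ j : ℕ, 0 < p ^ (j + 1) := fun j => pow_pos hp.pos _
  have h1 : ∀ j : ℕ, ¬ p ^ e ∣ orderOf (red (p ^ (j + 1)) g) := by
    intro j hdiv
    obtain ⟨k, hk1, hk2⟩ := hcon (p ^ (j + 1)) (hpj j)
    rw [cg_zpow_iff] at hk1
    exact hk2 ((Int.natCast_dvd_natCast.2 hdiv).trans hk1)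
  have hcast : ∀ j : ℕ, ((p ^ (j + 1) : ℕ) : ℤ) = (p : ℤ) ^ (j + 1) := fun j => by push_cast; rfl
  have h0 : Cg ((p : ℤ) ^ 1)
      ((g : Matrix (Fin n) (Fin n) ℤ) ^ (orderOf (red (p ^ (0 + 1)) g))) := by
    have := (cg_pow_iff (p ^ (0 + 1)) g (orderOf (red (p ^ (0 + 1)) g))).2 dvd_rfl
    rw [hcast] at this
    exact this
  have h2 : ∀ j : ℕ, orderOf (red (p ^ (j + 1)) g) ∣ orderOf (red (p ^ (0 + 1)) g) * p ^ j := by
    intro j
    rw [← cg_pow_iff, hcast, pow_mul]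
    exact cg_iter h0 j
  have h3 : ∀ j : ℕ, orderOf (red (p ^ (j + 1)) g) ∣ orderOf (red (p ^ (0 + 1)) g) * p ^ e :=
    fun j => nt_aux hp (order_pos _ (hpj j) g).ne' (h2 j) (h1 j)
  have h4 : (g : Matrix (Fin n) (Fin n) ℤ) ^ (orderOf (red (p ^ (0 + 1)) g) * p ^ e) = 1 := by
    refine eq_one_of_cg hp _ fun j => ?_
    rw [← hcast, cg_pow_iff]
    exact h3 j
  apply hg
  rw [isOfFinOrder_iff_pow_eq_one]
  refine ⟨_, Nat.mul_pos (order_pos _ (hpj 0) g) (pow_pos hp.pos e), ?_⟩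
  ext1
  rw [Units.val_pow_eq_pow_val, Units.val_one]
  exact h4

theorem inf_case (g : (Matrix (Fin n) (Fin n) ℤ)ˣ) (hg : ¬ IsOfFinOrder g) (m : ℕ) (hm : 0 < m) :
    ∃ N : ℕ, 0 < N ∧ ∀ k : ℤ,
      Cg (N : ℤ) ((g ^ k : (Matrix (Fin n) (Fin n) ℤ)ˣ) : Matrix (Fin n) (Fin n) ℤ) →
        (m : ℤ) ∣ k := by
  induction m using Nat.recOnPosPrimePosCoprime with
  | zero => exact absurd hm (lt_irrefl 0)
  | one => exact ⟨1, one_pos, fun k _ => by rw [Nat.cast_one]; exact one_dvd k⟩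
  | prime_pow p e hp _ => exact prime_pow g hg p e hp
  | coprime a b ha hb hab iha ihb =>
    obtain ⟨N, hN, h1⟩ := iha (by omega)
    obtain ⟨N', hN', h2⟩ := ihb (by omega)
    refine ⟨N * N', Nat.mul_pos hN hN', fun k hk => ?_⟩
    have k1 := h1 k (fun i j => (Dvd.intro _ (by push_cast; rfl)).trans (hk i j))
    have k2 := h2 k (fun i j => (Dvd.intro_left _ (by push_cast; rfl)).trans (hk i j))
    rw [Nat.cast_mul]
    exact IsCoprime.mul_dvd (Nat.isCoprime_iff_coprime.2 hab) k1 k2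

theorem fin_case (g : (Matrix (Fin n) (Fin n) ℤ)ˣ) (hg : IsOfFinOrder g) :
    ∃ N : ℕ, 0 < N ∧ ∀ k : ℤ,
      Cg (N : ℤ) ((g ^ k : (Matrix (Fin n) (Fin n) ℤ)ˣ) : Matrix (Fin n) (Fin n) ℤ) →
        g ^ k = 1 := by
  obtain ⟨t, ht, hgt⟩ := isOfFinOrder_iff_pow_eq_one.1 hg
  let c : ℕ → Fin n → Fin n → ℕ := fun s i j =>
    (((g : Matrix (Fin n) (Fin n) ℤ) ^ s - 1) i j).natAbs
  refine ⟨1 + ∑ s ∈ range t, ∑ i, ∑ j, c s i j, by omega, fun k hk => ?_⟩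
  have hmod : g ^ k = g ^ (k % t).toNat := by
    have h0 : 0 ≤ k % t := Int.emod_nonneg k (by omega)
    have h1 : ((k % t).toNat : ℤ) = k % t := Int.toNat_of_nonneg h0
    rw [← zpow_natCast, h1]
    conv_lhs => rw [← Int.emod_add_mul_ediv k t]
    rw [zpow_add, zpow_mul, zpow_natCast, hgt, one_zpow, mul_one]
  have hlt : (k % t).toNat ∈ range t := by
    rw [mem_range]
    have h0 : 0 ≤ k % t := Int.emod_nonneg k (by omega)
    have h1 : k % t < t := Int.emod_lt_of_pos k (by omega)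
    omega
  rw [hmod] at hk ⊢
  rw [Units.val_pow_eq_pow_val] at hk
  have h5 : (g : Matrix (Fin n) (Fin n) ℤ) ^ (k % t).toNat - 1 = 0 := by
    ext i j
    refine Int.eq_zero_of_abs_lt_dvd (hk i j) ?_
    have l1 : c (k % t).toNat i j ≤ ∑ j, c (k % t).toNat i j :=
      Finset.single_le_sum (f := fun j => c (k % t).toNat i j) (fun _ _ => Nat.zero_le _)
        (mem_univ j)
    have l2 : ∑ j, c (k % t).toNat i j ≤ ∑ i, ∑ j, c (k % t).toNat i j :=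
      Finset.single_le_sum (f := fun i => ∑ j, c (k % t).toNat i j) (fun _ _ => Nat.zero_le _)
        (mem_univ i)
    have l3 : ∑ i, ∑ j, c (k % t).toNat i j ≤ ∑ s ∈ range t, ∑ i, ∑ j, c s i j :=
      Finset.single_le_sum (f := fun s => ∑ i, ∑ j, c s i j) (fun _ _ => Nat.zero_le _) hlt
    have l4 : c (k % t).toNat i j < 1 + ∑ s ∈ range t, ∑ i, ∑ j, c s i j := by omega
    rw [Int.abs_eq_natAbs]
    exact_mod_cast l4
  ext1
  rw [Units.val_pow_eq_pow_val, Units.val_one]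
  exact sub_eq_zero.1 h5

theorem T_CYC : S_CYC := by
  intro n g m hm
  by_cases hg : IsOfFinOrder g
  · obtain ⟨N, hN, h⟩ := fin_case g hg
    refine ⟨N, hN, fun k hk => ⟨0, ?_⟩⟩
    rw [h k hk, mul_zero, zpow_zero]
  · obtain ⟨N, hN, h⟩ := inf_case g hg m hm
    refine ⟨N, hN, fun k hk => ?_⟩
    obtain ⟨l, hl⟩ := h k hk
    exact ⟨l, by rw [hl]⟩

end Pool.Agent.H736.AB
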