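import Pool.Agent.H751.AB.Mag

/-!
# Every element of a free group is conjugate to a cyclically reduced product of syllables
(job SYL of project AB, helper751)
-/

set_option autoImplicit false

namespace Pool.Agent.H307.AB.SYL

open Pool.Agent.H751.AB

variable {ι : Type}

theorem syl_nil : syl ([] : List (ι × ℤ)) = 1 := by
  simp [syl]

theorem syl_cons (p : ι × ℤ) (L : List (ι × ℤ)) :
    syl (p :: L) = FreeGroup.of p.1 ^ p.2 * syl L := by
  simp [syl]

theorem syl_append (L M : List (ι × ℤ)) : syl (L ++ M) = syl L * syl M := by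
  simp [syl]

/-- every element is a product of syllables -/
theorem exists_syl (x : FreeGroup ι) : ∃ L : List (ι × ℤ), x = syl L := by
  induction x using FreeGroup.induction_on with
  | C1 => exact ⟨[], syl_nil.symm⟩
  | of j => exact ⟨[(j, 1)], by rw [syl_cons, syl_nil, mul_one, zpow_one]⟩
  | inv_of j _ => exact ⟨[(j, -1)], by rw [syl_cons, syl_nil, mul_one, zpow_neg_one]⟩
  | mul x y hx hy =>
    obtain ⟨L, rfl⟩ := hx
    obtain ⟨M, rfl⟩ := hy
    exact ⟨L ++ M, (syl_append L M).symm⟩

/-- a list which is not a chain has two bad neighbours -/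
theorem not_chain {α : Type} (R : α → α → Prop) (L : List α) (h : ¬ L.IsChain R) :
    ∃ (l₁ : List α) (p q : α) (l₂ : List α), L = l₁ ++ p :: q :: l₂ ∧ ¬ R p q := by
  induction L with
  | nil => exact absurd List.IsChain.nil h
  | cons a L ih =>
    cases L with
    | nil => exact absurd (List.IsChain.singleton a) h
    | cons b L =>
      by_cases hab : R a b
      · have h2 : ¬ (b :: L).IsChain R := fun h3 => h (List.IsChain.cons_cons hab h3)
        obtain ⟨l₁, p, q, l₂, e, hpq⟩ := ih h2
        exact ⟨a :: l₁, p, q, l₂, by rw [e]; rfl, hpq⟩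
      · exact ⟨[], a, b, L, rfl, hab⟩

/-- the good lists -/
def Good (L : List (ι × ℤ)) : Prop :=
  (∀ p ∈ L, p.2 ≠ 0) ∧ L.IsChain (fun p q => p.1 ≠ q.1) ∧
    (2 ≤ L.length → ∀ p ∈ L.head?, ∀ q ∈ L.getLast?, q.1 ≠ p.1)

/-- a list which is not good can be shortened up to conjugation -/
theorem shorten (L : List (ι × ℤ)) (h : ¬ Good L) :
    ∃ (g : FreeGroup ι) (M : List (ι × ℤ)), syl L = g * syl M * g⁻¹ ∧ M.length < L.length := by
  by_cases h1 : ∀ p ∈ L, p.2 ≠ 0
  · by_cases h2 : L.IsChain (fun p q => p.1 ≠ q.1)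
    · have h3 : ¬ (2 ≤ L.length → ∀ p ∈ L.head?, ∀ q ∈ L.getLast?, q.1 ≠ p.1) :=
        fun h3 => h ⟨h1, h2, h3⟩
      push Not at h3
      obtain ⟨hlen, p, hp, q, hq, hpq⟩ := h3
      cases L with
      | nil => simp at hlen
      | cons a L =>
        rcases List.eq_nil_or_concat L with hL | ⟨l, b, hL⟩
        · rw [hL] at hlen
          simp at hlen
        · subst hL
          have ha : a = p := by simpa using hp
          have hb : b = q := by
            have hq' : (a :: (l ++ [b])).getLast? = some q := by simpa using hq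
            have : (a :: (l ++ [b])).getLast? = some b := by
              rw [← List.cons_append, List.getLast?_append]
              rfl
            rw [this] at hq'
            exact Option.some.inj hq'
          subst ha
          subst hb
          refine ⟨FreeGroup.of a.1 ^ (-b.2), (a.1, b.2 + a.2) :: l, ?_, ?_⟩
          · rw [List.concat_eq_append, syl_cons, syl_append, syl_cons, syl_cons, syl_nil, mul_one,
              hpq, zpow_neg, inv_inv]
            show _ = (FreeGroup.of a.1 ^ b.2)⁻¹ * (FreeGroup.of a.1 ^ (b.2 + a.2) * syl l) *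
              FreeGroup.of a.1 ^ b.2
            rw [zpow_add]
            group
          · simp
    · obtain ⟨l₁, p, q, l₂, e, hpq⟩ := not_chain _ _ h2
      have hpq' : p.1 = q.1 := not_not.mp hpq
      refine ⟨1, l₁ ++ (p.1, p.2 + q.2) :: l₂, ?_, ?_⟩
      · rw [e, one_mul, inv_one, mul_one, syl_append, syl_append, syl_cons, syl_cons, syl_cons]
        show _ = syl l₁ * (FreeGroup.of p.1 ^ (p.2 + q.2) * syl l₂)
        rw [zpow_add, ← hpq', mul_assoc]
      · rw [e, List.length_append, List.length_append, List.length_cons, List.length_cons,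
          List.length_cons]
        omega
  · push Not at h1
    obtain ⟨p, hp, hp0⟩ := h1
    obtain ⟨l₁, l₂, e⟩ := List.append_of_mem hp
    refine ⟨1, l₁ ++ l₂, ?_, ?_⟩
    · rw [e, one_mul, inv_one, mul_one, syl_append, syl_append, syl_cons, hp0, zpow_zero, one_mul]
    · rw [e, List.length_append, List.length_append, List.length_cons]
      omega

/-- induction on the length -/
theorem main (n : ℕ) : ∀ (L : List (ι × ℤ)), L.length ≤ n → ∀ g : FreeGroup ι,
    ∃ (h : FreeGroup ι) (M : List (ι × ℤ)), g * syl L * g⁻¹ = h * syl M * h⁻¹ ∧ Good M := by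
  induction n with
  | zero =>
    intro L hL g
    by_cases hg : Good L
    · exact ⟨g, L, rfl, hg⟩
    · obtain ⟨_, M, _, hM⟩ := shorten L hg
      omega
  | succ n ih =>
    intro L hL g
    by_cases hg : Good L
    · exact ⟨g, L, rfl, hg⟩
    · obtain ⟨k, M, e, hM⟩ := shorten L hg
      obtain ⟨h, M', e', hM'⟩ := ih M (by omega) (g * k)
      refine ⟨h, M', ?_, hM'⟩
      rw [← e', e]
      group

/-- JOB SYL -/
theorem T_SYL : S_SYL := by
  intro ι x
  obtain ⟨L, hL⟩ := exists_syl x
  obtain ⟨h, M, e, hM⟩ := main L.length L le_rfl 1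
  refine ⟨h, M, ?_, hM⟩
  rw [← e, hL]
  group

end Pool.Agent.H307.AB.SYL
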