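import Pool.Agent.H751.AB.Lay

/-! Statements of the parts (II). -/

set_option autoImplicit false

namespace Pool.Agent.H751.AB

open NC

/-- the inner automorphisms -/
def Inn (ι : Type) : Subgroup (MulAut (FreeGroup ι)) := (MulAut.conj : FreeGroup ι →* _).range

/-- every subgroup of finite index of `A` (here: `B`, with `B ∩ A` of finite index in `A`) which
contains the inner automorphisms contains the elements of `A` which act trivially on the quotient by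
some characteristic subgroup of finite index -/
def Full {n : ℕ} (A : Subgroup (MulAut (FreeGroup (Fin n)))) : Prop :=
  ∀ B : Subgroup (MulAut (FreeGroup (Fin n))), Inn (Fin n) ≤ B → B.relIndex A ≠ 0 →
    ∃ K : Subgroup (FreeGroup (Fin n)), K.Characteristic ∧ K.FiniteIndex ∧
      ∀ α ∈ A, (∀ x, α x * x⁻¹ ∈ K) → α ∈ B

/-- CU: an automorphism which is a conjugation by a series up to every degree is inner -/
def S_CU : Prop := ∀ (ι : Type) (a b : ι), a ≠ b → ∀ α : MulAut (FreeGroup ι),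
  (∀ i, α ∈ Lv ι i) → ∃ h : FreeGroup ι, α = MulAut.conj h

/-- KM: congruence subgroups of the free group given by Magnus coefficients modulo `m` -/
def S_KM : Prop := ∀ (n : ℕ) (m : ℤ) (N : ℕ), m ≠ 0 → ∃ K : Subgroup (FreeGroup (Fin n)),
  K.Characteristic ∧ K.FiniteIndex ∧ ∀ x ∈ K, Cg m N (ms x) 1

/-- STAB: the chain of the groups `A ⊓ Lv i` becomes inner -/
def S_STAB : Prop := ∀ n : ℕ, 2 ≤ n → ∀ A : Subgroup (MulAut (FreeGroup (Fin n))),
  Inn (Fin n) ≤ A → A ≤ IA (Fin n) → A.FG → (∀ a ∈ A, ∀ b ∈ A, a * b * a⁻¹ * b⁻¹ ∈ Inn (Fin n)) →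
    ∃ c : ℕ, 1 ≤ c ∧ A ⊓ Lv (Fin n) c ≤ Inn (Fin n)

/-- STEP: the induction step along the layers -/
def S_STEP : Prop := ∀ n : ℕ, 2 ≤ n → ∀ (A : Subgroup (MulAut (FreeGroup (Fin n)))),
  A ≤ IA (Fin n) → ∀ i : ℕ, 1 ≤ i → Full (A ⊓ Lv (Fin n) (i + 1)) → Full (A ⊓ Lv (Fin n) i)

/-- TOP: from the subgroup acting trivially on the abelianization to the whole group -/
def S_TOP : Prop := ∀ n : ℕ, ∀ (A : Subgroup (MulAut (FreeGroup (Fin n)))),
  Full (A ⊓ IA (Fin n)) →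
  (∀ D : Subgroup (MulAut (FreeGroup (Fin n))), IA (Fin n) ≤ D → D.relIndex A ≠ 0 →
    ∃ K : Subgroup (FreeGroup (Fin n)), K.Characteristic ∧ K.FiniteIndex ∧
      ∀ α ∈ A, (∀ x, α x * x⁻¹ ∈ K) → α ∈ D) → Full A

/-- ABM: the action on the abelianization, as integral matrices -/
def S_ABM : Prop := ∀ n : ℕ, ∃ Φ : MulAut (FreeGroup (Fin n)) →* (Matrix (Fin n) (Fin n) ℤ)ˣ,
  Φ.ker = IA (Fin n) ∧ ∀ N : ℕ, 0 < N → ∃ K : Subgroup (FreeGroup (Fin n)),
    K.Characteristic ∧ K.FiniteIndex ∧ ∀ α : MulAut (FreeGroup (Fin n)),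
      (∀ x, α x * x⁻¹ ∈ K) → ∀ i j, (N : ℤ) ∣ ((Φ α : Matrix (Fin n) (Fin n) ℤ) - 1) i j

/-- CHEV: subgroups of finite index in abelian groups of integral matrices are congruence
subgroups (Chevalley) -/
def S_CHEV : Prop := ∀ (n : ℕ) (H : Subgroup (Matrix (Fin n) (Fin n) ℤ)ˣ),
  (∀ a ∈ H, ∀ b ∈ H, a * b = b * a) → ∀ D : Subgroup (Matrix (Fin n) (Fin n) ℤ)ˣ,
    D.relIndex H ≠ 0 → ∃ N : ℕ, 0 < N ∧ ∀ h ∈ H,
      (∀ i j, (N : ℤ) ∣ ((h : Matrix (Fin n) (Fin n) ℤ) - 1) i j) → h ∈ D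

end Pool.Agent.H751.AB
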