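import Pool.Agent.H751.AB.Stm2

/-! Statements of the parts (III): abelian groups of integral matrices (Chevalley's theorem). -/

set_option autoImplicit false

namespace Pool.Agent.H751.AB

open NumberField

/-- LOC: a unit which is not a `p ^ J`-th power in `K(ζ_{p^J})` is not a `p ^ J`-th power modulo
some prime, in the strong form that no `x v ^ (p ^ J)` is congruent to `1` -/
def S_LOC : Prop := ∀ (K : Type) [Field K] [NumberField K] (p J : ℕ), p.Prime → ∀ x : (𝓞 K)ˣ,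
  (¬ ∃ y : CyclotomicField (p ^ J) K,
    y ^ (p ^ J) = algebraMap K (CyclotomicField (p ^ J) K) ((x : 𝓞 K) : K)) →
  ∃ N : ℕ, 0 < N ∧ ∀ v : (𝓞 K)ˣ, ¬ (N : 𝓞 K) ∣ ((x * v ^ (p ^ J) : (𝓞 K)ˣ) : 𝓞 K) - 1

/-- DESC: descent of powers in cyclotomic extensions -/
def S_DESC : Prop := ∀ (K : Type) [Field K] [NumberField K] (p c J : ℕ), p.Prime →
  (¬ ∃ η : K, IsPrimitiveRoot η (p ^ (c + 1))) → c + 1 ≤ J → ∀ x : K, x ≠ 0 →
  (∃ y : CyclotomicField (p ^ J) K, y ^ (p ^ J) = algebraMap K (CyclotomicField (p ^ J) K) x) →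
  ∃ (a : ℕ) (z : K), 0 < a ∧ ¬ p ^ (c + 1) ∣ a ∧ z ^ (p ^ J) = x ^ a

/-- POW: units which are `p ^ J`-th powers in `K(ζ_{p^J})`, `J` large, are `p ^ k`-th powers in a
given torsion-free group of units -/
def S_POW : Prop := ∀ (K : Type) [Field K] [NumberField K] (p k : ℕ), p.Prime →
  ∀ E : Subgroup (𝓞 K)ˣ, (∀ u ∈ E, ∀ n : ℕ, n ≠ 0 → u ^ n = 1 → u = 1) → ∃ J : ℕ, k ≤ J ∧ ∀ x ∈ E,
    (∃ y : CyclotomicField (p ^ J) K,
      y ^ (p ^ J) = algebraMap K (CyclotomicField (p ^ J) K) ((x : 𝓞 K) : K)) →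
    ∃ v ∈ E, x = v ^ (p ^ k)

/-- UNIT: Chevalley's theorem for groups of units -/
def S_UNIT : Prop := ∀ (K : Type) [Field K] [NumberField K] (E D : Subgroup (𝓞 K)ˣ),
  D.relIndex E ≠ 0 → ∃ N : ℕ, 0 < N ∧ ∀ h ∈ E, (N : 𝓞 K) ∣ ((h : (𝓞 K)ˣ) : 𝓞 K) - 1 → h ∈ D

/-- the congruence property for an action of a commutative group on an abelian group -/
def CSP (G M : Type) [CommGroup G] [AddCommGroup M] (ρ : G →* AddMonoid.End M) : Prop :=
  ∀ D : Subgroup G, D.index ≠ 0 → ρ.ker ≤ D →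
    ∃ N : ℕ, 0 < N ∧ ∀ g : G, (∀ x : M, ∃ y : M, ρ g x = x + N • y) → g ∈ D

/-- IRR: rationally irreducible modules -/
def S_IRR : Prop := ∀ (G M : Type) [CommGroup G] [AddCommGroup M] [Module.Free ℤ M]
  [Module.Finite ℤ M] (ρ : G →* AddMonoid.End M),
  (∀ S : AddSubgroup M, (∀ g : G, ∀ x ∈ S, ρ g x ∈ S) →
    (∀ (k : ℤ) (x : M), k ≠ 0 → k • x ∈ S → x ∈ S) → S = ⊥ ∨ S = ⊤) → CSP G M ρ

/-- RED: rationally reducible modules -/
def S_RED : Prop := ∀ r : ℕ,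
  (∀ (G M : Type) [CommGroup G] [AddCommGroup M] [Module.Free ℤ M] [Module.Finite ℤ M]
    (ρ : G →* AddMonoid.End M), Module.finrank ℤ M < r → CSP G M ρ) →
  ∀ (G M : Type) [CommGroup G] [AddCommGroup M] [Module.Free ℤ M] [Module.Finite ℤ M]
    (ρ : G →* AddMonoid.End M), Module.finrank ℤ M = r →
    (∃ S : AddSubgroup M, (∀ g : G, ∀ x ∈ S, ρ g x ∈ S) ∧
      (∀ (k : ℤ) (x : M), k ≠ 0 → k • x ∈ S → x ∈ S) ∧ S ≠ ⊥ ∧ S ≠ ⊤) → CSP G M ρ

/-- CSA: the congruence property for all abelian groups acting on lattices -/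
def S_CSA : Prop := ∀ (G M : Type) [CommGroup G] [AddCommGroup M] [Module.Free ℤ M]
  [Module.Finite ℤ M] (ρ : G →* AddMonoid.End M), CSP G M ρ

end Pool.Agent.H751.AB
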